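import Pool.Agent.H731R4.Arcs.Defs

/-!
Task ALG: the algebraic comparison.
-/

namespace H731A

open H974 H731C H731R Finset

namespace Alg

theorem G_pos {r t : ℤ} (hr : 0 ≤ r) (ht : 1 ≤ t) : 0 < G r t := by
  have h1 : (0 : ℝ) ≤ r := by exact_mod_cast hr
  have h2 : (1 : ℝ) ≤ t := by exact_mod_cast ht
  unfold G
  positivity

theorem G_mono {r s t : ℤ} (hr : 0 ≤ r) (hs : 1 ≤ s) (h : s ≤ t) : G r s ≤ G r t := by
  have h1 : (0 : ℝ) ≤ r := by exact_mod_cast hr
  have h2 : (1 : ℝ) ≤ s := by exact_mod_cast hs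
  have h3 : (s : ℝ) ≤ t := by exact_mod_cast h
  unfold G
  exact mul_le_mul h3 (by linarith) (by positivity) (by linarith)

/-- `G r t ≤ 4 G r s` if `t ≤ 2 s` -/
theorem G_two {r s t : ℤ} (hr : 0 ≤ r) (ht : 1 ≤ t) (h : t ≤ 2 * s) :
    G r t ≤ 4 * G r s := by
  have h1 : (0 : ℝ) ≤ r := by exact_mod_cast hr
  have h2 : (1 : ℝ) ≤ t := by exact_mod_cast ht
  have h3 : (t : ℝ) ≤ 2 * s := by exact_mod_cast h
  unfold G
  have h4 : (t : ℝ) + r ≤ 2 * (s + r) := by linarith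
  calc (t : ℝ) * (t + r) ≤ (2 * s) * (2 * (s + r)) :=
        mul_le_mul h3 h4 (by positivity) (by linarith)
    _ = 4 * (s * (s + r)) := by ring

/-- comparison of quotients -/
theorem div_le_mul_div {x y z w c : ℝ} (hy : 0 < y) (hw : 0 < w) (h : x * w ≤ c * z * y) :
    x / y ≤ c * (z / w) := by
  rw [← mul_div_assoc, div_le_div_iff₀ hy hw]
  exact h

theorem AF_pos {r p D : ℤ} (hr : 0 ≤ r) (hp : 1 ≤ p) (hD : 1 ≤ D) : 0 < AF r p D := by
  unfold AF
  exact lt_min one_pos (div_pos (G_pos hr hp) (G_pos hr hD))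

theorem AF_eq_one {r p D : ℤ} (hr : 0 ≤ r) (hD : 1 ≤ D) (h : D ≤ p) : AF r p D = 1 := by
  unfold AF
  apply min_eq_left
  rw [le_div_iff₀ (G_pos hr hD), one_mul]
  exact G_mono hr hD h

theorem AF_eq_div {r p D : ℤ} (hr : 0 ≤ r) (hp : 1 ≤ p) (h : p ≤ D) :
    AF r p D = G r p / G r D := by
  unfold AF
  apply min_eq_right
  rw [div_le_iff₀ (G_pos hr (hp.trans h)), one_mul]
  exact G_mono hr hp h

end Alg

open Alg

theorem AF_comp {r r' p D : ℤ} (hr : 0 ≤ r) (hr' : 0 ≤ r') (hp : 1 ≤ p) (hD : 1 ≤ D)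
    (h : |r - r'| ≤ p) : AF r p D ≤ 4 * AF r' p D := by
  rcases le_total D p with h1 | h1
  · rw [AF_eq_one hr hD h1, AF_eq_one hr' hD h1]
    norm_num
  · rw [AF_eq_div hr hp h1, AF_eq_div hr' hp h1]
    apply div_le_mul_div (G_pos hr hD) (G_pos hr' hD)
    obtain ⟨h2, h3⟩ := abs_le.1 h
    have e1 : (0 : ℝ) ≤ r := by exact_mod_cast hr
    have e2 : (0 : ℝ) ≤ r' := by exact_mod_cast hr'
    have e3 : (1 : ℝ) ≤ p := by exact_mod_cast hp
    have e4 : (p : ℝ) ≤ D := by exact_mod_cast h1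
    have e5 : (r : ℝ) ≤ r' + p := by exact_mod_cast (by omega : r ≤ r' + p)
    have e6 : (r' : ℝ) ≤ r + p := by exact_mod_cast (by omega : r' ≤ r + p)
    unfold G
    have e7 : ((p : ℝ) + r) * (D + r') ≤ (2 * (p + r')) * (2 * (D + r)) :=
      mul_le_mul (by linarith) (by linarith) (by positivity) (by positivity)
    have e8 : (0 : ℝ) ≤ p * D := by positivity
    calc (p : ℝ) * (p + r) * (D * (D + r')) = (p * D) * ((p + r) * (D + r')) := by ring
      _ ≤ (p * D) * ((2 * (p + r')) * (2 * (D + r))) := mul_le_mul_of_nonneg_left e7 e8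
      _ = 4 * (p * (p + r')) * (D * (D + r)) := by ring

namespace Alg

/-- `l (l + r + s)` -/
noncomputable def S (l r s : ℤ) : ℝ := ((l * (l + r + s) : ℤ) : ℝ)

theorem S_symm (l r s : ℤ) : S l r s = S l s r := by
  unfold S
  congr 1
  ring

theorem S_lo {l r s : ℤ} (hl : 1 ≤ l) (hs : 0 ≤ s) : G r l ≤ S l r s := by
  have h2 : (1 : ℝ) ≤ l := by exact_mod_cast hl
  have h3 : (0 : ℝ) ≤ s := by exact_mod_cast hs
  unfold G S
  push_cast
  exact mul_le_mul_of_nonneg_left (by linarith) (by linarith)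

theorem S_hi {l r s : ℤ} (hl : 1 ≤ l) (h : |r - s| ≤ l) : S l r s ≤ 2 * G r l := by
  have h2 : (1 : ℝ) ≤ l := by exact_mod_cast hl
  obtain ⟨h4, h5⟩ := abs_le.1 h
  have h3 : (s : ℝ) ≤ r + l := by exact_mod_cast (by omega : s ≤ r + l)
  unfold G S
  push_cast
  calc (l : ℝ) * (l + r + s) ≤ l * (2 * (l + r)) :=
        mul_le_mul_of_nonneg_left (by linarith) (by linarith)
    _ = 2 * (l * (l + r)) := by ring

theorem S_pos {l r s : ℤ} (hl : 1 ≤ l) (hr : 0 ≤ r) (hs : 0 ≤ s) : 0 < S l r s :=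
  (G_pos hr hl).trans_le (S_lo hl hs)

theorem ratio {r s s' l l' : ℤ} (hr : 0 ≤ r) (hs : 0 ≤ s) (hs' : 0 ≤ s') (hl : 1 ≤ l)
    (hl' : 1 ≤ l') (h : |r - s| ≤ l) (h' : |r - s'| ≤ l') :
    S l r s / S l' r s' ≤ 2 * (G r l / G r l') ∧
      G r l / G r l' ≤ 2 * (S l r s / S l' r s') := by
  have g1 := G_pos hr hl
  have g2 := G_pos hr hl'
  have s1 := S_pos hl hr hs
  have s2 := S_pos hl' hr hs'
  have a1 := S_lo (r := r) hl hs
  have a2 := S_hi hl h
  have a3 := S_lo (r := r) hl' hs'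
  have a4 := S_hi hl' h'
  constructor
  · apply div_le_mul_div s2 g2
    exact mul_le_mul a2 a3 g2.le (by positivity)
  · apply div_le_mul_div g2 s2
    calc G r l * S l' r s' ≤ S l r s * (2 * G r l') := mul_le_mul a1 a4 s2.le s1.le
      _ = 2 * S l r s * G r l' := by ring

theorem first {r p g : ℤ} (hr : 0 ≤ r) (hp : 1 ≤ p) (hg : 1 ≤ g) :
    G r p / G r (p + g) ≤ AF r p g ∧ AF r p g ≤ 4 * (G r p / G r (p + g)) := by
  have g1 := G_pos hr hp
  have g2 := G_pos hr hg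
  have g3 := G_pos hr (show 1 ≤ p + g by omega)
  have m1 := G_mono hr hp (show p ≤ p + g by omega)
  have m2 := G_mono hr hg (show g ≤ p + g by omega)
  constructor
  · unfold AF
    apply le_min
    · rw [div_le_iff₀ g3, one_mul]
      exact m1
    · rw [div_le_div_iff₀ g3 g2]
      exact mul_le_mul_of_nonneg_left m2 g1.le
  · rcases le_total g p with h | h
    · rw [AF_eq_one hr hg h]
      have := G_two hr (show 1 ≤ p + g by omega) (show p + g ≤ 2 * p by omega)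
      rw [← mul_div_assoc, le_div_iff₀ g3, one_mul]
      exact this
    · rw [AF_eq_div hr hp h]
      have := G_two hr (show 1 ≤ p + g by omega) (show p + g ≤ 2 * g by omega)
      apply div_le_mul_div g2 g3
      calc G r p * G r (p + g) ≤ G r p * (4 * G r g) := mul_le_mul_of_nonneg_left this g1.le
        _ = 4 * G r p * G r g := by ring

theorem second {r q g lc lb : ℤ} (hr : 0 ≤ r) (hq : 1 ≤ q) (hg : 1 ≤ g) (hlc : 1 ≤ lc)
    (hlb : 1 ≤ lb) (h : (q ≤ g ∧ lc = q ∧ g ≤ lb ∧ lb ≤ 2 * g) ∨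
      (g ≤ q ∧ lb ≤ 2 * lc ∧ lc ≤ 2 * lb)) :
    G r lc / G r lb ≤ 4 * AF r q g ∧ AF r q g ≤ 4 * (G r lc / G r lb) := by
  have g1 := G_pos hr hq
  have g2 := G_pos hr hg
  have g3 := G_pos hr hlc
  have g4 := G_pos hr hlb
  rcases h with ⟨h1, rfl, h3, h4⟩ | ⟨h1, h2, h3⟩
  · rw [AF_eq_div hr hq h1]
    have m1 := G_mono hr hg h3
    have m2 := G_two hr hlb h4
    constructor
    · apply div_le_mul_div g4 g2
      calc G r lc * G r g ≤ G r lc * G r lb := mul_le_mul_of_nonneg_left m1 g1.le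
        _ ≤ 4 * G r lc * G r lb := by nlinarith [mul_pos g1 g4]
    · apply div_le_mul_div g2 g4
      calc G r lc * G r lb ≤ G r lc * (4 * G r g) := mul_le_mul_of_nonneg_left m2 g1.le
        _ = 4 * G r lc * G r g := by ring
  · rw [AF_eq_one hr hg h1]
    have m1 := G_two hr hlb h2
    have m2 := G_two hr hlc h3
    constructor
    · rw [mul_one, div_le_iff₀ g4]
      exact m2
    · rw [← mul_div_assoc, le_div_iff₀ g4, one_mul]
      exact m1

/-- combination of the two factors -/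
theorem comb {x y u v X Y : ℝ} (hx : 0 < x) (hy : 0 < y) (hu : 0 < u) (hv : 0 < v)
    (hX : 0 < X) (hY : 0 < Y) (h1 : x / u ≤ 2 * X) (h2 : X ≤ 8 * (x / u))
    (h3 : y / v ≤ 8 * Y) (h4 : Y ≤ 8 * (y / v)) :
    (x * y) / (u * v) ≤ 16 * (X * Y) ∧ X * Y ≤ 64 * ((x * y) / (u * v)) := by
  have e : (x * y) / (u * v) = (x / u) * (y / v) := by
    rw [mul_div_mul_comm]
  rw [e]
  constructor
  · calc (x / u) * (y / v) ≤ (2 * X) * (8 * Y) := mul_le_mul h1 h3 (by positivity) (by positivity)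
      _ = 16 * (X * Y) := by ring
  · calc X * Y ≤ (8 * (x / u)) * (8 * (y / v)) := mul_le_mul h2 h4 hY.le (by positivity)
      _ = 64 * ((x / u) * (y / v)) := by ring

/-- the case `p ≤ q` -/
theorem half {p q g1 g2 ra rb rc rd : ℤ} (hp : 1 ≤ p) (hq : 1 ≤ q) (h1 : 1 ≤ g1) (h2 : 1 ≤ g2)
    (ha : 0 ≤ ra) (hb : 0 ≤ rb) (hc : 0 ≤ rc) (hd : 0 ≤ rd)
    (hab : |ra - rb| ≤ min p (q + g1 + g2)) (hcd : |rc - rd| ≤ min q (p + g1 + g2))
    (hac : |ra - rc| ≤ min (p + g1) (q + g2)) (hbd : |rb - rd| ≤ min (q + g1) (p + g2))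
    (hpq : p ≤ q) :
    (S (min p (q + g1 + g2)) ra rb * S (min q (p + g1 + g2)) rc rd) /
      (S (min (p + g1) (q + g2)) ra rc * S (min (q + g1) (p + g2)) rb rd) ≤
      2000 * (AF ra p (min g1 g2) * AF rd q (min g1 g2)) ∧
    AF ra p (min g1 g2) * AF rd q (min g1 g2) ≤ 2000 *
    ((S (min p (q + g1 + g2)) ra rb * S (min q (p + g1 + g2)) rc rd) /
      (S (min (p + g1) (q + g2)) ra rc * S (min (q + g1) (p + g2)) rb rd)) := by
  have eqab : min p (q + g1 + g2) = p := by omega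
  rw [eqab] at hab ⊢
  obtain ⟨lc, hlc⟩ : ∃ lc, lc = min q (p + g1 + g2) := ⟨_, rfl⟩
  rw [← hlc] at hcd ⊢
  have hlc1 : 1 ≤ lc := by omega
  have hlcq : lc ≤ q := by omega
  rcases le_total g1 g2 with hg | hg
  · -- D = g1
    have eD : min g1 g2 = g1 := by omega
    have eqac : min (p + g1) (q + g2) = p + g1 := by omega
    rw [eD]
    rw [eqac] at hac ⊢
    obtain ⟨lb, hlb⟩ : ∃ lb, lb = min (q + g1) (p + g2) := ⟨_, rfl⟩
    rw [← hlb] at hbd ⊢
    have hlb1 : 1 ≤ lb := by omega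
    have r1 := ratio ha hb hc hp (show 1 ≤ p + g1 by omega) hab hac
    have f1 := first ha hp h1
    have r2 := ratio (r := rd) (s := rc) (s' := rb) hd hc hb hlc1 hlb1
      (by rw [abs_sub_comm]; exact hcd) (by rw [abs_sub_comm]; exact hbd)
    have f2 := second (r := rd) hd hq h1 hlc1 hlb1 (by
      rcases le_total q g1 with h | h
      · left; omega
      · right; omega)
    rw [S_symm lc rd rc, S_symm lb rd rb] at r2
    have A1 := AF_pos ha hp h1
    have A2 := AF_pos hd hq h1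
    have c := comb (S_pos hp ha hb) (S_pos hlc1 hc hd) (S_pos (show 1 ≤ p + g1 by omega) ha hc)
      (S_pos hlb1 hb hd) A1 A2
      (r1.1.trans (by linarith [f1.1])) (f1.2.trans (by linarith [r1.2]))
      (r2.1.trans (by linarith [f2.1])) (f2.2.trans (by linarith [r2.2]))
    have hpos := mul_pos A1 A2
    have hQ : 0 ≤ (S p ra rb * S lc rc rd) / (S (p + g1) ra rc * S lb rb rd) :=
      div_nonneg (mul_nonneg (S_pos hp ha hb).le (S_pos hlc1 hc hd).le)
        (mul_nonneg (S_pos (show 1 ≤ p + g1 by omega) ha hc).le (S_pos hlb1 hb hd).le)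
    constructor
    · linarith [c.1]
    · linarith [c.2]
  · -- D = g2
    have eD : min g1 g2 = g2 := by omega
    have eqbd : min (q + g1) (p + g2) = p + g2 := by omega
    rw [eD]
    rw [eqbd] at hbd ⊢
    obtain ⟨la, hla⟩ : ∃ la, la = min (p + g1) (q + g2) := ⟨_, rfl⟩
    rw [← hla] at hac ⊢
    have hla1 : 1 ≤ la := by omega
    have r1 := ratio (r := rb) (s := ra) (s' := rd) hb ha hd hp (show 1 ≤ p + g2 by omega)
      (by rw [abs_sub_comm]; exact hab) hbd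
    have f1 := first hb hp h2
    have r2 := ratio (r := rc) (s := rd) (s' := ra) hc hd ha hlc1 hla1 hcd
      (by rw [abs_sub_comm]; exact hac)
    have f2 := second (r := rc) hc hq h2 hlc1 hla1 (by
      rcases le_total q g2 with h | h
      · left; omega
      · right; omega)
    rw [S_symm p rb ra] at r1
    rw [S_symm la rc ra] at r2
    have A1 := AF_pos hb hp h2
    have A2 := AF_pos hc hq h2
    have B1 := AF_pos ha hp h2
    have B2 := AF_pos hd hq h2
    have c := comb (S_pos hp ha hb) (S_pos hlc1 hc hd) (S_pos (show 1 ≤ p + g2 by omega) hb hd)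
      (S_pos hla1 ha hc) A1 A2
      (r1.1.trans (by linarith [f1.1])) (f1.2.trans (by linarith [r1.2]))
      (r2.1.trans (by linarith [f2.1])) (f2.2.trans (by linarith [r2.2]))
    have k1 := AF_comp ha hb hp h2 hab
    have k2 := AF_comp hb ha hp h2 (by rw [abs_sub_comm]; exact hab)
    have k3 := AF_comp hc hd hq h2 (hcd.trans hlcq)
    have k4 := AF_comp hd hc hq h2 (by rw [abs_sub_comm]; exact hcd.trans hlcq)
    have e1 : AF rb p g2 * AF rc q g2 ≤ 16 * (AF ra p g2 * AF rd q g2) := by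
      calc AF rb p g2 * AF rc q g2 ≤ (4 * AF ra p g2) * (4 * AF rd q g2) :=
            mul_le_mul k2 k3 A2.le (by positivity)
        _ = _ := by ring
    have e2 : AF ra p g2 * AF rd q g2 ≤ 16 * (AF rb p g2 * AF rc q g2) := by
      calc AF ra p g2 * AF rd q g2 ≤ (4 * AF rb p g2) * (4 * AF rc q g2) :=
            mul_le_mul k1 k4 B2.le (by positivity)
        _ = _ := by ring
    have hpos := mul_pos B1 B2
    rw [mul_comm (S (p + g2) rb rd) (S la ra rc)] at c
    have hQ : 0 ≤ (S p ra rb * S lc rc rd) / (S la ra rc * S (p + g2) rb rd) :=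
      div_nonneg (mul_nonneg (S_pos hp ha hb).le (S_pos hlc1 hc hd).le)
        (mul_nonneg (S_pos hla1 ha hc).le (S_pos (show 1 ≤ p + g2 by omega) hb hd).le)
    constructor
    · linarith [c.1]
    · linarith [c.2]

end Alg

theorem alg {p q g1 g2 ra rb rc rd : ℤ} (hp : 1 ≤ p) (hq : 1 ≤ q) (h1 : 1 ≤ g1) (h2 : 1 ≤ g2)
    (ha : 0 ≤ ra) (hb : 0 ≤ rb) (hc : 0 ≤ rc) (hd : 0 ≤ rd)
    (hab : |ra - rb| ≤ min p (q + g1 + g2)) (hcd : |rc - rd| ≤ min q (p + g1 + g2))
    (hac : |ra - rc| ≤ min (p + g1) (q + g2)) (hbd : |rb - rd| ≤ min (q + g1) (p + g2)) :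
    ((((min p (q + g1 + g2)) * (min p (q + g1 + g2) + ra + rb) : ℤ) : ℝ) *
        (((min q (p + g1 + g2)) * (min q (p + g1 + g2) + rc + rd) : ℤ) : ℝ)) /
      ((((min (p + g1) (q + g2)) * (min (p + g1) (q + g2) + ra + rc) : ℤ) : ℝ) *
        (((min (q + g1) (p + g2)) * (min (q + g1) (p + g2) + rb + rd) : ℤ) : ℝ)) ≤
      2000 * (AF ra p (min g1 g2) * AF rd q (min g1 g2)) ∧
    AF ra p (min g1 g2) * AF rd q (min g1 g2) ≤ 2000 *
    (((((min p (q + g1 + g2)) * (min p (q + g1 + g2) + ra + rb) : ℤ) : ℝ) *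
        (((min q (p + g1 + g2)) * (min q (p + g1 + g2) + rc + rd) : ℤ) : ℝ)) /
      ((((min (p + g1) (q + g2)) * (min (p + g1) (q + g2) + ra + rc) : ℤ) : ℝ) *
        (((min (q + g1) (p + g2)) * (min (q + g1) (p + g2) + rb + rd) : ℤ) : ℝ))) := by
  rcases le_total p q with hpq | hpq
  · exact half hp hq h1 h2 ha hb hc hd hab hcd hac hbd hpq
  · have h := half (p := q) (q := p) (g1 := g1) (g2 := g2) (ra := rd) (rb := rc) (rc := rb)
      (rd := ra) hq hp h1 h2 hd hc hb ha (by rw [abs_sub_comm]; exact hcd)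
      (by rw [abs_sub_comm]; exact hab) (by rw [abs_sub_comm]; exact hbd)
      (by rw [abs_sub_comm]; exact hac) hpq
    rw [S_symm _ rd rc, S_symm _ rb ra, S_symm _ rd rb, S_symm _ rc ra,
      mul_comm (S (min q (p + g1 + g2)) rc rd), mul_comm (S (min (q + g1) (p + g2)) rb rd),
      mul_comm (AF rd q (min g1 g2))] at h
    exact h

end H731A
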