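import Pool.Agent.H731R4.Arcs.Defs2

/-!
Task AR1 (helper287): one-arm bound for an arc of the bottom side.
-/

namespace H731A

open H974 H731C H731R Finset

namespace Arm1

/-- Restriction of a path to a smaller rectangle. -/
theorem exit_RE {F : Finset Edg} {a b c d x0 x1 y1 : ℤ} {u v : Vtx} (hc : c = 0)
    (hu : inR x0 x1 (-1) y1 u) (hu' : inR a b c d u)
    (hv : v.1 ≤ x0 ∨ x1 ≤ v.1 ∨ v.2 ≤ -1 ∨ y1 ≤ v.2)
    (h : Reach ((↑F : Set Edg) ∩ ↑(RE a b c d)) u v) :
    ∃ w, inR a b c d w ∧ inR x0 x1 (-1) y1 w ∧ (w.1 = x0 ∨ w.1 = x1 ∨ w.2 = y1) ∧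
      Reach ((↑F : Set Edg) ∩ ↑(RE (max a x0) (min b x1) 0 y1)) u w := by
  obtain ⟨w, hw1, hw2, hw3⟩ := first_exit hu h hv
  have hw4 : inR a b c d w := by
    refine reach_inR (G := (↑F : Set Edg)) (u := u) hu' (hw3.mono ?_)
    rintro e ⟨h1, -⟩
    exact h1
  refine ⟨w, hw4, hw1, ?_, hw3.mono ?_⟩
  · unfold inR at hw4
    omega
  · rintro e ⟨⟨h1, h2⟩, h3⟩
    refine ⟨h1, Finset.mem_coe.2 ?_⟩
    have e1 := RE_ends (Finset.mem_coe.1 h2)
    have e2 := RE_ends (Finset.mem_coe.1 h3)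
    apply RE_of_ends
    · unfold inR at e1 e2 ⊢
      omega
    · unfold inR at e1 e2 ⊢
      omega

theorem Gpos {k p : ℤ} (hk : 0 ≤ k) (hp : 1 ≤ p) : 0 < G k p := by
  unfold G
  have h1 : (1:ℝ) ≤ p := by exact_mod_cast hp
  have h2 : (0:ℝ) ≤ k := by exact_mod_cast hk
  positivity

theorem Bx_eq {m n k r : ℤ} (hk : 0 ≤ k) (hr : 1 ≤ r) (hm : 4 * r ≤ m) (hn : 4 * r ≤ n)
    (h2k : 2 * k ≤ m) : Bx m n (k, 0) r = RE (max 0 (k - r)) (k + r) 0 r := by
  unfold Bx
  simp only
  congr 1 <;> omega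

/-- Data extracted from `ArmL`. -/
theorem arm_data {m n a b k r : ℤ} (ha : 0 ≤ a) (hak : a ≤ k) (hkb : k ≤ b) (hbm : b ≤ m)
    (hr : 1 ≤ r) (hm : 4 * r ≤ m) (hn : 4 * r ≤ n) (hp : b - a + 1 ≤ r) (h2k : 2 * k ≤ m)
    {F : Finset Edg} (h : ArmL m n a b (k, 0) r F) :
    ∃ i v, (a ≤ i ∧ i ≤ b) ∧ inR (max 0 (k - r)) (k + r) 0 r v ∧
      (v.1 = k - r ∨ v.1 = k + r ∨ v.2 = r) ∧
      Reach ((↑F : Set Edg) ∩ ↑(RE (max 0 (k - r)) (k + r) 0 r)) (i, 0) v := by
  obtain ⟨i, v, hi, hv, hreach⟩ := h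
  rw [Bx_eq (by omega) hr hm hn h2k, bd_bot (by omega) (by omega) (by omega) (by omega)] at hreach
  have hin : inR (max 0 (k - r)) (k + r) 0 r v := by
    refine reach_inR (G := (↑F : Set Edg)) (u := (i, 0)) ?_ hreach
    unfold inR
    simp only
    omega
  refine ⟨i, v, hi, hin, ?_, hreach⟩
  unfold inR at hin
  simp only at hv
  omega

theorem half : ∃ C : ℝ, 0 < C ∧ ∀ m n a b k r : ℤ, 0 ≤ a → a ≤ k → k ≤ b → b ≤ m → 1 ≤ r →
    4 * r ≤ m → 4 * r ≤ n → b - a + 1 ≤ r → 2 * k ≤ m →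
    P2 (RE 0 m 0 n) (ArmL m n a b (k, 0) r) ≤
      C * (G k (b - a + 1) / G k r) ^ ((1 : ℝ) / 3) := by
  obtain ⟨C1, hC1, hHA⟩ := HA_upper
  obtain ⟨C2, hC2, hQI⟩ := QI_upper
  refine ⟨7 * C1 + 2 * C2 + 4, by positivity, ?_⟩
  intro m n a b k r ha hak hkb hbm hr hm hn hp h2k
  set p := b - a + 1 with hpdef
  have hp1 : 1 ≤ p := by omega
  have hk0 : 0 ≤ k := by omega
  have hpR : (1:ℝ) ≤ p := by exact_mod_cast hp1
  have hkR : (0:ℝ) ≤ k := by exact_mod_cast hk0
  have hrR : (1:ℝ) ≤ r := by exact_mod_cast hr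
  have hG1 : 0 < G k p := Gpos hk0 hp1
  have hG2 : 0 < G k r := Gpos hk0 hr
  set y := G k p / G k r with hy
  have hy0 : 0 < y := div_pos hG1 hG2
  have hyr : 0 < y ^ ((1:ℝ) / 3) := Real.rpow_pos_of_pos hy0 _
  have hmono : ∀ {A B : Finset Edg → Prop}, (∀ F, A F → B F) →
      P2 (RE 0 m 0 n) A ≤ P2 (RE 0 m 0 n) B := fun h => Pr_mono okhalf2 (fun F _ hF => h F hF)
  by_cases h1 : r ≤ k
  · -- case 1
    have hsub : ∀ F, ArmL m n a b (k, 0) r F → HA k 0 p r F := by
      intro F hF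
      obtain ⟨i, v, hi, hv1, hv2, hreach⟩ := arm_data ha hak hkb hbm hr hm hn hp h2k hF
      have e : max 0 (k - r) = k - r := by omega
      rw [e] at hreach
      refine ⟨(i, 0), v, ?_, ?_, ?_⟩
      · unfold inR
        simp only
        omega
      · unfold onH
        omega
      · rw [zero_add]
        exact hreach
    have hS : RE (k - r) (k + r) 0 (0 + r) ⊆ RE 0 m 0 n :=
      RE_mono4 (by omega) (by omega) (by omega) (by omega)
    have b1 := (hmono hsub).trans (hHA k 0 p r hp1 hp _ hS)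
    have b2 : ((p : ℝ) / r) ^ ((1:ℝ) / 3) ≤ 2 * y ^ ((1:ℝ) / 3) := by
      apply cube_root_le (k := 2) (by positivity) hy0.le (by norm_num) _ (by norm_num)
      have h1' : (r:ℝ) ≤ k := by exact_mod_cast h1
      rw [hy]
      unfold G
      rw [← mul_div_assoc, div_le_div_iff₀ (by linarith) (by positivity)]
      nlinarith [mul_nonneg (by linarith : (0:ℝ) ≤ p) (by linarith : (0:ℝ) ≤ r),
        mul_nonneg (mul_nonneg (by linarith : (0:ℝ) ≤ p) (by linarith : (0:ℝ) ≤ r))
          (by linarith : (0:ℝ) ≤ 2 * p + k - r)]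
    calc _ ≤ C1 * ((p : ℝ) / r) ^ ((1:ℝ) / 3) := b1
      _ ≤ C1 * (2 * y ^ ((1:ℝ) / 3)) := mul_le_mul_of_nonneg_left b2 hC1.le
      _ ≤ _ := by nlinarith [mul_pos hC1 hyr, mul_pos hC2 hyr]
  · push Not at h1
    by_cases h2 : 8 * p ≤ r
    · by_cases h3 : 8 * k ≤ r
      · -- case 2a
        have hsub : ∀ F, ArmL m n a b (k, 0) r F → QI a b r F := by
          intro F hF
          obtain ⟨i, v, hi, hv1, hv2, hreach⟩ := arm_data ha hak hkb hbm hr hm hn hp h2k hF
          have hv1' := hv1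
          unfold inR at hv1'
          obtain ⟨w, hw1, hw2, hw3, hw4⟩ := exit_RE (x0 := -1) (x1 := r) (y1 := r) rfl
            (u := (i, 0)) (v := v) (by unfold inR; simp only; omega)
            (by unfold inR; simp only; omega) (by omega) hreach
          unfold inR at hw1
          refine ⟨i, w, hi, ?_, ?_⟩
          · unfold onQ
            omega
          · have e1 : max (max 0 (k - r)) (-1) = 0 := by omega
            have e2 : min (k + r) r = r := by omega
            rw [e1, e2] at hw4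
            exact hw4
        have hS : RE 0 r 0 r ⊆ RE 0 m 0 n :=
          RE_mono4 (by omega) (by omega) (by omega) (by omega)
        have b1 := (hmono hsub).trans (hQI a b r ha (by omega) (by omega) hr _ hS)
        have b2 : ((((b - a + 1 : ℤ) : ℝ) * ((b + 1 : ℤ) : ℝ)) / (r : ℝ) ^ 2) ^ ((1:ℝ) / 3) ≤
            2 * y ^ ((1:ℝ) / 3) := by
          have hb1 : 0 < b + 1 := by omega
          have hb1R : (0:ℝ) < ((b + 1 : ℤ) : ℝ) := by exact_mod_cast hb1
          rw [← hpdef]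
          apply cube_root_le (k := 2) (by positivity) hy0.le (by norm_num) _ (by norm_num)
          have h1' : (k:ℝ) ≤ r := by exact_mod_cast h1.le
          have hbk : ((b + 1 : ℤ) : ℝ) ≤ p + k := by
            have : b + 1 ≤ p + k := by omega
            exact_mod_cast this
          rw [hy]
          unfold G
          rw [← mul_div_assoc, div_le_div_iff₀ (by positivity) (by positivity)]
          calc (p:ℝ) * ((b + 1 : ℤ) : ℝ) * (r * (r + k)) ≤ p * (p + k) * (r * (r + k)) := by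
                gcongr
            _ ≤ p * (p + k) * (r * (r + r)) := by gcongr
            _ = 2 * (p * (p + k)) * r ^ 2 := by ring
        calc _ ≤ C2 * ((((b - a + 1 : ℤ) : ℝ) * ((b + 1 : ℤ) : ℝ)) / (r : ℝ) ^ 2) ^ ((1:ℝ) / 3) :=
              b1
          _ ≤ C2 * (2 * y ^ ((1:ℝ) / 3)) := mul_le_mul_of_nonneg_left b2 hC2.le
          _ ≤ _ := by nlinarith [mul_pos hC1 hyr, mul_pos hC2 hyr]
      · -- case 2c
        push Not at h3
        set r2 := r / 8 with hr2
        have q1 : p ≤ r2 := by omega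
        have q2 : r2 ≤ k := by omega
        have q3 : r ≤ 16 * r2 := by omega
        have hsub : ∀ F, ArmL m n a b (k, 0) r F → HA k 0 p r2 F := by
          intro F hF
          obtain ⟨i, v, hi, hv1, hv2, hreach⟩ := arm_data ha hak hkb hbm hr hm hn hp h2k hF
          have hv1' := hv1
          unfold inR at hv1'
          obtain ⟨w, hw1, hw2, hw3, hw4⟩ := exit_RE (x0 := k - r2) (x1 := k + r2) (y1 := r2) rfl
            (u := (i, 0)) (v := v) (by unfold inR; simp only; omega)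
            (by unfold inR; simp only; omega) (by omega) hreach
          unfold inR at hw1
          refine ⟨(i, 0), w, ?_, ?_, ?_⟩
          · unfold inR
            simp only
            omega
          · unfold onH
            omega
          · have e1 : max (max 0 (k - r)) (k - r2) = k - r2 := by omega
            have e2 : min (k + r) (k + r2) = k + r2 := by omega
            rw [e1, e2] at hw4
            rw [zero_add]
            exact hw4
        have hS : RE (k - r2) (k + r2) 0 (0 + r2) ⊆ RE 0 m 0 n :=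
          RE_mono4 (by omega) (by omega) (by omega) (by omega)
        have b1 := (hmono hsub).trans (hHA k 0 p r2 hp1 q1 _ hS)
        have b2 : ((p : ℝ) / r2) ^ ((1:ℝ) / 3) ≤ 7 * y ^ ((1:ℝ) / 3) := by
          have q3R : (r:ℝ) ≤ 16 * r2 := by exact_mod_cast q3
          have hr2pos : (0:ℝ) < r2 := by linarith
          apply cube_root_le (k := 256) (by positivity) hy0.le (by norm_num) _ (by norm_num)
          have h3' : (r:ℝ) ≤ 8 * k := by exact_mod_cast h3.le
          rw [hy]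
          unfold G
          rw [← mul_div_assoc, div_le_div_iff₀ (by linarith) (by positivity)]
          calc (p:ℝ) * (r * (r + k)) ≤ p * ((16 * r2) * (16 * (p + k))) := by
                gcongr
                linarith
            _ = 256 * (p * (p + k)) * r2 := by ring
        calc _ ≤ C1 * ((p : ℝ) / r2) ^ ((1:ℝ) / 3) := b1
          _ ≤ C1 * (7 * y ^ ((1:ℝ) / 3)) := mul_le_mul_of_nonneg_left b2 hC1.le
          _ ≤ _ := by nlinarith [mul_pos hC1 hyr, mul_pos hC2 hyr]
    · -- case 2b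
      push Not at h2
      have hP1 : P2 (RE 0 m 0 n) (ArmL m n a b (k, 0) r) ≤ 1 := Pr_le_one okhalf2 _ _
      have b2 : (1:ℝ) ^ ((1:ℝ) / 3) ≤ 4 * y ^ ((1:ℝ) / 3) := by
        apply cube_root_le (k := 64) (by positivity) hy0.le (by norm_num) _ (by norm_num)
        have h2' : (r:ℝ) ≤ 8 * p := by exact_mod_cast h2.le
        rw [hy]
        unfold G
        rw [← mul_div_assoc, le_div_iff₀ (by positivity), one_mul]
        calc (r:ℝ) * (r + k) ≤ (8 * p) * (8 * (p + k)) := by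
              gcongr
              linarith
          _ = 64 * (p * (p + k)) := by ring
      rw [Real.one_rpow] at b2
      nlinarith [mul_pos hC1 hyr, mul_pos hC2 hyr]

theorem refl {m n a b k r : ℤ} (ha : 0 ≤ a) (hb : b ≤ m) (hm : 1 ≤ m) (hn : 1 ≤ n) :
    P2 (RE 0 m 0 n) (ArmL m n a b (k, 0) r) ≤
      P2 (RE 0 m 0 n) (ArmL m n (m - b) (m - a) (m - k, 0) r) := by
  have hR : (rfx m).mp (RE 0 m 0 n) = RE 0 m 0 n := by
    rw [rfx_RE]; congr 1 <;> ring
  have hB : (rfx m).mp (Bx m n (k, 0) r) = Bx m n (m - k, 0) r := by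
    unfold Bx
    rw [rfx_RE]
    simp only
    congr 1 <;> omega
  have h1 := (rfx m).pr (1/2) (RE 0 m 0 n) (ArmL m n (m - b) (m - a) (m - k, 0) r)
  rw [hR] at h1
  unfold P2
  rw [h1]
  apply Pr_mono okhalf2
  rintro F _ ⟨i, ⟨v1, v2⟩, hi, hv, hr⟩
  refine ⟨m - i, (rfx m).ψ (v1, v2), ⟨by omega, by omega⟩, ?_, ?_⟩
  · simp only [rfx_ψ] at hv ⊢
    omega
  · have e : bd m n (m - i) = (rfx m).ψ (bd m n i) := by
      rw [bd_bot hm hn (by omega) (by omega), bd_bot hm hn (by omega) (by omega), rfx_ψ]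
    rw [e]
    exact (sym_reach (rfx m) hB).mpr hr

end Arm1

open Arm1 in
theorem arm_one : ∃ C : ℝ, 0 < C ∧ ∀ m n a b k r : ℤ, 0 ≤ a → a ≤ k → k ≤ b → b ≤ m → 1 ≤ r →
    4 * r ≤ m → 4 * r ≤ n → b - a + 1 ≤ r →
    P2 (RE 0 m 0 n) (ArmL m n a b (k, 0) r) ≤
      C * (G (min k (m - k)) (b - a + 1) / G (min k (m - k)) r) ^ ((1 : ℝ) / 3) := by
  obtain ⟨C, hC, h⟩ := half
  refine ⟨C, hC, ?_⟩
  intro m n a b k r ha hak hkb hbm hr hm hn hp
  rcases le_total k (m - k) with hk | hk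
  · rw [min_eq_left hk]
    exact h m n a b k r ha hak hkb hbm hr hm hn hp (by omega)
  · rw [min_eq_right hk]
    refine (refl ha hbm (by omega) (by omega)).trans ?_
    have h2 := h m n (m - b) (m - a) (m - k) r (by omega) (by omega) (by omega) (by omega) hr hm hn
      (by omega) (by omega)
    have e : m - a - (m - b) + 1 = b - a + 1 := by ring
    rw [e] at h2
    exact h2

end H731A
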