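import Pool.Agent.H731R4.Arcs.Defs2
import Pool.Agent.H731R4.Arcs.Arm1

/-!
One-arm bound for all arcs of the boundary of a rectangle.
-/

namespace H731A

open H974 H731C H731R Finset

namespace Arm2

theorem G_pos {ρ t : ℤ} (hρ : 0 ≤ ρ) (ht : 1 ≤ t) : 0 < G ρ t := by
  have h1 : (0 : ℝ) ≤ ρ := by exact_mod_cast hρ
  have h2 : (1 : ℝ) ≤ t := by exact_mod_cast ht
  unfold G
  positivity

theorem num1 {ρ p q r r1 : ℤ} (hρ : 0 ≤ ρ) (hρr : ρ ≤ r) (hq1 : 1 ≤ q) (hq : q ≤ p)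
    (hr : 2 * p ≤ r) (h1 : r1 = r - p) :
    (G 0 q / G 0 r1) ^ ((1 : ℝ) / 3) ≤ 2 * (G ρ p / G ρ r) ^ ((1 : ℝ) / 3) := by
  have a1 := G_pos le_rfl hq1
  have a2 := G_pos (ρ := 0) le_rfl (show 1 ≤ r1 by omega)
  have a3 := G_pos hρ (show 1 ≤ p by omega)
  have a4 := G_pos hρ (show 1 ≤ r by omega)
  apply cube_root_le (k := 8) (by positivity) (by positivity) (by norm_num) _ (by norm_num)
  rw [← mul_div_assoc, div_le_div_iff₀ a2 a4]
  have b1 : (0 : ℝ) ≤ ρ := by exact_mod_cast hρ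
  have b2 : (ρ : ℝ) ≤ r := by exact_mod_cast hρr
  have b3 : (1 : ℝ) ≤ q := by exact_mod_cast hq1
  have b4 : (q : ℝ) ≤ p := by exact_mod_cast hq
  have b5 : 2 * (p : ℝ) ≤ r := by exact_mod_cast hr
  have b6 : (r1 : ℝ) = r - p := by rw [h1]; push_cast; ring
  have b7 : (r : ℝ) ≤ 2 * r1 := by linarith
  unfold G
  rw [Int.cast_zero, add_zero, add_zero]
  have c1 : (q : ℝ) * q ≤ p * p := by nlinarith
  have c2 : (r : ℝ) * (r + ρ) ≤ 2 * (r * r) := by nlinarith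
  have c3 : (r : ℝ) * r ≤ 4 * (r1 * r1) := by nlinarith
  have c4 : (p : ℝ) * p ≤ p * (p + ρ) := by nlinarith
  calc (q : ℝ) * q * (r * (r + ρ)) ≤ (p * p) * (2 * (r * r)) :=
        mul_le_mul c1 c2 (by nlinarith) (by nlinarith)
    _ ≤ (p * (p + ρ)) * (2 * (4 * (r1 * r1))) := by
        apply mul_le_mul c4 (by linarith) (by nlinarith) (by nlinarith)
    _ = 8 * (p * (p + ρ)) * (r1 * r1) := by ring

theorem num2 {ρ p r : ℤ} (hρ : 0 ≤ ρ) (hp : 1 ≤ p) (hr : r < 2 * p) (hr1 : 1 ≤ r) :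
    1 ≤ 2 * (G ρ p / G ρ r) ^ ((1 : ℝ) / 3) := by
  have a3 := G_pos hρ hp
  have a4 := G_pos hρ hr1
  have h := cube_root_le (x := 1) (y := G ρ p / G ρ r) (k := 8) (K := 2) (by norm_num)
    (by positivity) (by norm_num) ?_ (by norm_num)
  · rwa [Real.one_rpow] at h
  · rw [← mul_div_assoc, le_div_iff₀ a4, one_mul]
    have b1 : (0 : ℝ) ≤ ρ := by exact_mod_cast hρ
    have b3 : (1 : ℝ) ≤ p := by exact_mod_cast hp
    have b4 : (r : ℝ) < 2 * p := by exact_mod_cast hr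
    have b5 : (1 : ℝ) ≤ r := by exact_mod_cast hr1
    unfold G
    nlinarith [mul_le_mul b4.le (show (r : ℝ) + ρ ≤ 2 * p + ρ by linarith) (by linarith)
      (by linarith), mul_nonneg (show (0 : ℝ) ≤ p by linarith) b1]

theorem num3 {ρ p q r : ℤ} (hρ : 0 ≤ ρ) (hq1 : 1 ≤ q) (hq : q ≤ p) (hr1 : 1 ≤ r) :
    (G ρ q / G ρ r) ^ ((1 : ℝ) / 3) ≤ (G ρ p / G ρ r) ^ ((1 : ℝ) / 3) := by
  have a1 := G_pos hρ hq1
  have a4 := G_pos hρ hr1
  apply Real.rpow_le_rpow (by positivity) _ (by norm_num)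
  apply div_le_div_of_nonneg_right _ a4.le
  have b1 : (0 : ℝ) ≤ ρ := by exact_mod_cast hρ
  have b3 : (1 : ℝ) ≤ q := by exact_mod_cast hq1
  have b4 : (q : ℝ) ≤ p := by exact_mod_cast hq
  unfold G
  apply mul_le_mul b4 (by linarith) (by linarith) (by linarith)

/-- an arc on the left side: replace the centre `(k, 0)` by the corner -/
theorem arm_left {m n a k r r1 : ℤ} {F : Finset Edg} (hr1 : 1 ≤ r1) (hm : 4 * r ≤ m)
    (hn : 4 * r ≤ n) (ha : -a ≤ r1) (ha0 : a ≤ 0) (hk : 0 ≤ k) (hr : r1 + k ≤ r)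
    (hF : ArmL m n a 0 (k, 0) r F) : ArmL m n a 0 (bd m n 0) r1 F := by
  obtain ⟨i, v, hi, hv, hreach⟩ := hF
  rw [bd_neg (by omega) (by omega) (by omega) hi.2] at hreach
  rw [bd_bot (by omega) (by omega) le_rfl (by omega)]
  unfold Bx at hreach
  simp only at hv hreach
  have hvR := reach_inR (u := ((0 : ℤ), -i)) (by unfold inR; simp only; omega) hreach
  unfold inR at hvR
  obtain ⟨w, -, hw, hw2⟩ := first_exit (a := -r1) (b := r1) (c := -r1) (d := r1)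
    (by unfold inR; simp only; omega) hreach (by omega)
  refine ⟨i, w, hi, ?_, ?_⟩
  · simp only; omega
  · rw [bd_neg (by omega) (by omega) (by omega) hi.2]
    apply hw2.mono
    rintro ⟨x, y, bo⟩ ⟨⟨h1, h2⟩, h3⟩
    refine ⟨h1, ?_⟩
    unfold Bx
    rw [Finset.mem_coe] at h2 h3 ⊢
    cases bo
    · rw [mem_RE_false] at h2 h3 ⊢; simp only; omega
    · rw [mem_RE_true] at h2 h3 ⊢; simp only; omega

/-- an arc on the right side: replace the centre `(k, 0)` by the corner -/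
theorem arm_right {m n b k r r1 : ℤ} {F : Finset Edg} (hr1 : 1 ≤ r1) (hm : 4 * r ≤ m)
    (hn : 4 * r ≤ n) (hb : b - m ≤ r1) (hb0 : m ≤ b) (hk : k ≤ m) (hr : r1 + (m - k) ≤ r)
    (hF : ArmL m n m b (k, 0) r F) : ArmL m n m b (bd m n m) r1 F := by
  obtain ⟨i, v, hi, hv, hreach⟩ := hF
  rw [bd_right (by omega) (by omega) hi.1 (by omega)] at hreach
  rw [bd_bot (by omega) (by omega) (by omega) le_rfl]
  unfold Bx at hreach
  simp only at hv hreach
  have hvR := reach_inR (u := (m, i - m)) (by unfold inR; simp only; omega) hreach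
  unfold inR at hvR
  obtain ⟨w, -, hw, hw2⟩ := first_exit (a := m - r1) (b := m + r1) (c := -r1) (d := r1)
    (by unfold inR; simp only; omega) hreach (by omega)
  refine ⟨i, w, hi, ?_, ?_⟩
  · simp only; omega
  · rw [bd_right (by omega) (by omega) hi.1 (by omega)]
    apply hw2.mono
    rintro ⟨x, y, bo⟩ ⟨⟨h1, h2⟩, h3⟩
    refine ⟨h1, ?_⟩
    unfold Bx
    rw [Finset.mem_coe] at h2 h3 ⊢
    cases bo
    · rw [mem_RE_false] at h2 h3 ⊢; simp only; omega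
    · rw [mem_RE_true] at h2 h3 ⊢; simp only; omega

theorem rot_left {m n a r1 : ℤ} (hm : 1 ≤ m) (hn : 1 ≤ n) :
    P2 (RE 0 m 0 n) (ArmL m n a 0 (bd m n 0) r1) =
      P2 (RE 0 n 0 m) (ArmL n m (a + n) n (n, 0) r1) := by
  have h : IsRot m n (-n) n m := ⟨-1, Or.inr (Or.inr (Or.inr ⟨by ring, rfl, rfl⟩))⟩
  have h1 := ArmL_isRot hm hn h a 0 0 r1
  rw [sub_neg_eq_add, zero_sub, neg_neg, bd_bot hn hm (by omega) le_rfl] at h1
  exact h1

theorem rot_right {m n b r1 : ℤ} (hm : 1 ≤ m) (hn : 1 ≤ n) :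
    P2 (RE 0 m 0 n) (ArmL m n m b (bd m n m) r1) =
      P2 (RE 0 n 0 m) (ArmL n m 0 (b - m) (0, 0) r1) := by
  have h : IsRot m n m n m := ⟨0, Or.inr (Or.inl ⟨by ring, rfl, rfl⟩)⟩
  have h1 := ArmL_isRot hm hn h m b m r1
  rw [sub_self, bd_bot hn hm le_rfl (by omega)] at h1
  exact h1

theorem core : ∃ C : ℝ, 0 < C ∧ ∀ m n a b k r : ℤ, a ≤ k → k ≤ b → 0 ≤ k → k ≤ m → 1 ≤ r →
    4 * r ≤ m → 4 * r ≤ n → b - a + 1 ≤ r →
    P2 (RE 0 m 0 n) (ArmL m n a b (k, 0) r) ≤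
      C * (G (min k (m - k)) (b - a + 1) / G (min k (m - k)) r) ^ ((1 : ℝ) / 3) := by
  obtain ⟨C1, hC1, H⟩ := arm_one
  refine ⟨3 * C1 + 2, by positivity, ?_⟩
  intro m n a b k r hak hkb hk0 hkm hr hm hn hp
  set ρ := min k (m - k) with hρ
  have hρ0 : 0 ≤ ρ := by omega
  have a3 := G_pos hρ0 (show 1 ≤ b - a + 1 by omega)
  have a4 := G_pos hρ0 hr
  set X := (G ρ (b - a + 1) / G ρ r) ^ ((1 : ℝ) / 3) with hX
  have hX0 : 0 ≤ X := by positivity
  by_cases hA : 0 ≤ a ∧ b ≤ m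
  · have h1 := H m n a b k r hA.1 hak hkb hA.2 hr hm hn hp
    have h2 : C1 * X ≤ (3 * C1 + 2) * X := mul_le_mul_of_nonneg_right (by linarith) hX0
    exact h1.trans h2
  by_cases h2p : r < 2 * (b - a + 1)
  · have h1 : 1 ≤ 2 * X := num2 hρ0 (by omega) h2p hr
    have h2 : P2 (RE 0 m 0 n) (ArmL m n a b (k, 0) r) ≤ 1 := Pr_le_one okhalf2 _ _
    nlinarith
  by_cases hB : a < 0
  · have s1 : P2 (RE 0 m 0 n) (ArmL m n a b (k, 0) r) ≤
        P2 (RE 0 m 0 n) (ArmL m n 0 b (k, 0) r) + P2 (RE 0 m 0 n) (ArmL m n a 0 (k, 0) r) := by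
      refine le_trans (Pr_mono okhalf2 (B := fun F => ArmL m n 0 b (k, 0) r F ∨
        ArmL m n a 0 (k, 0) r F) ?_) (Pr_or_le okhalf2 _ _ _)
      rintro F - ⟨i, v, hi, hv⟩
      rcases le_total 0 i with h | h
      · exact Or.inl ⟨i, v, ⟨h, hi.2⟩, hv⟩
      · exact Or.inr ⟨i, v, ⟨hi.1, h⟩, hv⟩
    have s2 := H m n 0 b k r le_rfl hk0 hkb (by omega) hr hm hn (by omega)
    have s3 : (G ρ (b - 0 + 1) / G ρ r) ^ ((1 : ℝ) / 3) ≤ X :=
      num3 hρ0 (by omega) (by omega) hr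
    have s4 : P2 (RE 0 m 0 n) (ArmL m n a 0 (k, 0) r) ≤
        P2 (RE 0 m 0 n) (ArmL m n a 0 (bd m n 0) (r - (b - a + 1))) := by
      apply Pr_mono okhalf2
      intro F _ hF
      exact arm_left (by omega) hm hn (by omega) hB.le hk0 (by omega) hF
    rw [rot_left (by omega) (by omega)] at s4
    have s5 := H n m (a + n) n n (r - (b - a + 1)) (by omega) (by omega) le_rfl le_rfl (by omega)
      (by omega) (by omega) (by omega)
    have e1 : min n (n - n) = 0 := by omega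
    rw [e1] at s5
    have s6 : (G 0 (n - (a + n) + 1) / G 0 (r - (b - a + 1))) ^ ((1 : ℝ) / 3) ≤ 2 * X :=
      num1 hρ0 (by omega) (by omega) (by omega) (by omega) rfl
    have s7 := mul_le_mul_of_nonneg_left s3 hC1.le
    have s8 := mul_le_mul_of_nonneg_left s6 hC1.le
    nlinarith
  · have hbm : m < b := by
      by_contra hc
      exact hA ⟨by omega, by omega⟩
    have s1 : P2 (RE 0 m 0 n) (ArmL m n a b (k, 0) r) ≤
        P2 (RE 0 m 0 n) (ArmL m n a m (k, 0) r) + P2 (RE 0 m 0 n) (ArmL m n m b (k, 0) r) := by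
      refine le_trans (Pr_mono okhalf2 (B := fun F => ArmL m n a m (k, 0) r F ∨
        ArmL m n m b (k, 0) r F) ?_) (Pr_or_le okhalf2 _ _ _)
      rintro F - ⟨i, v, hi, hv⟩
      rcases le_total i m with h | h
      · exact Or.inl ⟨i, v, ⟨hi.1, h⟩, hv⟩
      · exact Or.inr ⟨i, v, ⟨h, hi.2⟩, hv⟩
    have s2 := H m n a m k r (by omega) hak hkm le_rfl hr hm hn (by omega)
    have s3 : (G ρ (m - a + 1) / G ρ r) ^ ((1 : ℝ) / 3) ≤ X :=
      num3 hρ0 (by omega) (by omega) hr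
    have s4 : P2 (RE 0 m 0 n) (ArmL m n m b (k, 0) r) ≤
        P2 (RE 0 m 0 n) (ArmL m n m b (bd m n m) (r - (b - a + 1))) := by
      apply Pr_mono okhalf2
      intro F _ hF
      exact arm_right (by omega) hm hn (by omega) hbm.le hkm (by omega) hF
    rw [rot_right (by omega) (by omega)] at s4
    have s5 := H n m 0 (b - m) 0 (r - (b - a + 1)) le_rfl le_rfl (by omega) (by omega) (by omega)
      (by omega) (by omega) (by omega)
    have e1 : min 0 (n - 0) = 0 := by omega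
    rw [e1] at s5
    have s6 : (G 0 (b - m - 0 + 1) / G 0 (r - (b - a + 1))) ^ ((1 : ℝ) / 3) ≤ 2 * X :=
      num1 hρ0 (by omega) (by omega) (by omega) (by omega) rfl
    have s7 := mul_le_mul_of_nonneg_left s3 hC1.le
    have s8 := mul_le_mul_of_nonneg_left s6 hC1.le
    nlinarith

end Arm2

theorem arm_gen : ∃ C : ℝ, 0 < C ∧ ∀ m n a b k r : ℤ, a ≤ k → k ≤ b → 1 ≤ r →
    4 * r ≤ m → 4 * r ≤ n → b - a + 1 ≤ r →
    P2 (RE 0 m 0 n) (ArmL m n a b (bd m n k) r) ≤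
      C * (G (rho m n k) (b - a + 1) / G (rho m n k) r) ^ ((1 : ℝ) / 3) := by
  obtain ⟨C, hC, H⟩ := Arm2.core
  refine ⟨C, hC, ?_⟩
  intro m n a b k r hak hkb hr hm hn hp
  obtain ⟨s, m', n', hR, h1, h2⟩ := exists_side (m := m) (n := n) (by omega) (by omega) k
  have hs := hR.sum
  rw [ArmL_isRot (by omega) (by omega) hR a b k r, rho_isRot hR k,
    bd_bot (by omega) (by omega) (by omega) (by omega),
    rho_bot (by omega) (by omega) (by omega) (by omega)]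
  have h3 := H m' n' (a - s) (b - s) (k - s) r (by omega) (by omega) (by omega) (by omega) hr
    (by omega) (by omega) (by omega)
  have e : b - s - (a - s) + 1 = b - a + 1 := by ring
  rw [e] at h3
  exact h3

end H731A
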