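import Pool.Agent.H731R4.Arcs.Defs

/-!
Task CH: chord-arc property of the boundary of a rectangle.
-/

namespace H731A

open H974 H731C H731R Finset

namespace Chord

/-- coordinates of a boundary point -/
theorem coord {m n : ℤ} (hm : 1 ≤ m) (hn : 1 ≤ n) (i : ℤ) :
    ∃ k r x y : ℤ, i = r + k * (2 * (m + n)) ∧ bd m n i = (x, y) ∧
      ((0 ≤ r ∧ r ≤ m ∧ x = r ∧ y = 0) ∨ (m ≤ r ∧ r ≤ m + n ∧ x = m ∧ y = r - m) ∨
        (m + n ≤ r ∧ r ≤ 2 * m + n ∧ x = 2 * m + n - r ∧ y = n) ∨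
        (2 * m + n ≤ r ∧ r < 2 * (m + n) ∧ x = 0 ∧ y = 2 * (m + n) - r)) := by
  obtain ⟨k, r, h, h1 | h1 | h1 | h1⟩ := side_cases hm hn i
  · exact ⟨k, r, r, 0, h, by rw [h, bd_period, bd_bot hm hn h1.1 h1.2],
      Or.inl ⟨h1.1, h1.2, rfl, rfl⟩⟩
  · exact ⟨k, r, m, r - m, h, by rw [h, bd_period, bd_right hm hn h1.1 h1.2],
      Or.inr (Or.inl ⟨h1.1, h1.2, rfl, rfl⟩)⟩
  · exact ⟨k, r, 2 * m + n - r, n, h, by rw [h, bd_period, bd_top hm hn h1.1 h1.2],
      Or.inr (Or.inr (Or.inl ⟨h1.1, h1.2, rfl, rfl⟩))⟩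
  · exact ⟨k, r, 0, 2 * (m + n) - r, h, by rw [h, bd_period, bd_left hm hn h1.1 h1.2.le],
      Or.inr (Or.inr (Or.inr ⟨h1.1, h1.2, rfl, rfl⟩))⟩

theorem step {m n : ℤ} (hm : 1 ≤ m) (hn : 1 ≤ n) (i : ℤ) :
    |(bd m n (i + 1)).1 - (bd m n i).1| ≤ 1 ∧ |(bd m n (i + 1)).2 - (bd m n i).2| ≤ 1 := by
  obtain ⟨k, r, x, y, h, hb, hc⟩ := coord hm hn i
  have e : i + 1 = (r + 1) + k * (2 * (m + n)) := by rw [h]; ring
  rw [hb, e, bd_period]
  rcases hc with ⟨h1, h2, h3, h4⟩ | ⟨h1, h2, h3, h4⟩ | ⟨h1, h2, h3, h4⟩ | ⟨h1, h2, h3, h4⟩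
  · rcases h2.lt_or_eq with h5 | h5
    · rw [bd_bot hm hn (by omega) (by omega)]
      simp only [abs_le]
      omega
    · rw [bd_right hm hn (by omega) (by omega)]
      simp only [abs_le]
      omega
  · rcases h2.lt_or_eq with h5 | h5
    · rw [bd_right hm hn (by omega) (by omega)]
      simp only [abs_le]
      omega
    · rw [bd_top hm hn (by omega) (by omega)]
      simp only [abs_le]
      omega
  · rcases h2.lt_or_eq with h5 | h5
    · rw [bd_top hm hn (by omega) (by omega)]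
      simp only [abs_le]
      omega
    · rw [bd_left hm hn (by omega) (by omega)]
      simp only [abs_le]
      omega
  · rw [bd_left hm hn (by omega) (by omega)]
    simp only [abs_le]
    omega

theorem lip_nat {f : ℤ → ℤ} (hf : ∀ i, |f (i + 1) - f i| ≤ 1) (i : ℤ) (s : ℕ) :
    |f (i + s) - f i| ≤ s := by
  induction s with
  | zero => simp
  | succ s ih =>
    have h1 := hf (i + s)
    have e : i + ((s + 1 : ℕ) : ℤ) = i + s + 1 := by push_cast; ring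
    rw [e]
    have h2 : f (i + s + 1) - f i = (f (i + s + 1) - f (i + s)) + (f (i + s) - f i) := by ring
    rw [h2]
    refine (abs_add_le _ _).trans ?_
    push_cast
    linarith

theorem lip {f : ℤ → ℤ} (hf : ∀ i, |f (i + 1) - f i| ≤ 1) (i j : ℤ) : |f i - f j| ≤ |i - j| := by
  rcases le_total j i with h | h
  · obtain ⟨s, hs⟩ := Int.eq_ofNat_of_zero_le (show 0 ≤ i - j by omega)
    have e : i = j + s := by omega
    rw [e]
    have := lip_nat hf j s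
    simpa using this
  · obtain ⟨s, hs⟩ := Int.eq_ofNat_of_zero_le (show 0 ≤ j - i by omega)
    have e : j = i + s := by omega
    rw [e, abs_sub_comm, abs_sub_comm i]
    have := lip_nat hf i s
    simpa using this

end Chord

open Chord

theorem chord {K : ℕ} {m n : ℤ} (hm : 1 ≤ m) (hn : 1 ≤ n) (h1 : m ≤ K * n) (h2 : n ≤ K * m)
    (i j t : ℤ) (hx : |(bd m n i).1 - (bd m n j).1| ≤ t) (hy : |(bd m n i).2 - (bd m n j).2| ≤ t) :
    cd (2 * (m + n)) (i - j) ≤ (K + 2) * t := by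
  have hN : 0 < 2 * (m + n) := by omega
  obtain ⟨k, r, x, y, h, hb, hc⟩ := coord hm hn i
  obtain ⟨k', r', x', y', h', hb', hc'⟩ := coord hm hn j
  rw [hb, hb'] at hx hy
  simp only at hx hy
  have e : i - j = (r - r') + (k - k') * (2 * (m + n)) := by rw [h, h']; ring
  rw [e, cd_period]
  obtain ⟨hx1, hx2⟩ := abs_le.1 hx
  obtain ⟨hy1, hy2⟩ := abs_le.1 hy
  have ht : 0 ≤ t := by omega
  have c0 := le_abs.1 (cd_le_abs hN (r - r'))
  have c1 := le_abs.1 (cd_le hN (r - r') 1)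
  have c2 := le_abs.1 (cd_le hN (r - r') (-1))
  have c3 := cd_half (N := 2 * (m + n)) (r - r')
  have hK : (0 : ℤ) ≤ K := Int.natCast_nonneg K
  have key : cd (2 * (m + n)) (r - r') ≤ 2 * t ∨ (n ≤ t ∧ cd (2 * (m + n)) (r - r') ≤ m + n) ∨
      (m ≤ t ∧ cd (2 * (m + n)) (r - r') ≤ m + n) := by
    omega
  rcases key with h3 | ⟨h3, h4⟩ | ⟨h3, h4⟩
  · nlinarith [mul_nonneg hK ht]
  · have h5 : (K : ℤ) * n ≤ K * t := mul_le_mul_of_nonneg_left h3 hK
    nlinarith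
  · have h5 : (K : ℤ) * m ≤ K * t := mul_le_mul_of_nonneg_left h3 hK
    nlinarith

theorem bd_lip {m n : ℤ} (hm : 1 ≤ m) (hn : 1 ≤ n) (i j : ℤ) :
    |(bd m n i).1 - (bd m n j).1| ≤ cd (2 * (m + n)) (i - j) ∧
      |(bd m n i).2 - (bd m n j).2| ≤ cd (2 * (m + n)) (i - j) := by
  obtain ⟨k, hk⟩ := cd_exists (N := 2 * (m + n)) (by omega) (i - j)
  rw [hk]
  have e : i - j - k * (2 * (m + n)) = i - (j + k * (2 * (m + n))) := by ring
  rw [e, ← bd_period m n j k]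
  exact ⟨lip (f := fun i => (bd m n i).1) (fun i => (step hm hn i).1) _ _,
    lip (f := fun i => (bd m n i).2) (fun i => (step hm hn i).2) _ _⟩

end H731A
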