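import Pool.Agent.H731R4.Arcs.Defs2

/-!
Task DE: an open path and a dual path exclude each other.
-/

set_option autoImplicit false

namespace H731A

open H974 H731C H731R Finset

namespace DExc

theorem two_eq : (2 : ZMod 2) = 0 := by decide

theorem add_self' (a : ZMod 2) : a + a = 0 := by
  linear_combination a * two_eq

/-- the sum over the four edges of a face -/
def fs (E : Edg → ZMod 2) (x : Vtx) : ZMod 2 :=
  E (x.1, x.2, true) + E (x.1, x.2 + 1, true) + (E (x.1, x.2, false) + E (x.1 + 1, x.2, false))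

open Classical in
/-- the indicator of an edge -/
noncomputable def ind (e₀ : Edg) : Edg → ZMod 2 := fun e => if e = e₀ then 1 else 0

open Classical in
theorem fs_ind (e₀ : Edg) (x : Vtx) :
    fs (ind e₀) x = (if x = dsrc e₀ then 1 else 0) + if x = dtgt e₀ then 1 else 0 := by
  obtain ⟨p, q, b⟩ := e₀
  obtain ⟨u, v⟩ := x
  unfold fs ind
  cases b
  · simp only [Prod.mk.injEq, Bool.true_eq_false, and_false, and_true, if_false, dsrc_false,
      dtgt_mk, zero_add]
    rw [add_comm]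
    congr 1
    have : (u + 1 = p ∧ v = q) ↔ (u = p - 1 ∧ v = q) := by
      constructor <;> rintro ⟨h1, h2⟩ <;> exact ⟨by omega, h2⟩
    simp only [this]
  · simp only [Prod.mk.injEq, Bool.false_eq_true, and_false, and_true, if_false, dsrc_true,
      dtgt_mk, add_zero]
    rw [add_comm]
    congr 1
    have : (u = p ∧ v + 1 = q) ↔ (u = p ∧ v = q - 1) := by
      constructor <;> rintro ⟨h1, h2⟩ <;> exact ⟨h1, by omega⟩
    simp only [this]

theorem fs_add (E E' : Edg → ZMod 2) (x : Vtx) :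
    fs (fun e => E e + E' e) x = fs E x + fs E' x := by
  unfold fs
  ring

open Classical in
/-- the chain of a dual path -/
theorem chain {H : Set Edg} {f g : Vtx} (h : DReach H f g) : ∃ E : Edg → ZMod 2,
    (∀ e, e ∉ H → E e = 0) ∧ ∀ x, fs E x = (if x = f then 1 else 0) + if x = g then 1 else 0 := by
  induction h with
  | refl =>
    refine ⟨fun _ => 0, fun _ _ => rfl, fun x => ?_⟩
    rw [add_self']
    simp [fs]
  | @tail g' g _ hs ih =>
    obtain ⟨E, h1, h2⟩ := ih
    obtain ⟨e₀, he₀, h3⟩ := hs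
    refine ⟨fun e => E e + ind e₀ e, fun e he => ?_, fun x => ?_⟩
    · have hne : e ≠ e₀ := fun h => he (h ▸ he₀)
      simp only [h1 e he, ind, if_neg hne, add_zero]
    · rw [fs_add, h2, fs_ind]
      rcases h3 with ⟨h4, h5⟩ | ⟨h4, h5⟩
      · rw [h4, h5]
        linear_combination (if x = g' then (1 : ZMod 2) else 0) * two_eq
      · rw [h4, h5]
        linear_combination (if x = g' then (1 : ZMod 2) else 0) * two_eq

/-- the height function -/
noncomputable def ht (E : Edg → ZMod 2) (v : Vtx) : ZMod 2 :=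
  ∑ x ∈ Finset.Ico 0 v.1, E (x, 0, true) + ∑ y ∈ Finset.Ico 0 v.2, E (v.1, y, false)

theorem sum_Ico_succ (g : ℤ → ZMod 2) {X : ℤ} (hX : 0 ≤ X) :
    ∑ x ∈ Finset.Ico 0 (X + 1), g x = ∑ x ∈ Finset.Ico 0 X, g x + g X := by
  have h : Finset.Ico 0 (X + 1) = insert X (Finset.Ico 0 X) := by
    ext y
    simp only [Finset.mem_Ico, Finset.mem_insert]
    omega
  rw [h, Finset.sum_insert (by simp)]
  ring

theorem ht_vert (E : Edg → ZMod 2) {X Y : ℤ} (hY : 0 ≤ Y) :
    ht E (X, Y + 1) = ht E (X, Y) + E (X, Y, false) := by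
  unfold ht
  simp only
  rw [sum_Ico_succ (fun y => E (X, y, false)) hY]
  ring

theorem ht_horz {E : Edg → ZMod 2} {m n : ℤ}
    (hin : ∀ X Y, 0 ≤ X → X < m → 0 ≤ Y → Y < n → fs E (X, Y) = 0) {X Y : ℤ} (hX : 0 ≤ X)
    (hXm : X < m) (hY : 0 ≤ Y) (hYn : Y ≤ n) :
    ht E (X + 1, Y) = ht E (X, Y) + E (X, Y, true) := by
  induction Y, hY using Int.leInduction with
  | base =>
    unfold ht
    simp only [Finset.Ico_self, Finset.sum_empty, add_zero]
    exact sum_Ico_succ (fun x => E (x, 0, true)) hX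
  | succ Y hY ih =>
    have h1 := ih (by omega)
    have h2 := hin X Y hX hXm hY (by omega)
    unfold fs at h2
    simp only at h2
    rw [ht_vert E hY, ht_vert E hY, h1]
    linear_combination h2 - (E (X, Y + 1, true) + E (X, Y, false)) * two_eq

theorem ht_path {E : Edg → ZMod 2} {m n : ℤ}
    (hin : ∀ X Y, 0 ≤ X → X < m → 0 ≤ Y → Y < n → fs E (X, Y) = 0) {F : Finset Edg}
    (hE : ∀ e ∈ F, E e = 0) {u v : Vtx} (h : Reach (↑F ∩ ↑(RE 0 m 0 n)) u v) :
    ht E u = ht E v := by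
  have key : ∀ e : Edg, e ∈ (↑F ∩ ↑(RE 0 m 0 n) : Set Edg) → ht E (src e) = ht E (tgt e) := by
    rintro ⟨X, Y, _ | _⟩ ⟨h1, h2⟩
    · have h3 := mem_RE_false.1 (Finset.mem_coe.1 h2)
      rw [src_mk, tgt_false, ht_vert E h3.2.2.1, hE _ (Finset.mem_coe.1 h1), add_zero]
    · have h3 := mem_RE_true.1 (Finset.mem_coe.1 h2)
      rw [src_mk, tgt_true, ht_horz hin h3.1 h3.2.1 h3.2.2.1 h3.2.2.2,
        hE _ (Finset.mem_coe.1 h1), add_zero]
  induction h with
  | refl => rfl
  | tail _ hs ih =>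
    obtain ⟨e, he, h3⟩ := hs
    rw [ih]
    rcases h3 with ⟨h4, h5⟩ | ⟨h4, h5⟩
    · rw [← h4, ← h5]; exact key e he
    · rw [← h4, ← h5]; exact (key e he).symm

theorem ht_bd {E : Edg → ZMod 2} {m n : ℤ} (hm : 1 ≤ m) (hn : 1 ≤ n)
    (hin : ∀ X Y, 0 ≤ X → X < m → 0 ≤ Y → Y < n → fs E (X, Y) = 0) (x : ℤ) :
    ht E (bd m n (x + 1)) = ht E (bd m n x) + E (bed m n x) := by
  obtain ⟨k, h0, h1, h2⟩ := emod_spec (N := 2 * (m + n)) (by omega) x
  have e1 : bd m n x = bd m n (x % (2 * (m + n))) := by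
    conv_lhs => rw [h0]
    rw [bd_period]
  have e2 : bd m n (x + 1) = bd m n (x % (2 * (m + n)) + 1) := by
    conv_lhs => rw [h0, add_right_comm]
    rw [bd_period]
  rw [e1, e2]
  unfold bed
  generalize x % (2 * (m + n)) = r at h1 h2
  clear h0 e1 e2
  split_ifs with c1 c2 c3
  · rw [bd_bot hm hn h1 c1.le, bd_bot hm hn (by omega) (by omega)]
    exact ht_horz hin h1 c1 le_rfl (by omega)
  · rw [bd_right hm hn (by omega) (by omega), bd_right hm hn (by omega) (by omega)]
    have h3 := ht_vert E (X := m) (Y := r - m) (by omega)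
    rw [show r + 1 - m = r - m + 1 by ring]
    exact h3
  · rw [bd_top hm hn (by omega) (by omega), bd_top hm hn (by omega) (by omega)]
    have h3 := ht_horz hin (X := 2 * m + n - r - 1) (Y := n) (by omega) (by omega) (by omega) le_rfl
    rw [show 2 * m + n - r - 1 + 1 = 2 * m + n - r by ring] at h3
    rw [show 2 * m + n - (r + 1) = 2 * m + n - r - 1 by ring, h3]
    linear_combination -(E (2 * m + n - r - 1, n, true)) * two_eq
  · rw [bd_left hm hn (by omega) (by omega), bd_left hm hn (by omega) (by omega)]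
    have h3 := ht_vert E (X := 0) (Y := 2 * (m + n) - r - 1) (by omega)
    rw [show 2 * (m + n) - r - 1 + 1 = 2 * (m + n) - r by ring] at h3
    rw [show 2 * (m + n) - (r + 1) = 2 * (m + n) - r - 1 by ring, h3]
    linear_combination -(E (0, 2 * (m + n) - r - 1, false)) * two_eq

theorem fs_ofc {E : Edg → ZMod 2} {m n : ℤ} (hm : 1 ≤ m) (hn : 1 ≤ n)
    (hE : ∀ e, e ∉ RE 0 m 0 n → E e = 0) (x : ℤ) : fs E (ofc m n x) = E (bed m n x) := by
  obtain ⟨k, h0, h1, h2⟩ := emod_spec (N := 2 * (m + n)) (by omega) x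
  have z : ∀ X Y : ℤ, (X < 0 ∨ m ≤ X ∨ Y < 0 ∨ n < Y) → E (X, Y, true) = 0 := by
    intro X Y h
    refine hE _ fun h' => ?_
    rw [mem_RE_true] at h'
    omega
  have z' : ∀ X Y : ℤ, (X < 0 ∨ m < X ∨ Y < 0 ∨ n ≤ Y) → E (X, Y, false) = 0 := by
    intro X Y h
    refine hE _ fun h' => ?_
    rw [mem_RE_false] at h'
    omega
  unfold bed ofc fs
  generalize x % (2 * (m + n)) = r at h1 h2
  clear h0
  split_ifs with c1 c2 c3
  · simp only
    rw [z r (-1) (by omega), z' r (-1) (by omega), z' (r + 1) (-1) (by omega)]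
    rw [show (-1 : ℤ) + 1 = 0 by norm_num]
    ring
  · simp only
    rw [z m (r - m) (by omega), z m (r - m + 1) (by omega), z' (m + 1) (r - m) (by omega)]
    ring
  · simp only
    rw [z (2 * m + n - r - 1) (n + 1) (by omega), z' (2 * m + n - r - 1) n (by omega),
      z' (2 * m + n - r - 1 + 1) n (by omega)]
    ring
  · simp only
    rw [z (-1) (2 * (m + n) - r - 1) (by omega), z (-1) (2 * (m + n) - r - 1 + 1) (by omega),
      z' (-1) (2 * (m + n) - r - 1) (by omega), show (-1 : ℤ) + 1 = 0 by norm_num]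
    ring

theorem ofc_inj {m n : ℤ} (hm : 1 ≤ m) (hn : 1 ≤ n) {x i : ℤ} (h : ofc m n x = ofc m n i) :
    x % (2 * (m + n)) = i % (2 * (m + n)) := by
  obtain ⟨k, -, h1, h2⟩ := emod_spec (N := 2 * (m + n)) (by omega) x
  obtain ⟨k', -, h1', h2'⟩ := emod_spec (N := 2 * (m + n)) (by omega) i
  unfold ofc at h
  generalize x % (2 * (m + n)) = r at h h1 h2 ⊢
  generalize i % (2 * (m + n)) = r' at h h1' h2' ⊢
  split_ifs at h <;> rw [Prod.mk.injEq] at h <;> omega

theorem ofc_ne {m n : ℤ} (hm : 1 ≤ m) (hn : 1 ≤ n) (i : ℤ) {X Y : ℤ} (hX : 0 ≤ X) (hXm : X < m)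
    (hY : 0 ≤ Y) (hYn : Y < n) : ((X, Y) : Vtx) ≠ ofc m n i := by
  intro h
  obtain ⟨k, -, h1, h2⟩ := emod_spec (N := 2 * (m + n)) (by omega) i
  unfold ofc at h
  generalize i % (2 * (m + n)) = r at h h1 h2
  split_ifs at h <;> rw [Prod.mk.injEq] at h <;> omega

theorem eq_of_emod {N x i : ℤ} (h : x % N = i % N) (h1 : x - i < N) (h2 : i - x < N) : x = i := by
  have h3 : N ∣ x - i := Int.dvd_of_emod_eq_zero (Int.emod_eq_emod_iff_emod_sub_eq_zero.1 h)
  have h4 : |x - i| < N := abs_lt.2 ⟨by omega, h1⟩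
  have := Int.eq_zero_of_abs_lt_dvd h3 h4
  omega

end DExc

open DExc

theorem not_of_dual {m n a b c d i j : ℤ} (hm : 1 ≤ m) (hn : 1 ≤ n) (hab : a ≤ b) (hbc : b < c)
    (hcd : c ≤ d) (hda : d < a + 2 * (m + n)) {F : Finset Edg} (hi : b ≤ i ∧ i < c)
    (hj : d ≤ j ∧ j < a + 2 * (m + n))
    (h : DReach ((↑F : Set Edg)ᶜ ∩ ↑(RE 0 m 0 n)) (ofc m n i) (ofc m n j)) :
    ¬ AA m n a b c d F := by
  rintro ⟨k, l, hk, hl, hp⟩
  obtain ⟨E, hE, hf⟩ := chain h
  have hF : ∀ e ∈ F, E e = 0 := fun e he => hE e fun h' => h'.1 (Finset.mem_coe.2 he)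
  have hR : ∀ e, e ∉ RE 0 m 0 n → E e = 0 := fun e he => hE e fun h' =>
    he (Finset.mem_coe.1 h'.2)
  have hin : ∀ X Y, 0 ≤ X → X < m → 0 ≤ Y → Y < n → fs E (X, Y) = 0 := by
    intro X Y h1 h2 h3 h4
    rw [hf, if_neg (ofc_ne hm hn i h1 h2 h3 h4), if_neg (ofc_ne hm hn j h1 h2 h3 h4), add_zero]
  have hpath := ht_path hin hF hp
  have key : ∀ x, k ≤ x → x ≤ l →
      ht E (bd m n x) = ht E (bd m n k) + if i < x then 1 else 0 := by
    intro x hx
    induction x, hx using Int.leInduction with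
    | base =>
      intro _
      rw [if_neg (by omega), add_zero]
    | succ x hx ih =>
      intro hxl
      rw [ht_bd hm hn hin, ih (by omega), ← fs_ofc hm hn hR, hf]
      have hjx : ofc m n x ≠ ofc m n j := by
        intro h'
        have := eq_of_emod (ofc_inj hm hn h') (by omega) (by omega)
        omega
      rw [if_neg hjx, add_zero]
      by_cases hxi : x = i
      · subst hxi
        rw [if_neg (lt_irrefl _), if_pos rfl, if_pos (by omega), add_zero]
      · have hix : ofc m n x ≠ ofc m n i := by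
          intro h'
          exact hxi (eq_of_emod (ofc_inj hm hn h') (by omega) (by omega))
        rw [if_neg hix, add_zero]
        have : (i < x) ↔ (i < x + 1) := by omega
        simp only [this]
  have h1 := key l (by omega) le_rfl
  rw [if_pos (by omega), hpath] at h1
  have h2 : (1 : ZMod 2) = 0 := by linear_combination -h1
  exact absurd h2 (by decide)

end H731A
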