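import Pool.Agent.H731R4.Arcs.Defs2

/-!
No open path between two arcs of the boundary of a rectangle: then there is a dual path between
the other two arcs (parity argument).
-/

namespace H731A

open H974 H731C H731R Finset

namespace DPar

/-! ### the boundary edges -/

theorem side_cases' {m n : ℤ} (hm : 1 ≤ m) (hn : 1 ≤ n) (i : ℤ) :
    ∃ k r : ℤ, i = r + k * (2 * (m + n)) ∧ ((0 ≤ r ∧ r < m) ∨ (m ≤ r ∧ r < m + n) ∨
      (m + n ≤ r ∧ r < 2 * m + n) ∨ (2 * m + n ≤ r ∧ r < 2 * (m + n))) := by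
  obtain ⟨k, h0, h1, h2⟩ := emod_spec (N := 2 * (m + n)) (by omega) i
  refine ⟨k, i % (2 * (m + n)), h0, ?_⟩
  omega

theorem bed_period (m n i k : ℤ) : bed m n (i + k * (2 * (m + n))) = bed m n i := by
  unfold bed
  rw [Int.add_mul_emod_self_right]

theorem ofc_period (m n i k : ℤ) : ofc m n (i + k * (2 * (m + n))) = ofc m n i := by
  unfold ofc
  rw [Int.add_mul_emod_self_right]

theorem bed_bot {m n i : ℤ} (_hm : 1 ≤ m) (hn : 1 ≤ n) (h0 : 0 ≤ i) (h1 : i < m) :
    bed m n i = (i, 0, true) := by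
  unfold bed
  rw [Int.emod_eq_of_lt h0 (by omega), if_pos h1]

theorem bed_right {m n i : ℤ} (hm : 1 ≤ m) (hn : 1 ≤ n) (h0 : m ≤ i) (h1 : i < m + n) :
    bed m n i = (m, i - m, false) := by
  unfold bed
  rw [Int.emod_eq_of_lt (by omega) (by omega), if_neg (by omega), if_pos h1]

theorem bed_top {m n i : ℤ} (hm : 1 ≤ m) (hn : 1 ≤ n) (h0 : m + n ≤ i) (h1 : i < 2 * m + n) :
    bed m n i = (2 * m + n - i - 1, n, true) := by
  unfold bed
  rw [Int.emod_eq_of_lt (by omega) (by omega), if_neg (by omega), if_neg (by omega), if_pos h1]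

theorem bed_left {m n i : ℤ} (hm : 1 ≤ m) (hn : 1 ≤ n) (h0 : 2 * m + n ≤ i)
    (h1 : i < 2 * (m + n)) : bed m n i = (0, 2 * (m + n) - i - 1, false) := by
  unfold bed
  rw [Int.emod_eq_of_lt (by omega) (by omega), if_neg (by omega), if_neg (by omega),
    if_neg (by omega)]

theorem ofc_bot {m n i : ℤ} (_hm : 1 ≤ m) (hn : 1 ≤ n) (h0 : 0 ≤ i) (h1 : i < m) :
    ofc m n i = (i, -1) := by
  unfold ofc
  rw [Int.emod_eq_of_lt h0 (by omega), if_pos h1]

theorem ofc_right {m n i : ℤ} (hm : 1 ≤ m) (hn : 1 ≤ n) (h0 : m ≤ i) (h1 : i < m + n) :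
    ofc m n i = (m, i - m) := by
  unfold ofc
  rw [Int.emod_eq_of_lt (by omega) (by omega), if_neg (by omega), if_pos h1]

theorem ofc_top {m n i : ℤ} (hm : 1 ≤ m) (hn : 1 ≤ n) (h0 : m + n ≤ i) (h1 : i < 2 * m + n) :
    ofc m n i = (2 * m + n - i - 1, n) := by
  unfold ofc
  rw [Int.emod_eq_of_lt (by omega) (by omega), if_neg (by omega), if_neg (by omega), if_pos h1]

theorem ofc_left {m n i : ℤ} (hm : 1 ≤ m) (hn : 1 ≤ n) (h0 : 2 * m + n ≤ i)
    (h1 : i < 2 * (m + n)) : ofc m n i = (-1, 2 * (m + n) - i - 1) := by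
  unfold ofc
  rw [Int.emod_eq_of_lt (by omega) (by omega), if_neg (by omega), if_neg (by omega),
    if_neg (by omega)]

/-- everything about the edge `bed i` -/
theorem bed_spec {m n : ℤ} (hm : 1 ≤ m) (hn : 1 ≤ n) (i : ℤ) :
    bed m n i ∈ RE 0 m 0 n ∧
    ((src (bed m n i) = bd m n i ∧ tgt (bed m n i) = bd m n (i + 1)) ∨
      (src (bed m n i) = bd m n (i + 1) ∧ tgt (bed m n i) = bd m n i)) ∧
    (ofc m n i = dsrc (bed m n i) ∨ ofc m n i = dtgt (bed m n i)) := by
  obtain ⟨k, r, h, h1 | h1 | h1 | h1⟩ := side_cases' hm hn i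
  · have e : i + 1 = (r + 1) + k * (2 * (m + n)) := by rw [h]; ring
    rw [e, h, bd_period, bd_period, bed_period, ofc_period, bed_bot hm hn h1.1 h1.2,
      ofc_bot hm hn h1.1 h1.2, bd_bot hm hn h1.1 h1.2.le, bd_bot hm hn (by omega) (by omega)]
    refine ⟨?_, Or.inl ⟨rfl, rfl⟩, Or.inl ?_⟩
    · rw [mem_RE_true]; omega
    · rw [dsrc_true]; rfl
  · have e : i + 1 = (r + 1) + k * (2 * (m + n)) := by rw [h]; ring
    rw [e, h, bd_period, bd_period, bed_period, ofc_period, bed_right hm hn h1.1 h1.2,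
      ofc_right hm hn h1.1 h1.2, bd_right hm hn h1.1 h1.2.le,
      bd_right hm hn (by omega) (by omega)]
    refine ⟨?_, Or.inl ⟨rfl, ?_⟩, Or.inr rfl⟩
    · rw [mem_RE_false]; omega
    · rw [tgt_false]; ext
      · rfl
      · show r - m + 1 = r + 1 - m; ring
  · have e : i + 1 = (r + 1) + k * (2 * (m + n)) := by rw [h]; ring
    rw [e, h, bd_period, bd_period, bed_period, ofc_period, bed_top hm hn h1.1 h1.2,
      ofc_top hm hn h1.1 h1.2, bd_top hm hn h1.1 h1.2.le,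
      bd_top hm hn (by omega) (by omega)]
    refine ⟨?_, Or.inr ⟨?_, ?_⟩, Or.inr rfl⟩
    · rw [mem_RE_true]; omega
    · rw [src_mk]; ext
      · show 2 * m + n - r - 1 = 2 * m + n - (r + 1); ring
      · rfl
    · rw [tgt_true]; ext
      · show 2 * m + n - r - 1 + 1 = 2 * m + n - r; ring
      · rfl
  · have e : i + 1 = (r + 1) + k * (2 * (m + n)) := by rw [h]; ring
    rw [e, h, bd_period, bd_period, bed_period, ofc_period, bed_left hm hn h1.1 h1.2,
      ofc_left hm hn h1.1 h1.2, bd_left hm hn h1.1 h1.2.le,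
      bd_left hm hn (by omega) (by omega)]
    refine ⟨?_, Or.inr ⟨?_, ?_⟩, Or.inl ?_⟩
    · rw [mem_RE_false]; omega
    · rw [src_mk]; ext
      · rfl
      · show 2 * (m + n) - r - 1 = 2 * (m + n) - (r + 1); ring
    · rw [tgt_false]; ext
      · rfl
      · show 2 * (m + n) - r - 1 + 1 = 2 * (m + n) - r; ring
    · rw [dsrc_false]; rfl

/-! ### sums over periods -/

theorem sum_split {a b c : ℤ} (h1 : a ≤ b) (h2 : b ≤ c) (f : ℤ → ZMod 2) :
    ∑ i ∈ Finset.Ico a c, f i = ∑ i ∈ Finset.Ico a b, f i + ∑ i ∈ Finset.Ico b c, f i := by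
  rw [← Finset.sum_union]
  · congr 1
    ext i
    simp only [Finset.mem_Ico, Finset.mem_union]
    omega
  · rw [Finset.disjoint_left]
    intro i h3 h4
    simp only [Finset.mem_Ico] at h3 h4
    omega

theorem sum_step {N : ℤ} (hN : 0 < N) (f : ℤ → ZMod 2) (hf : ∀ i, f (i + N) = f i) (a : ℤ) :
    ∑ i ∈ Finset.Ico (a + 1) (a + 1 + N), f i = ∑ i ∈ Finset.Ico a (a + N), f i := by
  have e1 : ∑ i ∈ Finset.Ico a (a + N + 1), f i = ∑ i ∈ Finset.Ico a (a + N), f i + f (a + N) :=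
    sum_Ico_int_succ (by omega) f
  have e2 := sum_split (a := a) (b := a + 1) (c := a + N + 1) (by omega) (by omega) f
  have e3 : ∑ i ∈ Finset.Ico a (a + 1), f i = f a := by
    have := sum_Ico_int_succ (le_refl a) f
    rw [this]; simp
  have e4 : a + 1 + N = a + N + 1 := by ring
  rw [e4]
  rw [e3, e1, hf a] at e2
  have h := zmod2_add_self (f a)
  linear_combination (-1) * e2 - h + h

theorem sum_period {N : ℤ} (hN : 0 < N) (f : ℤ → ZMod 2) (hf : ∀ i, f (i + N) = f i) (a : ℤ) :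
    ∑ i ∈ Finset.Ico a (a + N), f i = ∑ i ∈ Finset.Ico 0 N, f i := by
  induction a using Int.induction_on with
  | zero => rw [zero_add]
  | succ i ih => rw [sum_step hN f hf]; exact ih
  | pred i ih =>
    have := sum_step hN f hf (-(i : ℤ) - 1)
    rw [sub_add_cancel] at this
    rw [← this]; exact ih

theorem sum_shift (c a b : ℤ) (f : ℤ → ZMod 2) :
    ∑ i ∈ Finset.Ico a b, f (i + c) = ∑ i ∈ Finset.Ico (a + c) (b + c), f i := by
  apply Finset.sum_nbij' (fun i => i + c) (fun i => i - c)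
  · intro i hi; simp only [Finset.mem_Ico] at hi ⊢; omega
  · intro i hi; simp only [Finset.mem_Ico] at hi ⊢; omega
  · intro i _; ring
  · intro i _; ring
  · intro i _; rfl

theorem sum_refl (c a b : ℤ) (f : ℤ → ZMod 2) :
    ∑ i ∈ Finset.Ico a b, f (c - i - 1) = ∑ i ∈ Finset.Ico (c - b) (c - a), f i := by
  apply Finset.sum_nbij' (fun i => c - i - 1) (fun i => c - i - 1)
  · intro i hi; simp only [Finset.mem_Ico] at hi ⊢; omega
  · intro i hi; simp only [Finset.mem_Ico] at hi ⊢; omega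
  · intro i _; ring
  · intro i _; ring
  · intro i _; rfl

/-- the flux through the boundary of the rectangle vanishes -/
theorem flux {m n : ℤ} (hm : 1 ≤ m) (hn : 1 ≤ n) (W D : Vtx → Prop)
    (hD : ∀ e, e ∈ bdry W ∩ (↑(RE 0 m 0 n) : Set Edg) → (D (dsrc e) ↔ D (dtgt e))) :
    ∑ i ∈ Finset.Ico (0 : ℤ) (2 * (m + n)),
      b2 (bed m n i ∈ bdry W ∩ (↑(RE 0 m 0 n) : Set Edg)) * b2 (D (dtgt (bed m n i))) = 0 := by
  set G : Set Edg := bdry W ∩ (↑(RE 0 m 0 n) : Set Edg) with hG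
  set z : Edg → ZMod 2 := fun e => b2 (e ∈ G) with hz
  set w : ℤ → ℤ → ZMod 2 := fun x y => b2 (W (x, y)) with hw
  have hzz : ∀ e, e ∈ RE 0 m 0 n → z e = b2 (W (src e)) + b2 (W (tgt e)) := by
    intro e he
    simp only [hz, hG]
    by_cases hA : W (src e) <;> by_cases hB : W (tgt e)
    · rw [b2_not_of, b2_of hA, b2_of hB]; · rfl
      rintro ⟨h, -⟩; exact h (by simp [hA, hB])
    · rw [b2_of, b2_of hA, b2_not_of hB]; · rfl
      refine ⟨?_, Finset.mem_coe.2 he⟩; simp [bdry, hA, hB]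
    · rw [b2_of, b2_not_of hA, b2_of hB]; · rfl
      refine ⟨?_, Finset.mem_coe.2 he⟩; simp [bdry, hA, hB]
    · rw [b2_not_of, b2_not_of hA, b2_not_of hB]; · rfl
      rintro ⟨h, -⟩; exact h (by simp [hA, hB])
  have hzH : ∀ x y, 0 ≤ x → x < m → 0 ≤ y → y ≤ n → z (x, y, true) = w x y + w (x + 1) y := by
    intro x y h1 h2 h3 h4
    exact hzz (x, y, true) (by rw [mem_RE_true]; omega)
  have hzV : ∀ x y, 0 ≤ x → x ≤ m → 0 ≤ y → y < n → z (x, y, false) = w x y + w x (y + 1) := by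
    intro x y h1 h2 h3 h4
    exact hzz (x, y, false) (by rw [mem_RE_false]; omega)
  have hsw : ∀ e, b2 (D (dsrc e)) * z e = b2 (D (dtgt e)) * z e := by
    intro e
    by_cases hm : e ∈ G
    · rw [b2_congr (hD e hm)]
    · simp only [hz]
      rw [b2_not_of hm, mul_zero, mul_zero]
  set Φ : ℤ → ZMod 2 := fun y => ∑ i ∈ Finset.Ico 0 m, b2 (D (i, y)) * z (i, y, true) with hΦ
  set t : ℤ → ℤ → ZMod 2 := fun x y => b2 (D (x, y)) * z (x, y, false) with ht
  have hstep : ∀ y, 0 ≤ y → y < n → Φ y + Φ (y + 1) + (t 0 y + t m y) = 0 := by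
    intro y h3 h4
    have hsum : ∑ i ∈ Finset.Ico 0 m, b2 (D (i, y)) *
        (z (i, y, true) + z (i, y + 1, true) + z (i, y, false) + z (i + 1, y, false)) = 0 := by
      apply Finset.sum_eq_zero
      intro i hi
      rw [Finset.mem_Ico] at hi
      rw [hzH i y hi.1 hi.2 h3 h4.le, hzH i (y + 1) hi.1 hi.2 (by omega) (by omega),
        hzV i y hi.1 hi.2.le h3 h4, hzV (i + 1) y (by omega) (by omega) h3 h4]
      have e1 := zmod2_add_self (w i y)
      have e2 := zmod2_add_self (w (i + 1) y)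
      have e3 := zmod2_add_self (w i (y + 1))
      have e4 := zmod2_add_self (w (i + 1) (y + 1))
      linear_combination (b2 (D (i, y))) * (e1 + e2 + e3 + e4)
    have hV : ∑ i ∈ Finset.Ico 0 m, (t i y + t (i + 1) y) = t 0 y + t m y :=
      telescope' (by omega) (fun i => t i y)
    have hsplit : ∑ i ∈ Finset.Ico 0 m, b2 (D (i, y)) *
        (z (i, y, true) + z (i, y + 1, true) + z (i, y, false) + z (i + 1, y, false))
        = Φ y + Φ (y + 1) + ∑ i ∈ Finset.Ico 0 m, (t i y + t (i + 1) y) := by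
      simp only [hΦ]
      rw [← Finset.sum_add_distrib, ← Finset.sum_add_distrib]
      apply Finset.sum_congr rfl
      intro i hi
      have s1 := hsw (i, y + 1, true)
      have s2 := hsw (i + 1, y, false)
      rw [dsrc_true, dtgt_mk, add_sub_cancel_right] at s1
      rw [dsrc_false, dtgt_mk, add_sub_cancel_right] at s2
      simp only [ht]
      rw [← s1, ← s2]
      ring
    rw [hsum, hV] at hsplit
    exact hsplit.symm
  have hall : ∀ k : ℕ, (k : ℤ) ≤ n → Φ 0 + Φ k + ∑ y ∈ Finset.Ico 0 (k : ℤ), (t 0 y + t m y) = 0 := by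
    intro k
    induction k with
    | zero => intro _; simp [zmod2_add_self]
    | succ k ih =>
      intro hk
      push_cast at hk ⊢
      have h1 := ih (by omega)
      have h2 := hstep k (by omega) (by omega)
      rw [sum_Ico_int_succ (by omega)]
      have h3 := zmod2_add_self (Φ k)
      linear_combination h1 + h2 - h3
  obtain ⟨k, hk⟩ := Int.eq_ofNat_of_zero_le (show 0 ≤ n by omega)
  have hd1 := hall k (by omega)
  rw [← hk, Finset.sum_add_distrib] at hd1
  -- the four sides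
  set H : ℤ → ZMod 2 := fun i => b2 (bed m n i ∈ G) * b2 (D (dtgt (bed m n i))) with hH
  have s1 : ∑ i ∈ Finset.Ico 0 m, H i = Φ 0 := by
    apply Finset.sum_congr rfl
    intro i hi
    rw [Finset.mem_Ico] at hi
    simp only [hH]
    rw [bed_bot hm hn hi.1 hi.2, mul_comm, dtgt_mk]
  have s2 : ∑ i ∈ Finset.Ico m (m + n), H i = ∑ y ∈ Finset.Ico 0 n, t m y := by
    have := sum_shift m 0 n H
    rw [zero_add, add_comm n m] at this
    rw [← this]
    apply Finset.sum_congr rfl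
    intro i hi
    rw [Finset.mem_Ico] at hi
    simp only [hH]
    rw [bed_right hm hn (by omega) (by omega), mul_comm, dtgt_mk, add_sub_cancel_right]
  have s3 : ∑ i ∈ Finset.Ico (m + n) (2 * m + n), H i = Φ n := by
    have := sum_refl (2 * m + n) 0 m H
    rw [sub_zero, show 2 * m + n - m = m + n by ring] at this
    rw [← this]
    apply Finset.sum_congr rfl
    intro i hi
    rw [Finset.mem_Ico] at hi
    simp only [hH]
    rw [bed_top hm hn (by omega) (by omega), mul_comm, dtgt_mk,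
      show 2 * m + n - (2 * m + n - i - 1) - 1 = i by ring]
  have s4 : ∑ i ∈ Finset.Ico (2 * m + n) (2 * (m + n)), H i = ∑ y ∈ Finset.Ico 0 n, t 0 y := by
    have := sum_refl (2 * (m + n)) 0 n H
    rw [sub_zero, show 2 * (m + n) - n = 2 * m + n by ring] at this
    rw [← this]
    apply Finset.sum_congr rfl
    intro i hi
    rw [Finset.mem_Ico] at hi
    simp only [hH]
    rw [bed_left hm hn (by omega) (by omega), mul_comm, dtgt_mk,
      show 2 * (m + n) - (2 * (m + n) - i - 1) - 1 = i by ring]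
  have e1 := sum_split (a := 0) (b := m) (c := 2 * (m + n)) (by omega) (by omega) H
  have e2 := sum_split (a := m) (b := m + n) (c := 2 * (m + n)) (by omega) (by omega) H
  have e3 := sum_split (a := m + n) (b := 2 * m + n) (c := 2 * (m + n)) (by omega) (by omega) H
  rw [e1, e2, e3, s1, s2, s3, s4]
  linear_combination hd1

end DPar

theorem dual_of_not {m n a b c d : ℤ} (hm : 1 ≤ m) (hn : 1 ≤ n) (hab : a ≤ b) (hbc : b < c)
    (hcd : c ≤ d) (hda : d < a + 2 * (m + n)) {F : Finset Edg} (h : ¬ AA m n a b c d F) :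
    ∃ i j, (b ≤ i ∧ i < c) ∧ (d ≤ j ∧ j < a + 2 * (m + n)) ∧
      DReach ((↑F : Set Edg)ᶜ ∩ ↑(RE 0 m 0 n)) (ofc m n i) (ofc m n j) := by
  by_contra hno
  set W : Vtx → Prop := fun v => ∃ i, (a ≤ i ∧ i ≤ b) ∧ Reach (↑F ∩ ↑(RE 0 m 0 n)) (bd m n i) v
    with hW
  set G : Set Edg := bdry W ∩ (↑(RE 0 m 0 n) : Set Edg) with hG
  set D : Vtx → Prop := fun f => ∃ i, (b ≤ i ∧ i < c) ∧ DReach G (ofc m n i) f with hD
  have hGF : G ⊆ (↑F : Set Edg)ᶜ ∩ ↑(RE 0 m 0 n) := by
    rintro e ⟨h1, h2⟩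
    refine ⟨fun hF => h1 ?_, h2⟩
    constructor
    · rintro ⟨i, hi, hr⟩
      exact ⟨i, hi, hr.trans (Adj.reach ⟨e, ⟨hF, h2⟩, Or.inl ⟨rfl, rfl⟩⟩)⟩
    · rintro ⟨i, hi, hr⟩
      exact ⟨i, hi, hr.trans (Adj.reach ⟨e, ⟨hF, h2⟩, Or.inr ⟨rfl, rfl⟩⟩)⟩
  have hDG : ∀ e, e ∈ G → (D (dsrc e) ↔ D (dtgt e)) := by
    intro e he
    constructor
    · rintro ⟨x0, h0, h1⟩
      exact ⟨x0, h0, h1.trans (DAdj.reach ⟨e, he, Or.inl ⟨rfl, rfl⟩⟩)⟩
    · rintro ⟨x0, h0, h1⟩
      exact ⟨x0, h0, h1.trans (DAdj.reach ⟨e, he, Or.inr ⟨rfl, rfl⟩⟩)⟩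
  have hflux := DPar.flux hm hn W D hDG
  set H : ℤ → ZMod 2 := fun i => b2 (bed m n i ∈ G) * b2 (D (dtgt (bed m n i))) with hH
  have hper : ∀ i, H (i + 2 * (m + n)) = H i := by
    intro i
    have := DPar.bed_period m n i 1
    rw [one_mul] at this
    simp only [hH]
    rw [this]
  have h0 : ∑ i ∈ Finset.Ico a (a + 2 * (m + n)), H i = 0 := by
    rw [DPar.sum_period (by omega) H hper a]; exact hflux
  have hDo : ∀ i, H i = b2 (bed m n i ∈ G) * b2 (D (ofc m n i)) := by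
    intro i
    obtain ⟨-, -, h3⟩ := DPar.bed_spec hm hn i
    simp only [hH]
    by_cases hg : bed m n i ∈ G
    · rcases h3 with h3 | h3
      · rw [h3, b2_congr (hDG _ hg)]
      · rw [h3]
    · rw [b2_not_of hg, zero_mul, zero_mul]
  have hz : ∀ i, b2 (bed m n i ∈ G) = b2 (W (bd m n i)) + b2 (W (bd m n (i + 1))) := by
    intro i
    obtain ⟨h1, h2, -⟩ := DPar.bed_spec hm hn i
    have h3 : bed m n i ∈ G ↔ ¬ (W (bd m n i) ↔ W (bd m n (i + 1))) := by
      rcases h2 with ⟨h4, h5⟩ | ⟨h4, h5⟩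
      · rw [← h4, ← h5]
        exact ⟨fun h => h.1, fun h => ⟨h, Finset.mem_coe.2 h1⟩⟩
      · rw [← h4, ← h5]
        constructor
        · rintro ⟨h6, -⟩ h7; exact h6 h7.symm
        · intro h6; exact ⟨fun h7 => h6 h7.symm, Finset.mem_coe.2 h1⟩
    rw [b2_congr h3]
    by_cases hA : W (bd m n i) <;> by_cases hB : W (bd m n (i + 1))
    · rw [b2_not_of (by simp [hA, hB]), b2_of hA, b2_of hB]; rfl
    · rw [b2_of (by simp [hA, hB]), b2_of hA, b2_not_of hB]; rfl
    · rw [b2_of (by simp [hA, hB]), b2_not_of hA, b2_of hB]; rfl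
    · rw [b2_not_of (by simp [hA, hB]), b2_not_of hA, b2_not_of hB]; rfl
  have hWt : ∀ i, a ≤ i → i ≤ b → W (bd m n i) := fun i h1 h2 => ⟨i, ⟨h1, h2⟩, Reach.refl _ _⟩
  have hWf : ∀ i, c ≤ i → i ≤ d → ¬ W (bd m n i) := by
    rintro i h1 h2 ⟨j, h3, h4⟩
    exact h ⟨j, i, h3, ⟨h1, h2⟩, h4⟩
  have p1 : ∑ i ∈ Finset.Ico a b, H i = 0 := by
    apply Finset.sum_eq_zero
    intro i hi
    rw [Finset.mem_Ico] at hi
    rw [hDo, hz, b2_of (hWt i hi.1 hi.2.le), b2_of (hWt (i + 1) (by omega) (by omega)),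
      zmod2_add_self, zero_mul]
  have p2 : ∑ i ∈ Finset.Ico b c, H i = 1 := by
    have h1 : ∀ i ∈ Finset.Ico b c, H i = b2 (W (bd m n i)) + b2 (W (bd m n (i + 1))) := by
      intro i hi
      rw [Finset.mem_Ico] at hi
      have : D (ofc m n i) := ⟨i, hi, DReach.refl _ _⟩
      rw [hDo, hz, b2_of this, mul_one]
    rw [Finset.sum_congr rfl h1, telescope' hbc.le (fun i => b2 (W (bd m n i))),
      b2_of (hWt b hab le_rfl), b2_not_of (hWf c le_rfl hcd), add_zero]
  have p3 : ∑ i ∈ Finset.Ico c d, H i = 0 := by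
    apply Finset.sum_eq_zero
    intro i hi
    rw [Finset.mem_Ico] at hi
    rw [hDo, hz, b2_not_of (hWf i hi.1 hi.2.le), b2_not_of (hWf (i + 1) (by omega) (by omega)),
      zmod2_add_self, zero_mul]
  have p4 : ∑ i ∈ Finset.Ico d (a + 2 * (m + n)), H i = 0 := by
    apply Finset.sum_eq_zero
    intro j hj
    rw [Finset.mem_Ico] at hj
    have : ¬ D (ofc m n j) := by
      rintro ⟨i, hi, hr⟩
      exact hno ⟨i, j, hi, hj, hr.mono hGF⟩
    rw [hDo, b2_not_of this, mul_zero]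
  rw [DPar.sum_split hab (by omega : b ≤ a + 2 * (m + n)) H,
    DPar.sum_split hbc.le (by omega : c ≤ a + 2 * (m + n)) H,
    DPar.sum_split hcd hda.le H, p1, p2, p3, p4] at h0
  simp at h0

end H731A
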