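import Pool.Agent.H731R4.Arcs.DExc
import Pool.Agent.H731R4.Arcs.DPar

/-!
Task DT: the probability that two arcs are not connected, compared with a connection probability
in the rectangle of the inner faces.
-/

namespace H731A

open H974 H731C H731R Finset

namespace DTra

/-- Edges of `[0, m] × [0, n]` both of whose faces are inner. -/
noncomputable def InE (m n : ℤ) : Finset Edg :=
  (RE 0 m 0 n).filter (fun e => if e.2.2 then 1 ≤ e.2.1 ∧ e.2.1 < n else 1 ≤ e.1 ∧ e.1 < m)

theorem mem_InE_true {m n x y : ℤ} :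
    ((x, y, true) : Edg) ∈ InE m n ↔ (0 ≤ x ∧ x < m) ∧ (1 ≤ y ∧ y < n) := by
  unfold InE
  rw [Finset.mem_filter, mem_RE_true]
  simp only [if_true]
  omega

theorem mem_InE_false {m n x y : ℤ} :
    ((x, y, false) : Edg) ∈ InE m n ↔ (1 ≤ x ∧ x < m) ∧ (0 ≤ y ∧ y < n) := by
  unfold InE
  rw [Finset.mem_filter, mem_RE_false]
  simp only [Bool.false_eq_true, if_false]
  omega

theorem InE_subset {m n : ℤ} : InE m n ⊆ RE 0 m 0 n := Finset.filter_subset _ _

theorem dmp_InE (m n : ℤ) : dmp (InE m n) = RE 0 (m - 1) 0 (n - 1) := by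
  ext ⟨x, y, _ | _⟩
  · rw [mem_dmp, dls_f, mem_InE_true, mem_RE_false]
    omega
  · rw [mem_dmp, dls_t, mem_InE_false, mem_RE_true]
    omega

theorem P2_dual (S : Finset Edg) (B : Finset Edg → Prop) :
    P2 S (fun F => B (dmp (S \ F))) = P2 (dmp S) B := by
  unfold P2
  rw [pr_dmp]
  have h := Pr_compl (fun _ : Edg => (1/2 : ℝ)) S (fun F => B (dmp F))
  have e : (fun _ : Edg => (1 : ℝ) - 1/2) = fun _ => (1/2 : ℝ) := by
    funext _
    norm_num
  rw [e] at h
  exact h.symm

/-- nearest inner face -/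
def cl (m n : ℤ) (f : Vtx) : Vtx := (max 0 (min f.1 (m - 1)), max 0 (min f.2 (n - 1)))

theorem cl_dadj {m n : ℤ} (hm : 1 ≤ m) (hn : 1 ≤ n) {F : Set Edg} {f g : Vtx}
    (h : DAdj (F ∩ ↑(RE 0 m 0 n)) f g) : DReach (F ∩ ↑(InE m n)) (cl m n f) (cl m n g) := by
  obtain ⟨e, ⟨heF, heR⟩, h⟩ := h
  have key : DReach (F ∩ ↑(InE m n)) (cl m n (dsrc e)) (cl m n (dtgt e)) := by
    obtain ⟨x, y, _ | _⟩ := e
    · rw [Finset.mem_coe, mem_RE_false] at heR
      rw [dsrc_false, dtgt_mk]
      by_cases h1 : 1 ≤ x ∧ x < m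
      · have e1 : cl m n (x - 1, y) = (x - 1, y) := by
          unfold cl; ext
          · show max 0 (min (x - 1) (m - 1)) = x - 1; omega
          · show max 0 (min y (n - 1)) = y; omega
        have e2 : cl m n (x, y) = (x, y) := by
          unfold cl; ext
          · show max 0 (min x (m - 1)) = x; omega
          · show max 0 (min y (n - 1)) = y; omega
        rw [e1, e2]
        refine DAdj.reach ⟨(x, y, false), ⟨heF, ?_⟩, Or.inl ⟨by simp, by simp⟩⟩
        rw [Finset.mem_coe, mem_InE_false]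
        omega
      · have e1 : cl m n (x - 1, y) = cl m n (x, y) := by
          unfold cl; ext
          · show max 0 (min (x - 1) (m - 1)) = max 0 (min x (m - 1)); omega
          · rfl
        rw [e1]
        exact DReach.refl _ _
    · rw [Finset.mem_coe, mem_RE_true] at heR
      rw [dsrc_true, dtgt_mk]
      by_cases h1 : 1 ≤ y ∧ y < n
      · have e1 : cl m n (x, y - 1) = (x, y - 1) := by
          unfold cl; ext
          · show max 0 (min x (m - 1)) = x; omega
          · show max 0 (min (y - 1) (n - 1)) = y - 1; omega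
        have e2 : cl m n (x, y) = (x, y) := by
          unfold cl; ext
          · show max 0 (min x (m - 1)) = x; omega
          · show max 0 (min y (n - 1)) = y; omega
        rw [e1, e2]
        refine DAdj.reach ⟨(x, y, true), ⟨heF, ?_⟩, Or.inl ⟨by simp, by simp⟩⟩
        rw [Finset.mem_coe, mem_InE_true]
        omega
      · have e1 : cl m n (x, y - 1) = cl m n (x, y) := by
          unfold cl; ext
          · rfl
          · show max 0 (min (y - 1) (n - 1)) = max 0 (min y (n - 1)); omega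
        rw [e1]
        exact DReach.refl _ _
  rcases h with ⟨rfl, rfl⟩ | ⟨rfl, rfl⟩
  · exact key
  · exact key.symm

theorem cl_dreach {m n : ℤ} (hm : 1 ≤ m) (hn : 1 ≤ n) {F : Set Edg} {f g : Vtx}
    (h : DReach (F ∩ ↑(RE 0 m 0 n)) f g) : DReach (F ∩ ↑(InE m n)) (cl m n f) (cl m n g) := by
  induction h with
  | refl => exact DReach.refl _ _
  | tail _ hs ih => exact ih.trans (cl_dadj hm hn hs)

theorem res_cases {m n : ℤ} (hm : 1 ≤ m) (hn : 1 ≤ n) (i : ℤ) :
    0 ≤ i % (2 * (m + n)) ∧ i % (2 * (m + n)) < 2 * (m + n) :=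
  ⟨Int.emod_nonneg _ (by omega), Int.emod_lt_of_pos _ (by omega)⟩

theorem cl_ofc {m n : ℤ} (hm : 1 ≤ m) (hn : 1 ≤ n) (i : ℤ) : cl m n (ofc m n i) = ifc m n i := by
  obtain ⟨h0, h1⟩ := res_cases hm hn i
  unfold ofc ifc
  generalize i % (2 * (m + n)) = r at *
  unfold cl
  split_ifs with h2 h3 h4
  · ext
    · show max 0 (min r (m - 1)) = r; omega
    · show max 0 (min (-1) (n - 1)) = 0; omega
  · ext
    · show max 0 (min m (m - 1)) = m - 1; omega
    · show max 0 (min (r - m) (n - 1)) = r - m; omega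
  · ext
    · show max 0 (min (2 * m + n - r - 1) (m - 1)) = 2 * m + n - r - 1; omega
    · show max 0 (min n (n - 1)) = n - 1; omega
  · ext
    · show max 0 (min (-1) (m - 1)) = 0; omega
    · show max 0 (min (2 * (m + n) - r - 1) (n - 1)) = 2 * (m + n) - r - 1; omega

theorem bed_mem {m n : ℤ} (hm : 1 ≤ m) (hn : 1 ≤ n) (i : ℤ) : bed m n i ∈ RE 0 m 0 n := by
  obtain ⟨h0, h1⟩ := res_cases hm hn i
  unfold bed
  generalize i % (2 * (m + n)) = r at *
  split_ifs with h2 h3 h4
  · rw [mem_RE_true]; omega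
  · rw [mem_RE_false]; omega
  · rw [mem_RE_true]; omega
  · rw [mem_RE_false]; omega

theorem bed_notMem {m n : ℤ} (hm : 1 ≤ m) (hn : 1 ≤ n) (i : ℤ) : bed m n i ∉ InE m n := by
  obtain ⟨h0, h1⟩ := res_cases hm hn i
  unfold bed
  generalize i % (2 * (m + n)) = r at *
  split_ifs with h2 h3 h4
  · rw [mem_InE_true]; omega
  · rw [mem_InE_false]; omega
  · rw [mem_InE_true]; omega
  · rw [mem_InE_false]; omega

theorem bed_dadj {m n : ℤ} {F : Set Edg} {i : ℤ} (h : bed m n i ∈ F) :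
    DAdj F (ofc m n i) (ifc m n i) := by
  refine ⟨bed m n i, h, ?_⟩
  clear h
  unfold bed ofc ifc
  generalize i % (2 * (m + n)) = r
  split_ifs with h2 h3 h4
  · left; constructor <;> simp
  · right; constructor <;> simp
  · right; constructor <;> simp
  · left; constructor <;> simp

theorem bed_inj {m n : ℤ} (hm : 1 ≤ m) (hn : 1 ≤ n) {i j : ℤ} (h : bed m n i = bed m n j) :
    i % (2 * (m + n)) = j % (2 * (m + n)) := by
  obtain ⟨h0, h1⟩ := res_cases hm hn i
  obtain ⟨h0', h1'⟩ := res_cases hm hn j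
  unfold bed at h
  generalize i % (2 * (m + n)) = r at *
  generalize j % (2 * (m + n)) = s at *
  split_ifs at h <;> simp only [Prod.mk.injEq, Bool.false_eq_true, and_false, and_true,
    reduceCtorEq] at h <;> omega

theorem bed_ne {m n : ℤ} (hm : 1 ≤ m) (hn : 1 ≤ n) {i j : ℤ} (h1 : i < j)
    (h2 : j < i + 2 * (m + n)) : bed m n i ≠ bed m n j := by
  intro h
  have h3 := bed_inj hm hn h
  have h4 : (2 * (m + n)) ∣ j - i := Int.ModEq.dvd h3
  have h5 := Int.le_of_dvd (by omega) h4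
  omega

theorem P2_two {S : Finset Edg} {e f : Edg} (he : e ∈ S) (hf : f ∈ S) (hne : e ≠ f) :
    1 / 4 ≤ P2 S (fun F => e ∉ F ∧ f ∉ F) := by
  have h1 : S = insert e (insert f ((S.erase e).erase f)) := by
    rw [Finset.insert_erase (Finset.mem_erase.mpr ⟨hne.symm, hf⟩), Finset.insert_erase he]
  have hf' : f ∉ (S.erase e).erase f := Finset.notMem_erase _ _
  have he' : e ∉ insert f ((S.erase e).erase f) := by
    rw [Finset.mem_insert]
    rintro (h | h)
    · exact hne h
    · exact Finset.notMem_erase e S (Finset.mem_of_mem_erase h)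
  have ok : Ok (fun _ : Edg => (1/2 : ℝ)) := okhalf2
  unfold P2 Pr
  rw [h1, Ex_insert _ he', Ex_insert _ hf' (fun F => ind (e ∉ F ∧ f ∉ F))]
  have h2 : Ex (fun _ : Edg => (1/2 : ℝ)) ((S.erase e).erase f)
      (fun F => ind (e ∉ F ∧ f ∉ F)) = 1 := by
    rw [Ex_congr (g := fun _ => 1), Ex_const]
    intro F hF
    refine ind_of ⟨fun h => ?_, fun h => ?_⟩
    · exact Finset.notMem_erase e S (Finset.mem_of_mem_erase (hF h))
    · exact hf' (hF h)
  have h3 : 0 ≤ Ex (fun _ : Edg => (1/2 : ℝ)) (insert f ((S.erase e).erase f))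
      (fun F => ind (e ∉ insert e F ∧ f ∉ insert e F)) := Ex_nonneg ok (fun _ _ => ind_nonneg _)
  have h4 : 0 ≤ Ex (fun _ : Edg => (1/2 : ℝ)) ((S.erase e).erase f)
      (fun F => ind (e ∉ insert f F ∧ f ∉ insert f F)) := Ex_nonneg ok (fun _ _ => ind_nonneg _)
  rw [h2]
  linarith

end DTra

open DTra in
theorem compl_bounds {m n a b c d : ℤ} (hm : 1 ≤ m) (hn : 1 ≤ n) (hab : a ≤ b) (hbc : b < c)
    (hcd : c ≤ d) (hda : d < a + 2 * (m + n)) :
    1 / 4 * P2 (RE 0 (m - 1) 0 (n - 1)) (FA m n b c d (a + 2 * (m + n))) ≤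
        1 - P2 (RE 0 m 0 n) (AA m n a b c d) ∧
      1 - P2 (RE 0 m 0 n) (AA m n a b c d) ≤
        P2 (RE 0 (m - 1) 0 (n - 1)) (FA m n b c d (a + 2 * (m + n))) := by
  have ok : Ok (fun _ : Edg => (1/2 : ℝ)) := okhalf2
  have hP : P2 (InE m n) (fun F => FA m n b c d (a + 2 * (m + n)) (dmp (InE m n \ F))) =
      P2 (RE 0 (m - 1) 0 (n - 1)) (FA m n b c d (a + 2 * (m + n))) := by
    rw [P2_dual, dmp_InE]
  have hnot : 1 - P2 (RE 0 m 0 n) (AA m n a b c d) =
      P2 (RE 0 m 0 n) (fun F => ¬ AA m n a b c d F) := by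
    unfold P2
    rw [Pr_not]
  rw [← hP, hnot]
  constructor
  · have hR : RE 0 m 0 n = InE m n ∪ (RE 0 m 0 n \ InE m n) := by
      rw [Finset.union_sdiff_of_subset InE_subset]
    have hdis : Disjoint (InE m n) (RE 0 m 0 n \ InE m n) := Finset.disjoint_sdiff
    have e1 : P2 (RE 0 m 0 n) (fun F => ¬ AA m n a b c d F) =
        Ex (fun _ : Edg => (1/2 : ℝ)) (InE m n) (fun A =>
          Ex (fun _ : Edg => (1/2 : ℝ)) (RE 0 m 0 n \ InE m n) (fun B =>
            ind (¬ AA m n a b c d (A ∪ B)))) := by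
      unfold P2 Pr
      conv_lhs => rw [hR]
      rw [Ex_union hdis]
    rw [e1]
    unfold P2 Pr
    rw [← Ex_mul_left]
    refine Ex_mono ok fun A hA => ?_
    by_cases hFA : FA m n b c d (a + 2 * (m + n)) (dmp (InE m n \ A))
    · rw [ind_of hFA, mul_one]
      obtain ⟨i, j, hi, hj, hr⟩ := hFA
      have hne : bed m n i ≠ bed m n j := bed_ne hm hn (by omega) (by omega)
      have h2 := P2_two (S := RE 0 m 0 n \ InE m n) (e := bed m n i) (f := bed m n j)
        (Finset.mem_sdiff.mpr ⟨bed_mem hm hn i, bed_notMem hm hn i⟩)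
        (Finset.mem_sdiff.mpr ⟨bed_mem hm hn j, bed_notMem hm hn j⟩) hne
      refine h2.trans ?_
      unfold P2 Pr
      refine Ex_mono ok fun B hB => ind_mono ?_
      rintro ⟨hiB, hjB⟩
      have hdr : DReach (↑(InE m n \ A) : Set Edg) (ifc m n i) (ifc m n j) := by
        rw [← reach_dl, ← coe_dmp]
        exact hr.mono Set.inter_subset_left
      have hsub : (↑(InE m n \ A) : Set Edg) ⊆ (↑(A ∪ B) : Set Edg)ᶜ ∩ ↑(RE 0 m 0 n) := by
        intro e he
        rw [Finset.mem_coe, Finset.mem_sdiff] at he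
        refine ⟨fun h => ?_, Finset.mem_coe.mpr (InE_subset he.1)⟩
        rw [Finset.mem_coe, Finset.mem_union] at h
        rcases h with h | h
        · exact he.2 h
        · exact (Finset.mem_sdiff.mp (hB h)).2 he.1
      have hb : ∀ t, bed m n t ∉ B → bed m n t ∈ (↑(A ∪ B) : Set Edg)ᶜ ∩ ↑(RE 0 m 0 n) := by
        intro t ht
        refine ⟨fun h => ?_, Finset.mem_coe.mpr (bed_mem hm hn t)⟩
        rw [Finset.mem_coe, Finset.mem_union] at h
        rcases h with h | h
        · exact bed_notMem hm hn t (hA h)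
        · exact ht h
      refine H731A.not_of_dual hm hn hab hbc hcd hda hi hj ?_
      exact ((bed_dadj (hb i hiB)).reach.trans (hdr.mono hsub)).trans
        (bed_dadj (hb j hjB)).reach.symm
    · rw [ind_not_of hFA, mul_zero]
      exact Ex_nonneg ok (fun _ _ => ind_nonneg _)
  · have h3 : P2 (RE 0 m 0 n)
        (fun F => FA m n b c d (a + 2 * (m + n)) (dmp (InE m n \ (F ∩ InE m n)))) =
        P2 (InE m n) (fun F => FA m n b c d (a + 2 * (m + n)) (dmp (InE m n \ F))) :=
      P2_restrict InE_subset (fun F => FA m n b c d (a + 2 * (m + n)) (dmp (InE m n \ F)))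
    rw [← h3]
    unfold P2
    refine Pr_mono ok fun F hF h => ?_
    obtain ⟨i, j, hi, hj, hr⟩ := H731A.dual_of_not hm hn hab hbc hcd hda h
    refine ⟨i, j, hi, hj, ?_⟩
    have h4 := cl_dreach hm hn hr
    rw [cl_ofc hm hn, cl_ofc hm hn] at h4
    have h5 : DReach (↑(InE m n \ (F ∩ InE m n)) : Set Edg) (ifc m n i) (ifc m n j) := by
      refine h4.mono ?_
      rintro e ⟨he1, he2⟩
      rw [Finset.mem_coe, Finset.mem_sdiff]
      exact ⟨Finset.mem_coe.mp he2, fun h => he1 (Finset.mem_coe.mpr (Finset.mem_inter.mp h).1)⟩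
    have h6 : (↑(dmp (InE m n \ (F ∩ InE m n))) ∩ ↑(RE 0 (m - 1) 0 (n - 1)) : Set Edg) =
        dl '' ↑(InE m n \ (F ∩ InE m n)) := by
      rw [← dmp_InE, coe_dmp, coe_dmp]
      refine Set.inter_eq_left.mpr (Set.image_mono ?_)
      intro e he
      exact Finset.mem_coe.mpr (Finset.mem_sdiff.mp (Finset.mem_coe.mp he)).1
    rw [h6, reach_dl]
    exact h5

end H731A
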