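import Pool.Agent.H731R3.Rect.Final

/-!
Crossings between arbitrary disjoint arcs of the boundary of a rectangle: definitions and basic
facts.  Everything is for the parameter `1/2`.
-/

namespace H731A

open H974 H731C H731R Finset

/-- Counterclockwise parametrisation of the boundary of `[0, m] × [0, n]`, of period
`2 (m + n)`. -/
def bd (m n i : ℤ) : Vtx :=
  if i % (2 * (m + n)) ≤ m then (i % (2 * (m + n)), 0)
  else if i % (2 * (m + n)) ≤ m + n then (m, i % (2 * (m + n)) - m)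
  else if i % (2 * (m + n)) ≤ 2 * m + n then (2 * m + n - i % (2 * (m + n)), n)
  else (0, 2 * (m + n) - i % (2 * (m + n)))

/-- Distance of `x` to the multiples of `N`. -/
def cd (N x : ℤ) : ℤ := min (x % N) (N - x % N)

/-- Distance of the boundary point `i` to the nearest corner, along the boundary. -/
def rho (m n i : ℤ) : ℤ :=
  min (min (cd (2 * (m + n)) i) (cd (2 * (m + n)) (i - m)))
    (min (cd (2 * (m + n)) (i - (m + n))) (cd (2 * (m + n)) (i - (2 * m + n))))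

/-- Size of the pair of boundary points `i`, `j`. -/
def sz (m n i j : ℤ) : ℤ :=
  (cd (2 * (m + n)) (j - i) + 1) * (cd (2 * (m + n)) (j - i) + 1 + rho m n i + rho m n j)

/-- The arcs `[a, b]` and `[c, d]` are connected in `[0, m] × [0, n]`. -/
def AA (m n a b c d : ℤ) (F : Finset Edg) : Prop :=
  ∃ i j, (a ≤ i ∧ i ≤ b) ∧ (c ≤ j ∧ j ≤ d) ∧ Reach (↑F ∩ ↑(RE 0 m 0 n)) (bd m n i) (bd m n j)

/-- `t (t + r)` -/
noncomputable def G (r t : ℤ) : ℝ := (t : ℝ) * ((t : ℝ) + r)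

/-- `min 1 (G r p / G r D)` -/
noncomputable def AF (r p D : ℤ) : ℝ := min 1 (G r p / G r D)

/-- Edges of the rectangle `[0, m] × [0, n]` within distance `r` of `z`. -/
noncomputable def Bx (m n : ℤ) (z : Vtx) (r : ℤ) : Finset Edg :=
  RE (max 0 (z.1 - r)) (min m (z.1 + r)) (max 0 (z.2 - r)) (min n (z.2 + r))

/-- The arc `[a, b]` is connected to distance `r` from `z`. -/
def ArmL (m n a b : ℤ) (z : Vtx) (r : ℤ) (F : Finset Edg) : Prop :=
  ∃ i v, (a ≤ i ∧ i ≤ b) ∧ (v.1 = z.1 - r ∨ v.1 = z.1 + r ∨ v.2 = z.2 - r ∨ v.2 = z.2 + r) ∧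
    Reach (↑F ∩ ↑(Bx m n z r)) (bd m n i) v

/-- The corner `s` of `[0, m] × [0, n]` is rotated to the corner `0` of `[0, m'] × [0, n']`. -/
def IsRot (m n s m' n' : ℤ) : Prop :=
  ∃ k : ℤ, (s = k * (2 * (m + n)) ∧ m' = m ∧ n' = n) ∨
    (s = k * (2 * (m + n)) + m ∧ m' = n ∧ n' = m) ∨
    (s = k * (2 * (m + n)) + (m + n) ∧ m' = m ∧ n' = n) ∨
    (s = k * (2 * (m + n)) + (2 * m + n) ∧ m' = n ∧ n' = m)

/-! ### Remainders -/

theorem emod_eq {N i k r : ℤ} (h : i = r + k * N) (h0 : 0 ≤ r) (h1 : r < N) : i % N = r := by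
  rw [h, Int.add_mul_emod_self_right]
  exact Int.emod_eq_of_lt h0 h1

theorem emod_spec {N : ℤ} (hN : 0 < N) (i : ℤ) :
    ∃ k : ℤ, i = i % N + k * N ∧ 0 ≤ i % N ∧ i % N < N :=
  ⟨i / N, by rw [mul_comm]; exact (Int.emod_add_mul_ediv i N).symm, Int.emod_nonneg _ hN.ne',
    Int.emod_lt_of_pos _ hN⟩

/-! ### `cd` -/

theorem cd_nonneg {N : ℤ} (hN : 0 < N) (x : ℤ) : 0 ≤ cd N x := by
  obtain ⟨k, -, h1, h2⟩ := emod_spec hN x
  unfold cd
  omega

theorem cd_half {N : ℤ} (x : ℤ) : 2 * cd N x ≤ N := by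
  unfold cd
  omega

theorem cd_period (N x k : ℤ) : cd N (x + k * N) = cd N x := by
  unfold cd
  rw [Int.add_mul_emod_self_right]

theorem cd_of_mem {N x : ℤ} (h0 : 0 ≤ x) (h1 : x ≤ N) (hN : 0 < N) : cd N x = min x (N - x) := by
  unfold cd
  rcases h1.eq_or_lt with h | h
  · rw [h, Int.emod_self]
    omega
  · rw [Int.emod_eq_of_lt h0 h]

theorem cd_neg {N : ℤ} (hN : 0 < N) (x : ℤ) : cd N (-x) = cd N x := by
  obtain ⟨k, h0, h1, h2⟩ := emod_spec hN x
  have e : -x = (N - x % N) + (-(k + 1)) * N := by linear_combination -h0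
  rw [e, cd_period, cd_of_mem (by omega) (by omega) hN]
  unfold cd
  omega

theorem cd_exists {N : ℤ} (hN : 0 < N) (x : ℤ) : ∃ k : ℤ, cd N x = |x - k * N| := by
  obtain ⟨k, h0, h1, h2⟩ := emod_spec hN x
  rcases le_total (x % N) (N - x % N) with h | h
  · refine ⟨k, ?_⟩
    have : x - k * N = x % N := by linear_combination h0
    rw [this, abs_of_nonneg h1]
    unfold cd
    omega
  · refine ⟨k + 1, ?_⟩
    have : x - (k + 1) * N = x % N - N := by linear_combination h0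
    rw [this, abs_of_nonpos (by omega)]
    unfold cd
    omega

theorem cd_le {N : ℤ} (hN : 0 < N) (x k : ℤ) : cd N x ≤ |x - k * N| := by
  have e : x = (x - k * N) + k * N := by ring
  rw [e, cd_period]
  have e2 : x - k * N + k * N - k * N = x - k * N := by ring
  rw [e2]
  set y := x - k * N with hy
  rcases le_total 0 y with h | h
  · rw [abs_of_nonneg h]
    rcases le_or_gt y N with h3 | h3
    · rw [cd_of_mem h h3 hN]; omega
    · have := cd_half (N := N) y; omega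
  · rw [abs_of_nonpos h, ← cd_neg hN]
    rcases le_or_gt (-y) N with h3 | h3
    · rw [cd_of_mem (by omega) h3 hN]; omega
    · have := cd_half (N := N) (-y); omega

theorem cd_add {N : ℤ} (hN : 0 < N) (x y : ℤ) : cd N (x + y) ≤ cd N x + cd N y := by
  obtain ⟨k, hk⟩ := cd_exists hN x
  obtain ⟨l, hl⟩ := cd_exists hN y
  refine (cd_le hN (x + y) (k + l)).trans ?_
  have e : x + y - (k + l) * N = (x - k * N) + (y - l * N) := by ring
  rw [e, hk, hl]
  exact abs_add_le _ _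

theorem cd_le_abs {N : ℤ} (hN : 0 < N) (x : ℤ) : cd N x ≤ |x| := by
  have := cd_le hN x 0
  simpa using this

/-! ### `bd` -/

theorem bd_period (m n i k : ℤ) : bd m n (i + k * (2 * (m + n))) = bd m n i := by
  unfold bd
  rw [Int.add_mul_emod_self_right]

theorem bd_bot {m n i : ℤ} (hm : 1 ≤ m) (hn : 1 ≤ n) (h0 : 0 ≤ i) (h1 : i ≤ m) :
    bd m n i = (i, 0) := by
  unfold bd
  rw [Int.emod_eq_of_lt h0 (by omega), if_pos h1]

theorem bd_right {m n i : ℤ} (hm : 1 ≤ m) (hn : 1 ≤ n) (h0 : m ≤ i) (h1 : i ≤ m + n) :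
    bd m n i = (m, i - m) := by
  unfold bd
  rw [Int.emod_eq_of_lt (by omega) (by omega)]
  rcases h0.eq_or_lt with h | h
  · rw [if_pos h.ge, ← h, sub_self]
  · rw [if_neg (by omega), if_pos h1]

theorem bd_top {m n i : ℤ} (hm : 1 ≤ m) (hn : 1 ≤ n) (h0 : m + n ≤ i) (h1 : i ≤ 2 * m + n) :
    bd m n i = (2 * m + n - i, n) := by
  rcases h0.eq_or_lt with h | h
  · rw [← h, bd_right hm hn (by omega) le_rfl]
    ext
    · show m = 2 * m + n - (m + n); ring
    · show m + n - m = n; ring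
  · unfold bd
    rw [Int.emod_eq_of_lt (by omega) (by omega), if_neg (by omega), if_neg (by omega), if_pos h1]

theorem bd_left {m n i : ℤ} (hm : 1 ≤ m) (hn : 1 ≤ n) (h0 : 2 * m + n ≤ i)
    (h1 : i ≤ 2 * (m + n)) : bd m n i = (0, 2 * (m + n) - i) := by
  rcases h0.eq_or_lt with h | h
  · rw [← h, bd_top hm hn (by omega) le_rfl]
    ext
    · show 2 * m + n - (2 * m + n) = 0; ring
    · show n = 2 * (m + n) - (2 * m + n); ring
  · rcases h1.eq_or_lt with h2 | h2
    · rw [h2]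
      have := bd_period m n 0 1
      rw [zero_add, one_mul] at this
      rw [this, bd_bot hm hn le_rfl (by omega), sub_self]
    · unfold bd
      rw [Int.emod_eq_of_lt (by omega) (by omega), if_neg (by omega), if_neg (by omega),
        if_neg (by omega)]

theorem bd_neg {m n i : ℤ} (hm : 1 ≤ m) (hn : 1 ≤ n) (h0 : -n ≤ i) (h1 : i ≤ 0) :
    bd m n i = (0, -i) := by
  rw [← bd_period m n i 1, bd_left hm hn (by omega) (by omega)]
  ext
  · rfl
  · show 2 * (m + n) - (i + 1 * (2 * (m + n))) = -i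
    ring

/-- every index is congruent to an index of one of the four sides -/
theorem side_cases {m n : ℤ} (hm : 1 ≤ m) (hn : 1 ≤ n) (i : ℤ) :
    ∃ k r : ℤ, i = r + k * (2 * (m + n)) ∧ ((0 ≤ r ∧ r ≤ m) ∨ (m ≤ r ∧ r ≤ m + n) ∨
      (m + n ≤ r ∧ r ≤ 2 * m + n) ∨ (2 * m + n ≤ r ∧ r < 2 * (m + n))) := by
  obtain ⟨k, h0, h1, h2⟩ := emod_spec (N := 2 * (m + n)) (by omega) i
  refine ⟨k, i % (2 * (m + n)), h0, ?_⟩
  omega

theorem bd_inR {m n : ℤ} (hm : 1 ≤ m) (hn : 1 ≤ n) (i : ℤ) : inR 0 m 0 n (bd m n i) := by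
  obtain ⟨k, r, h, h1 | h1 | h1 | h1⟩ := side_cases hm hn i
  · rw [h, bd_period, bd_bot hm hn h1.1 h1.2]; unfold inR; simp only; omega
  · rw [h, bd_period, bd_right hm hn h1.1 h1.2]; unfold inR; simp only; omega
  · rw [h, bd_period, bd_top hm hn h1.1 h1.2]; unfold inR; simp only; omega
  · rw [h, bd_period, bd_left hm hn h1.1 h1.2.le]; unfold inR; simp only; omega

/-! ### `rho` -/

theorem rho_nonneg {m n : ℤ} (hm : 1 ≤ m) (hn : 1 ≤ n) (i : ℤ) : 0 ≤ rho m n i := by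
  have hN : 0 < 2 * (m + n) := by omega
  have h1 := cd_nonneg hN i
  have h2 := cd_nonneg hN (i - m)
  have h3 := cd_nonneg hN (i - (m + n))
  have h4 := cd_nonneg hN (i - (2 * m + n))
  unfold rho
  omega

theorem rho_period (m n i k : ℤ) : rho m n (i + k * (2 * (m + n))) = rho m n i := by
  unfold rho
  have e : ∀ t : ℤ, i + k * (2 * (m + n)) - t = (i - t) + k * (2 * (m + n)) := fun t => by ring
  rw [e, e, e, cd_period, cd_period, cd_period, cd_period]

theorem rho_lip {m n : ℤ} (hm : 1 ≤ m) (hn : 1 ≤ n) (i j : ℤ) :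
    rho m n i ≤ rho m n j + cd (2 * (m + n)) (i - j) := by
  have hN : 0 < 2 * (m + n) := by omega
  have h : ∀ t : ℤ, cd (2 * (m + n)) (i - t) ≤
      cd (2 * (m + n)) (j - t) + cd (2 * (m + n)) (i - j) := by
    intro t
    have := cd_add hN (j - t) (i - j)
    have e : j - t + (i - j) = i - t := by ring
    rwa [e] at this
  have h1 := h 0
  rw [sub_zero, sub_zero] at h1
  have h2 := h m
  have h3 := h (m + n)
  have h4 := h (2 * m + n)
  unfold rho
  omega

theorem rho_bot {m n i : ℤ} (hm : 1 ≤ m) (hn : 1 ≤ n) (h0 : 0 ≤ i) (h1 : i ≤ m) :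
    rho m n i = min i (m - i) := by
  have hN : 0 < 2 * (m + n) := by omega
  have e1 := cd_of_mem h0 (by omega) hN
  have e2 : cd (2 * (m + n)) (i - m) = min (m - i) (2 * (m + n) - (m - i)) := by
    rw [← cd_neg hN, neg_sub]; exact cd_of_mem (by omega) (by omega) hN
  have e3 : cd (2 * (m + n)) (i - (m + n)) = min (m + n - i) (2 * (m + n) - (m + n - i)) := by
    rw [← cd_neg hN, neg_sub]; exact cd_of_mem (by omega) (by omega) hN
  have e4 : cd (2 * (m + n)) (i - (2 * m + n)) =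
      min (2 * m + n - i) (2 * (m + n) - (2 * m + n - i)) := by
    rw [← cd_neg hN, neg_sub]; exact cd_of_mem (by omega) (by omega) hN
  unfold rho
  rw [e1, e2, e3, e4]
  omega

theorem sz_pos {m n : ℤ} (hm : 1 ≤ m) (hn : 1 ≤ n) (i j : ℤ) : 1 ≤ sz m n i j := by
  have h1 := cd_nonneg (N := 2 * (m + n)) (by omega) (j - i)
  have h2 := rho_nonneg hm hn i
  have h3 := rho_nonneg hm hn j
  unfold sz
  nlinarith

end H731A
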