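import Pool.Agent.H731R4.Arcs.Sym

/-!
More definitions.
-/

namespace H731A

open H974 H731C H731R Finset

/-- `[a, b]` is contained in one side of the rectangle. -/
def OneSide (m n a b : ℤ) : Prop := ∃ s m' n', IsRot m n s m' n' ∧ s ≤ a ∧ b ≤ s + m'

/-- Outer face next to the boundary edge from `bd i` to `bd (i + 1)`. -/
def ofc (m n i : ℤ) : Vtx :=
  if i % (2 * (m + n)) < m then (i % (2 * (m + n)), -1)
  else if i % (2 * (m + n)) < m + n then (m, i % (2 * (m + n)) - m)
  else if i % (2 * (m + n)) < 2 * m + n then (2 * m + n - i % (2 * (m + n)) - 1, n)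
  else (-1, 2 * (m + n) - i % (2 * (m + n)) - 1)

/-- Inner face next to the boundary edge from `bd i` to `bd (i + 1)`. -/
def ifc (m n i : ℤ) : Vtx :=
  if i % (2 * (m + n)) < m then (i % (2 * (m + n)), 0)
  else if i % (2 * (m + n)) < m + n then (m - 1, i % (2 * (m + n)) - m)
  else if i % (2 * (m + n)) < 2 * m + n then (2 * m + n - i % (2 * (m + n)) - 1, n - 1)
  else (0, 2 * (m + n) - i % (2 * (m + n)) - 1)

/-- The boundary edge from `bd i` to `bd (i + 1)`. -/
def bed (m n i : ℤ) : Edg :=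
  if i % (2 * (m + n)) < m then (i % (2 * (m + n)), 0, true)
  else if i % (2 * (m + n)) < m + n then (m, i % (2 * (m + n)) - m, false)
  else if i % (2 * (m + n)) < 2 * m + n then (2 * m + n - i % (2 * (m + n)) - 1, n, true)
  else (0, 2 * (m + n) - i % (2 * (m + n)) - 1, false)

/-- The inner faces of the boundary edges `[b, c)` and `[d, e)` are connected in the rectangle
`[0, m - 1] × [0, n - 1]` of faces. -/
def FA (m n b c d e : ℤ) (F : Finset Edg) : Prop :=
  ∃ i j, (b ≤ i ∧ i < c) ∧ (d ≤ j ∧ j < e) ∧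
    Reach (↑F ∩ ↑(RE 0 (m - 1) 0 (n - 1))) (ifc m n i) (ifc m n j)

/-- Index of `ifc m n i` in the boundary of `[0, m - 1] × [0, n - 1]`. -/
def st (m n i : ℤ) : ℤ :=
  (2 * (m + n) - 4) * (i / (2 * (m + n))) + i % (2 * (m + n)) -
    (if m ≤ i % (2 * (m + n)) then 1 else 0) - (if m + n ≤ i % (2 * (m + n)) then 1 else 0) -
    (if 2 * m + n ≤ i % (2 * (m + n)) then 1 else 0)

end H731A
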