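import Pool.Agent.H731R4.Arcs.LowC

/-!
Lower bound when a corner is near the gap between the two arcs: reduction to two one-sided arcs
near the corner `0`.
-/

namespace H731A

open H974 H731C H731R Finset

namespace RedC

/-- An interval contains a one-sided interval of at least half its length. -/
theorem half (x y : ℤ) (h : x ≤ y) : ∃ x2 y2 : ℤ, x ≤ x2 ∧ x2 ≤ y2 ∧ y2 ≤ y ∧
    (y2 ≤ 0 ∨ 0 ≤ x2) ∧ y - x + 1 ≤ 2 * (y2 - x2 + 1) := by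
  by_cases h1 : y ≤ 0 ∨ 0 ≤ x
  · exact ⟨x, y, le_rfl, h, le_rfl, h1, by omega⟩
  · by_cases h2 : y ≤ -x
    · exact ⟨x, 0, by omega, by omega, by omega, by omega, by omega⟩
    · exact ⟨0, y, by omega, by omega, by omega, by omega, by omega⟩

theorem G_nonneg {ρ t : ℤ} (h1 : 0 ≤ ρ) (h2 : 0 ≤ t) : 0 ≤ G ρ t := by
  have h1' : (0 : ℝ) ≤ ρ := by exact_mod_cast h1
  have h2' : (0 : ℝ) ≤ t := by exact_mod_cast h2
  unfold G
  positivity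

theorem AF_nonneg {ρ p D : ℤ} (h1 : 0 ≤ ρ) (h2 : 0 ≤ p) (h3 : 0 ≤ D) : 0 ≤ AF ρ p D := by
  unfold AF
  exact le_min zero_le_one (div_nonneg (G_nonneg h1 h2) (G_nonneg h1 h3))

/-- The comparison of the factor of an arc. -/
theorem AF_le {ρ p D p2 M : ℤ} (hρ : 0 ≤ ρ) (hp : 1 ≤ p) (hD : 1 ≤ D) (hp2 : 1 ≤ p2)
    (hM : p2 ≤ M) (h1 : D ≤ p → D ≤ 2 * p2) (h2 : p < D → p ≤ 2 * p2 ∧ p + ρ ≤ 5 * M) :
    AF ρ p D ≤ 25000 * ((p2 : ℝ) * (M : ℝ) / ((50 * D : ℤ) : ℝ) ^ 2) := by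
  have hD' : (1 : ℝ) ≤ D := by exact_mod_cast hD
  have hp' : (1 : ℝ) ≤ p := by exact_mod_cast hp
  have hρ' : (0 : ℝ) ≤ ρ := by exact_mod_cast hρ
  have hp2' : (1 : ℝ) ≤ p2 := by exact_mod_cast hp2
  have hM' : (p2 : ℝ) ≤ M := by exact_mod_cast hM
  have hD0 : (0 : ℝ) < D := by linarith
  have e : 25000 * ((p2 : ℝ) * (M : ℝ) / ((50 * D : ℤ) : ℝ) ^ 2) =
      10 * ((p2 : ℝ) * M) / ((D : ℝ) * D) := by
    push_cast
    field_simp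
    ring
  rw [e]
  rcases le_or_gt D p with h | h
  · have h3 : (D : ℝ) ≤ 2 * p2 := by exact_mod_cast h1 h
    unfold AF
    refine (min_le_left _ _).trans ?_
    rw [one_le_div (by positivity)]
    have h4 : (D : ℝ) * D ≤ (2 * p2) * (2 * p2) :=
      mul_le_mul h3 h3 hD0.le (by linarith)
    have h5 : (p2 : ℝ) * p2 ≤ p2 * M := mul_le_mul_of_nonneg_left hM' (by linarith)
    have h6 : (0 : ℝ) ≤ (p2 : ℝ) * p2 := by positivity
    nlinarith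
  · obtain ⟨k1, k2⟩ := h2 h
    have k1' : (p : ℝ) ≤ 2 * p2 := by exact_mod_cast k1
    have k2' : (p : ℝ) + ρ ≤ 5 * M := by exact_mod_cast k2
    unfold AF
    refine (min_le_right _ _).trans ?_
    unfold G
    apply div_le_div₀
    · have : (0 : ℝ) ≤ (p2 : ℝ) * M := mul_nonneg (by linarith) (by linarith)
      linarith
    · have h4 : (p : ℝ) * (p + ρ) ≤ (2 * p2) * (5 * M) :=
        mul_le_mul k1' k2' (by linarith) (by linarith)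
      linarith
    · positivity
    · exact mul_le_mul_of_nonneg_left (by linarith) hD0.le

theorem rho_le_abs {m n : ℤ} (hm : 1 ≤ m) (hn : 1 ≤ n) (i : ℤ) : rho m n i ≤ |i| := by
  have h1 : rho m n i ≤ cd (2 * (m + n)) i := by
    unfold rho
    exact (min_le_left _ _).trans (min_le_left _ _)
  exact h1.trans (cd_le_abs (by omega) i)

theorem AA_mono {m n a b c d a' b' c' d' : ℤ} (h1 : a ≤ a') (h2 : b' ≤ b) (h3 : c ≤ c')
    (h4 : d' ≤ d) {F : Finset Edg} (h : AA m n a' b' c' d' F) : AA m n a b c d F := by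
  obtain ⟨i, j, ⟨i1, i2⟩, ⟨j1, j2⟩, hR⟩ := h
  exact ⟨i, j, ⟨by omega, by omega⟩, ⟨by omega, by omega⟩, hR⟩

/-- The statement when the corner `0` is near the gap. -/
theorem core {c0 : ℝ} (hc0 : 0 < c0)
    (H : ∀ m n r a b c d : ℤ, 1 ≤ r → 3 * r ≤ m → 3 * r ≤ n →
    -r ≤ a → a ≤ b → b ≤ c → c ≤ d → d ≤ r → (b ≤ 0 ∨ 0 ≤ a) → (d ≤ 0 ∨ 0 ≤ c) →
    c0 * ((((b - a + 1 : ℤ) : ℝ) * ((max (-a) b + 1 : ℤ) : ℝ) / (r : ℝ) ^ 2) *
        (((d - c + 1 : ℤ) : ℝ) * ((max (-c) d + 1 : ℤ) : ℝ) / (r : ℝ) ^ 2)) ^ ((1 : ℝ) / 3) ≤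
      P2 (RE 0 m 0 n) (AA m n a b c d))
    {m n a b c d D : ℤ} (hD : 1 ≤ D) (hab : a ≤ b) (hbc : c - b = D) (hcd : c ≤ d)
    (hb : |b| ≤ 40 * D) (hm : 400 * D ≤ m) (hn : 400 * D ≤ n) :
    c0 / ((25000 : ℝ) ^ 2) ^ ((1 : ℝ) / 3) *
      (AF (rho m n a) (b - a + 1) D * AF (rho m n d) (d - c + 1) D) ^ ((1 : ℝ) / 3) ≤
      P2 (RE 0 m 0 n) (AA m n a b c d) := by
  have hm1 : 1 ≤ m := by omega
  have hn1 : 1 ≤ n := by omega
  obtain ⟨hb1, hb2⟩ := abs_le.1 hb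
  obtain ⟨a2, b2, ha1, ha2, ha3, ha4, ha5⟩ := half (b - min (b - a + 1) D + 1) b (by omega)
  obtain ⟨c2, d2, hc1, hc2, hc3, hc4, hc5⟩ := half c (c + min (d - c + 1) D - 1) (by omega)
  have hra := rho_le_abs hm1 hn1 a
  have hrd := rho_le_abs hm1 hn1 d
  have ka : AF (rho m n a) (b - a + 1) D ≤ 25000 * (((b2 - a2 + 1 : ℤ) : ℝ) *
      ((max (-a2) b2 + 1 : ℤ) : ℝ) / ((50 * D : ℤ) : ℝ) ^ 2) := by
    apply AF_le (rho_nonneg hm1 hn1 a) (by omega) hD (by omega) (by omega)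
    · intro h
      omega
    · intro h
      rcases abs_cases a with ⟨h3, -⟩ | ⟨h3, -⟩
      · rw [h3] at hra
        omega
      · rw [h3] at hra
        omega
  have kd : AF (rho m n d) (d - c + 1) D ≤ 25000 * (((d2 - c2 + 1 : ℤ) : ℝ) *
      ((max (-c2) d2 + 1 : ℤ) : ℝ) / ((50 * D : ℤ) : ℝ) ^ 2) := by
    apply AF_le (rho_nonneg hm1 hn1 d) (by omega) hD (by omega) (by omega)
    · intro h
      omega
    · intro h
      rcases abs_cases d with ⟨h3, -⟩ | ⟨h3, -⟩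
      · rw [h3] at hrd
        omega
      · rw [h3] at hrd
        omega
  have key := H m n (50 * D) a2 b2 c2 d2 (by omega) (by omega) (by omega) (by omega) ha2
    (by omega) hc2 (by omega) ha4 hc4
  have hmono : P2 (RE 0 m 0 n) (AA m n a2 b2 c2 d2) ≤ P2 (RE 0 m 0 n) (AA m n a b c d) := by
    apply Pr_mono okhalf2
    intro F _ hF
    exact AA_mono (by omega) ha3 hc1 (by omega) hF
  refine le_trans ?_ (key.trans hmono)
  set X : ℝ := ((b2 - a2 + 1 : ℤ) : ℝ) * ((max (-a2) b2 + 1 : ℤ) : ℝ) / ((50 * D : ℤ) : ℝ) ^ 2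
    with hX
  set Y : ℝ := ((d2 - c2 + 1 : ℤ) : ℝ) * ((max (-c2) d2 + 1 : ℤ) : ℝ) / ((50 * D : ℤ) : ℝ) ^ 2
    with hY
  have nd := AF_nonneg (rho_nonneg hm1 hn1 d) (show 0 ≤ d - c + 1 by omega)
    (show 0 ≤ D by omega)
  have na := AF_nonneg (rho_nonneg hm1 hn1 a) (show 0 ≤ b - a + 1 by omega)
    (show 0 ≤ D by omega)
  have hX0 : 0 ≤ X := by
    have := na.trans ka
    linarith
  have hY0 : 0 ≤ Y := by
    have := nd.trans kd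
    linarith
  have h1 : AF (rho m n a) (b - a + 1) D * AF (rho m n d) (d - c + 1) D ≤
      (25000 : ℝ) ^ 2 * (X * Y) := by
    have := mul_le_mul ka kd nd (by positivity)
    linarith
  have h2 : (AF (rho m n a) (b - a + 1) D * AF (rho m n d) (d - c + 1) D) ^ ((1 : ℝ) / 3) ≤
      ((25000 : ℝ) ^ 2) ^ ((1 : ℝ) / 3) * (X * Y) ^ ((1 : ℝ) / 3) := by
    rw [← Real.mul_rpow (by positivity) (mul_nonneg hX0 hY0)]
    exact Real.rpow_le_rpow (mul_nonneg na nd) h1 (by norm_num)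
  have hκ : (0 : ℝ) < ((25000 : ℝ) ^ 2) ^ ((1 : ℝ) / 3) := by positivity
  calc c0 / ((25000 : ℝ) ^ 2) ^ ((1 : ℝ) / 3) *
      (AF (rho m n a) (b - a + 1) D * AF (rho m n d) (d - c + 1) D) ^ ((1 : ℝ) / 3)
      ≤ c0 / ((25000 : ℝ) ^ 2) ^ ((1 : ℝ) / 3) *
        (((25000 : ℝ) ^ 2) ^ ((1 : ℝ) / 3) * (X * Y) ^ ((1 : ℝ) / 3)) :=
        mul_le_mul_of_nonneg_left h2 (by positivity)
    _ = c0 * (X * Y) ^ ((1 : ℝ) / 3) := by
        rw [← mul_assoc, div_mul_cancel₀ _ hκ.ne']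

/-- The reduction, from the statement for two one-sided arcs near the corner `0`. -/
theorem low_corn_of (hLC : ∃ c0 : ℝ, 0 < c0 ∧ ∀ m n r a b c d : ℤ, 1 ≤ r → 3 * r ≤ m →
    3 * r ≤ n →
    -r ≤ a → a ≤ b → b ≤ c → c ≤ d → d ≤ r → (b ≤ 0 ∨ 0 ≤ a) → (d ≤ 0 ∨ 0 ≤ c) →
    c0 * ((((b - a + 1 : ℤ) : ℝ) * ((max (-a) b + 1 : ℤ) : ℝ) / (r : ℝ) ^ 2) *
        (((d - c + 1 : ℤ) : ℝ) * ((max (-c) d + 1 : ℤ) : ℝ) / (r : ℝ) ^ 2)) ^ ((1 : ℝ) / 3) ≤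
      P2 (RE 0 m 0 n) (AA m n a b c d)) :
    ∃ c0 : ℝ, 0 < c0 ∧ ∀ m n a b c d D : ℤ, 1 ≤ D → a ≤ b → c - b = D → c ≤ d →
    D ≤ a + 2 * (m + n) - d → rho m n b ≤ 40 * D → 400 * D ≤ m → 400 * D ≤ n →
    c0 * (AF (rho m n a) (b - a + 1) D * AF (rho m n d) (d - c + 1) D) ^ ((1 : ℝ) / 3) ≤
      P2 (RE 0 m 0 n) (AA m n a b c d) := by
  obtain ⟨c0, hc0, H⟩ := hLC
  refine ⟨c0 / ((25000 : ℝ) ^ 2) ^ ((1 : ℝ) / 3), by positivity, ?_⟩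
  intro m n a b c d D hD hab hbc hcd hda hrho hm hn
  obtain ⟨s, m', n', hr, hs⟩ := exists_corner (show 1 ≤ m by omega) (show 1 ≤ n by omega) b
  have hsum := hr.sum
  have hb : |b - s| ≤ 40 * D := by
    rw [hs]
    exact hrho
  have hm' : 400 * D ≤ m' := by omega
  have hn' : 400 * D ≤ n' := by omega
  rw [AA_isRot (by omega) (by omega) hr, rho_isRot hr a, rho_isRot hr d]
  have e1 : b - a + 1 = (b - s) - (a - s) + 1 := by ring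
  have e2 : d - c + 1 = (d - s) - (c - s) + 1 := by ring
  rw [e1, e2]
  exact core hc0 H hD (by omega) (by omega) (by omega) hb hm' hn'

end RedC

theorem low_corn : ∃ c0 : ℝ, 0 < c0 ∧ ∀ m n a b c d D : ℤ, 1 ≤ D → a ≤ b → c - b = D → c ≤ d →
    D ≤ a + 2 * (m + n) - d → rho m n b ≤ 40 * D → 400 * D ≤ m → 400 * D ≤ n →
    c0 * (AF (rho m n a) (b - a + 1) D * AF (rho m n d) (d - c + 1) D) ^ ((1 : ℝ) / 3) ≤
      P2 (RE 0 m 0 n) (AA m n a b c d) :=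
  RedC.low_corn_of low_corner

end H731A
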