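import Pool.Agent.H731R4.Arcs.Defs2
import Pool.Agent.H731R3.Cardy.Cross

/-!
Task RH: lower bound, no corner near the gap.
-/

namespace H731A

open H974 H731C H731R Finset

namespace RedH

theorem AF_le {r p D : ℤ} (hr : 0 ≤ r) (hp : 1 ≤ p) (hD : 1 ≤ D) :
    AF r p D ≤ ((min p D : ℤ) : ℝ) / D := by
  have hDR : (0:ℝ) < D := by exact_mod_cast (by omega : 0 < D)
  have hrR : (0:ℝ) ≤ r := by exact_mod_cast hr
  have hpR : (0:ℝ) < p := by exact_mod_cast (by omega : 0 < p)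
  unfold AF G
  rcases le_total D p with h | h
  · rw [min_eq_right h, div_self hDR.ne']
    exact min_le_left _ _
  · rw [min_eq_left h]
    refine (min_le_right _ _).trans ?_
    have hpD : (p:ℝ) ≤ D := by exact_mod_cast h
    rw [div_le_div_iff₀ (by positivity) hDR]
    nlinarith [mul_nonneg (mul_nonneg hpR.le hDR.le) (sub_nonneg.2 hpD)]

theorem AF_nonneg {r p D : ℤ} (hr : 0 ≤ r) (hp : 1 ≤ p) (hD : 1 ≤ D) : 0 ≤ AF r p D := by
  have hDR : (0:ℝ) < D := by exact_mod_cast (by omega : 0 < D)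
  have hrR : (0:ℝ) ≤ r := by exact_mod_cast hr
  have hpR : (0:ℝ) < p := by exact_mod_cast (by omega : 0 < p)
  unfold AF G
  exact le_min zero_le_one (by positivity)

/-- canonical position -/
theorem canon {c0 : ℝ} (hc0 : 0 < c0)
    (hX : ∀ a b c' d t A B D : ℤ, a ≤ b → b < c' → c' ≤ d →
      A ≤ a - 10 * (d - a + 1) → a + 10 * (d - a + 1) ≤ B → t + 10 * (d - a + 1) ≤ D →
      ∀ S : Finset Edg, VE A B t D ⊆ S →
      c0 * ((((b - a + 1 : ℤ) : ℝ) * ((d - c' + 1 : ℤ) : ℝ)) / ((d - a + 1 : ℤ) : ℝ) ^ 2)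
        ^ ((1 : ℝ) / 3) ≤ P2 S (XC a b c' d A B t D))
    {m n a b c d D : ℤ} (hD : 1 ≤ D) (hab : a ≤ b) (hcb : c - b = D) (hcd : c ≤ d)
    (hm : 400 * D ≤ m) (hn : 400 * D ≤ n) (hb0 : 0 ≤ b) (hb1 : b ≤ m)
    (hrho : 40 * D < rho m n b) :
    c0 * (1 / 9 : ℝ) ^ ((1 : ℝ) / 3) *
      (AF (rho m n a) (b - a + 1) D * AF (rho m n d) (d - c + 1) D) ^ ((1 : ℝ) / 3) ≤
      P2 (RE 0 m 0 n) (AA m n a b c d) := by
  have hm1 : 1 ≤ m := by omega
  have hn1 : 1 ≤ n := by omega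
  rw [rho_bot hm1 hn1 hb0 hb1] at hrho
  obtain ⟨p1, hp1⟩ : ∃ p1, p1 = min (b - a + 1) D := ⟨_, rfl⟩
  obtain ⟨q1, hq1⟩ : ∃ q1, q1 = min (d - c + 1) D := ⟨_, rfl⟩
  have h := hX (b - p1 + 1) b c (c + q1 - 1) 0 0 m n (by omega) (by omega) (by omega)
    (by omega) (by omega) (by omega) (RE 0 m 0 n) (filter_subset _ _)
  have hmono : P2 (RE 0 m 0 n) (XC (b - p1 + 1) b c (c + q1 - 1) 0 m 0 n) ≤
      P2 (RE 0 m 0 n) (AA m n a b c d) := by
    apply Pr_mono okhalf2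
    rintro F _ ⟨x, y, hx, hy, hr⟩
    refine ⟨x, y, ⟨by omega, hx.2⟩, ⟨hy.1, by omega⟩, ?_⟩
    rw [bd_bot hm1 hn1 (by omega) (by omega), bd_bot hm1 hn1 (by omega) (by omega)]
    refine hr.mono (Set.inter_subset_inter_right _ ?_)
    exact_mod_cast (filter_subset _ _ : VE 0 m 0 n ⊆ RE 0 m 0 n)
  refine le_trans ?_ (h.trans hmono)
  have hDR : (0:ℝ) < D := by exact_mod_cast (by omega : 0 < D)
  have e1 : b - (b - p1 + 1) + 1 = p1 := by ring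
  have e2 : c + q1 - 1 - c + 1 = q1 := by ring
  rw [e1, e2, mul_assoc, ← Real.mul_rpow (by norm_num) (mul_nonneg
    (AF_nonneg (rho_nonneg hm1 hn1 _) (by omega) hD)
    (AF_nonneg (rho_nonneg hm1 hn1 _) (by omega) hD))]
  refine mul_le_mul_of_nonneg_left ?_ hc0.le
  refine Real.rpow_le_rpow (mul_nonneg (by norm_num) (mul_nonneg
    (AF_nonneg (rho_nonneg hm1 hn1 _) (by omega) hD)
    (AF_nonneg (rho_nonneg hm1 hn1 _) (by omega) hD))) ?_ (by norm_num)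
  have f1 := AF_le (r := rho m n a) (p := b - a + 1) (D := D) (rho_nonneg hm1 hn1 _) (by omega) hD
  have f2 := AF_le (r := rho m n d) (p := d - c + 1) (D := D) (rho_nonneg hm1 hn1 _) (by omega) hD
  rw [← hp1] at f1
  rw [← hq1] at f2
  have g1 := AF_nonneg (r := rho m n d) (p := d - c + 1) (D := D) (rho_nonneg hm1 hn1 _)
    (by omega) hD
  have hp0 : (0:ℝ) < p1 := by exact_mod_cast (by omega : 0 < p1)
  have hq0 : (0:ℝ) < q1 := by exact_mod_cast (by omega : 0 < q1)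
  have hL : ((c + q1 - 1 - (b - p1 + 1) + 1 : ℤ) : ℝ) ≤ 3 * D := by
    exact_mod_cast (by omega : c + q1 - 1 - (b - p1 + 1) + 1 ≤ 3 * D)
  have hL0 : (0:ℝ) < ((c + q1 - 1 - (b - p1 + 1) + 1 : ℤ) : ℝ) := by
    exact_mod_cast (by omega : 0 < c + q1 - 1 - (b - p1 + 1) + 1)
  calc (1 / 9 : ℝ) * (AF (rho m n a) (b - a + 1) D * AF (rho m n d) (d - c + 1) D)
      ≤ 1 / 9 * ((p1 : ℝ) / D * ((q1 : ℝ) / D)) := by gcongr
    _ = ((p1 : ℝ) * q1) / (3 * D) ^ 2 := by field_simp; norm_num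
    _ ≤ ((p1 : ℝ) * q1) / ((c + q1 - 1 - (b - p1 + 1) + 1 : ℤ) : ℝ) ^ 2 := by gcongr

end RedH

theorem low_half : ∃ c0 : ℝ, 0 < c0 ∧ ∀ m n a b c d D : ℤ, 1 ≤ D → a ≤ b → c - b = D → c ≤ d →
    D ≤ a + 2 * (m + n) - d → 40 * D < rho m n b → 400 * D ≤ m → 400 * D ≤ n →
    c0 * (AF (rho m n a) (b - a + 1) D * AF (rho m n d) (d - c + 1) D) ^ ((1 : ℝ) / 3) ≤
      P2 (RE 0 m 0 n) (AA m n a b c d) := by
  obtain ⟨c0, hc0, hX⟩ := XC_lower
  refine ⟨c0 * (1 / 9 : ℝ) ^ ((1 : ℝ) / 3), by positivity, ?_⟩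
  intro m n a b c d D hD hab hcb hcd _ hrho hm hn
  have hm1 : 1 ≤ m := by omega
  have hn1 : 1 ≤ n := by omega
  obtain ⟨s, m', n', hs, hs1, hs2⟩ := exists_side hm1 hn1 b
  have hmn : 400 * D ≤ m' ∧ 400 * D ≤ n' := by
    rcases hs.sum with ⟨h1, h2⟩ | ⟨h1, h2⟩ <;> omega
  have h := RedH.canon hc0 hX (m := m') (n := n') (a := a - s) (b := b - s) (c := c - s)
    (d := d - s) hD (by omega) (by omega) (by omega) hmn.1 hmn.2 (by omega) (by omega)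
    (by rw [← rho_isRot hs]; exact hrho)
  rw [← rho_isRot hs, ← rho_isRot hs, ← AA_isRot hm1 hn1 hs] at h
  have e1 : b - s - (a - s) + 1 = b - a + 1 := by ring
  have e2 : d - s - (c - s) + 1 = d - c + 1 := by ring
  rw [e1, e2] at h
  exact h

end H731A
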