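import Pool.Agent.H731R4.Arcs.LowM2

/-!
Task RM: the lower bound when the gap between the arcs is macroscopic (helper152).
-/

namespace H731A

open H974 H731C H731R Finset

namespace RedM

theorem isRot_succ {m n s m' n' : ℤ} (h : IsRot m n s m' n') : IsRot m n (s + m') n' m' := by
  obtain ⟨k, ⟨h1, h2, h3⟩ | ⟨h1, h2, h3⟩ | ⟨h1, h2, h3⟩ | ⟨h1, h2, h3⟩⟩ := h
  · exact ⟨k, Or.inr (Or.inl ⟨by rw [h1, h2], h3, h2⟩)⟩
  · exact ⟨k, Or.inr (Or.inr (Or.inl ⟨by rw [h1, h2]; ring, h3, h2⟩))⟩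
  · exact ⟨k, Or.inr (Or.inr (Or.inr ⟨by rw [h1, h2]; ring, h3, h2⟩))⟩
  · exact ⟨k + 1, Or.inl ⟨by rw [h1, h2]; ring, h3, h2⟩⟩

/-- An interval of length at most `N` contains a fifth which is in one side. -/
theorem sub_side {m n : ℤ} (hm : 1 ≤ m) (hn : 1 ≤ n) {x y : ℤ} (hxy : x ≤ y)
    (hN : y - x ≤ 2 * (m + n)) : ∃ x2 y2, x ≤ x2 ∧ x2 ≤ y2 ∧ y2 ≤ y ∧ OneSide m n x2 y2 ∧
      y - x + 1 ≤ 5 * (y2 - x2 + 1) := by
  obtain ⟨s, m', n', h1, hs, hs'⟩ := exists_side hm hn x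
  have hsum := h1.sum
  have h2 := isRot_succ h1
  have h3 := isRot_succ h2
  have h4 := isRot_succ h3
  have h5 := isRot_succ h4
  have hm' : 1 ≤ m' ∧ 1 ≤ n' ∧ m' + n' = m + n := by omega
  by_cases c1 : y ≤ s + m'
  · exact ⟨x, y, le_rfl, hxy, le_rfl, ⟨s, m', n', h1, hs, c1⟩, by omega⟩
  by_cases d1 : y - x + 1 ≤ 5 * (s + m' - x + 1)
  · exact ⟨x, s + m', le_rfl, hs', by omega, ⟨s, m', n', h1, hs, le_rfl⟩, d1⟩
  by_cases c2 : y ≤ s + m' + n'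
  · exact ⟨s + m', y, by omega, by omega, le_rfl, ⟨_, _, _, h2, le_rfl, c2⟩, by omega⟩
  by_cases d2 : y - x + 1 ≤ 5 * (n' + 1)
  · exact ⟨s + m', s + m' + n', by omega, by omega, by omega, ⟨_, _, _, h2, le_rfl, le_rfl⟩,
      by omega⟩
  by_cases c3 : y ≤ s + m' + n' + m'
  · exact ⟨s + m' + n', y, by omega, by omega, le_rfl, ⟨_, _, _, h3, le_rfl, c3⟩, by omega⟩
  by_cases d3 : y - x + 1 ≤ 5 * (m' + 1)
  · exact ⟨s + m' + n', s + m' + n' + m', by omega, by omega, by omega,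
      ⟨_, _, _, h3, le_rfl, le_rfl⟩, by omega⟩
  by_cases c4 : y ≤ s + m' + n' + m' + n'
  · exact ⟨s + m' + n' + m', y, by omega, by omega, le_rfl, ⟨_, _, _, h4, le_rfl, c4⟩,
      by omega⟩
  exact ⟨s + m' + n' + m' + n', y, by omega, by omega, le_rfl,
    ⟨_, _, _, h5, le_rfl, by omega⟩, by omega⟩

theorem AA_mono {m n a b c d a' b' c' d' : ℤ} (h1 : a ≤ a') (h2 : b' ≤ b) (h3 : c ≤ c')
    (h4 : d' ≤ d) {F : Finset Edg} (h : AA m n a' b' c' d' F) : AA m n a b c d F := by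
  obtain ⟨i, j, hi, hj, h⟩ := h
  exact ⟨i, j, ⟨h1.trans hi.1, hi.2.trans h2⟩, ⟨h3.trans hj.1, hj.2.trans h4⟩, h⟩

/-- Comparison of the two factors. -/
theorem AF_le {r r2 p p2 D N L : ℤ} (hr : 0 ≤ r) (hr2 : 0 ≤ r2) (hD : 1 ≤ D) (hp : 1 ≤ p)
    (hp2 : 1 ≤ p2) (hN : 0 < N) (hL : 0 ≤ L) (hNL : N ≤ L * D) (h5 : min p D ≤ 5 * p2)
    (hrr : p < D → r ≤ r2 + p) :
    AF r p D ≤ (50 * (L:ℝ) ^ 2) * (G r2 p2 / (N:ℝ) ^ 2) := by
  have hDr : (1:ℝ) ≤ D := by exact_mod_cast hD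
  have hpr : (1:ℝ) ≤ p := by exact_mod_cast hp
  have hp2r : (1:ℝ) ≤ p2 := by exact_mod_cast hp2
  have hrr0 : (0:ℝ) ≤ r := by exact_mod_cast hr
  have hr2r : (0:ℝ) ≤ r2 := by exact_mod_cast hr2
  have hNr : (0:ℝ) < N := by exact_mod_cast hN
  have hLr : (0:ℝ) ≤ L := by exact_mod_cast hL
  have hNLr : (N:ℝ) ≤ L * D := by exact_mod_cast hNL
  have hN2 : (N:ℝ) ^ 2 ≤ (L:ℝ) ^ 2 * (D:ℝ) ^ 2 := by
    calc (N:ℝ) ^ 2 ≤ ((L:ℝ) * D) ^ 2 := pow_le_pow_left₀ hNr.le hNLr 2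
      _ = (L:ℝ) ^ 2 * (D:ℝ) ^ 2 := by ring
  rw [← mul_div_assoc, le_div_iff₀ (by positivity)]
  unfold AF G
  rcases le_or_gt D p with h | h
  · have h6 : (D:ℝ) ≤ 5 * p2 := by
      rw [min_eq_right h] at h5
      exact_mod_cast h5
    have h7 : (D:ℝ) ^ 2 ≤ 25 * ((p2:ℝ) * (p2 + r2)) := by
      calc (D:ℝ) ^ 2 ≤ (5 * (p2:ℝ)) ^ 2 := pow_le_pow_left₀ (by linarith) h6 2
        _ = 25 * ((p2:ℝ) * p2) := by ring
        _ ≤ 25 * ((p2:ℝ) * (p2 + r2)) := by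
            have : 0 ≤ (p2:ℝ) * r2 := by positivity
            nlinarith
    calc min 1 ((p:ℝ) * (p + r) / ((D:ℝ) * (D + r))) * (N:ℝ) ^ 2
        ≤ 1 * (N:ℝ) ^ 2 := mul_le_mul_of_nonneg_right (min_le_left _ _) (by positivity)
      _ ≤ (L:ℝ) ^ 2 * (D:ℝ) ^ 2 := by rw [one_mul]; exact hN2
      _ ≤ (L:ℝ) ^ 2 * (25 * ((p2:ℝ) * (p2 + r2))) :=
          mul_le_mul_of_nonneg_left h7 (by positivity)
      _ ≤ 50 * (L:ℝ) ^ 2 * ((p2:ℝ) * (p2 + r2)) := by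
          have : 0 ≤ (L:ℝ) ^ 2 * ((p2:ℝ) * (p2 + r2)) := by positivity
          linarith
  · have h6 : (p:ℝ) ≤ 5 * p2 := by
      rw [min_eq_left h.le] at h5
      exact_mod_cast h5
    have h8 : (r:ℝ) ≤ r2 + p := by exact_mod_cast hrr h
    have h7 : (p:ℝ) * (p + r) ≤ 50 * ((p2:ℝ) * (p2 + r2)) := by
      calc (p:ℝ) * (p + r) ≤ (5 * (p2:ℝ)) * (10 * p2 + r2) := by
            apply mul_le_mul h6 (by linarith) (by positivity) (by positivity)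
        _ ≤ 50 * ((p2:ℝ) * (p2 + r2)) := by
            have : 0 ≤ (p2:ℝ) * r2 := by positivity
            nlinarith
    have h9 : (p:ℝ) * (p + r) / ((D:ℝ) * (D + r)) ≤ (p:ℝ) * (p + r) / (D:ℝ) ^ 2 := by
      apply div_le_div_of_nonneg_left (by positivity) (by positivity)
      nlinarith
    calc min 1 ((p:ℝ) * (p + r) / ((D:ℝ) * (D + r))) * (N:ℝ) ^ 2
        ≤ ((p:ℝ) * (p + r) / (D:ℝ) ^ 2) * (N:ℝ) ^ 2 :=
          mul_le_mul_of_nonneg_right ((min_le_right _ _).trans h9) (by positivity)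
      _ ≤ ((p:ℝ) * (p + r) / (D:ℝ) ^ 2) * ((L:ℝ) ^ 2 * (D:ℝ) ^ 2) :=
          mul_le_mul_of_nonneg_left hN2 (by positivity)
      _ = (L:ℝ) ^ 2 * ((p:ℝ) * (p + r)) := by field_simp
      _ ≤ (L:ℝ) ^ 2 * (50 * ((p2:ℝ) * (p2 + r2))) :=
          mul_le_mul_of_nonneg_left h7 (by positivity)
      _ = 50 * (L:ℝ) ^ 2 * ((p2:ℝ) * (p2 + r2)) := by ring

theorem AF_nonneg {r p D : ℤ} (hr : 0 ≤ r) (hp : 1 ≤ p) (hD : 1 ≤ D) : 0 ≤ AF r p D := by
  have hDr : (1:ℝ) ≤ D := by exact_mod_cast hD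
  have hpr : (1:ℝ) ≤ p := by exact_mod_cast hp
  have hrr0 : (0:ℝ) ≤ r := by exact_mod_cast hr
  unfold AF G
  positivity

theorem rho_le {m n : ℤ} (hm : 1 ≤ m) (hn : 1 ≤ n) {x y p : ℤ} (h : |x - y| ≤ p) :
    rho m n x ≤ rho m n y + p := by
  have h1 := rho_lip hm hn x y
  have h2 := cd_le_abs (N := 2 * (m + n)) (by omega) (x - y)
  omega

end RedM

theorem low_mac (K : ℕ) : ∃ c0 : ℝ, 0 < c0 ∧ ∀ m n a b c d D : ℤ, 1 ≤ m → 1 ≤ n → m ≤ K * n →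
    n ≤ K * m → 1 ≤ D → a ≤ b → c - b = D → c ≤ d →
    D ≤ a + 2 * (m + n) - d → (m < 400 * D ∨ n < 400 * D) →
    c0 * (AF (rho m n a) (b - a + 1) D * AF (rho m n d) (d - c + 1) D) ^ ((1 : ℝ) / 3) ≤
      P2 (RE 0 m 0 n) (AA m n a b c d) := by
  obtain ⟨c0, hc0, hlow⟩ := H731A.low_macro K
  set L : ℤ := 800 * ((K:ℤ) + 1) with hL
  have hLpos : 0 < L := by omega
  have hLr : (0:ℝ) < L := by exact_mod_cast hLpos
  set M : ℝ := (50 * (L:ℝ) ^ 2) ^ 2 with hM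
  have hMpos : 0 < M := by positivity
  refine ⟨c0 / M ^ ((1:ℝ) / 3), by positivity, ?_⟩
  intro m n a b c d D hm hn hmn hnm hD hab hcb hcd hda hsm
  have hNL : 2 * (m + n) ≤ L * D := by
    have hK : (0:ℤ) ≤ K := Int.natCast_nonneg K
    rcases hsm with h | h
    · have e1 : (K:ℤ) * m ≤ K * (400 * D) := mul_le_mul_of_nonneg_left h.le hK
      have e2 : L * D = 2 * (400 * D + K * (400 * D)) := by
        simp only [hL]
        ring
      rw [e2]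
      linarith
    · have e1 : (K:ℤ) * n ≤ K * (400 * D) := mul_le_mul_of_nonneg_left h.le hK
      have e2 : L * D = 2 * (400 * D + K * (400 * D)) := by
        simp only [hL]
        ring
      rw [e2]
      linarith
  obtain ⟨a2, b2, ha2, hab2, hb2, hside1, hfif1⟩ := RedM.sub_side hm hn
    (x := b - min (b - a + 1) D + 1) (y := b) (by omega) (by omega)
  obtain ⟨c2, d2, hc2, hcd2, hd2, hside2, hfif2⟩ := RedM.sub_side hm hn
    (x := c) (y := c + min (d - c + 1) D - 1) (by omega) (by omega)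
  have hmac := hlow m n a2 b2 c2 d2 hm hn hmn hnm hab2 hcd2 hside1 hside2
  have hX := RedM.AF_le (r := rho m n a) (r2 := rho m n a2) (p := b - a + 1)
    (p2 := b2 - a2 + 1) (D := D) (N := 2 * (m + n)) (L := L) (rho_nonneg hm hn _)
    (rho_nonneg hm hn _) hD (by omega) (by omega) (by omega) hLpos.le hNL (by omega) (by
      intro hlt
      apply RedM.rho_le hm hn
      rw [abs_le]
      rw [min_eq_left hlt.le] at ha2
      omega)
  have hY := RedM.AF_le (r := rho m n d) (r2 := rho m n d2) (p := d - c + 1)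
    (p2 := d2 - c2 + 1) (D := D) (N := 2 * (m + n)) (L := L) (rho_nonneg hm hn _)
    (rho_nonneg hm hn _) hD (by omega) (by omega) (by omega) hLpos.le hNL (by omega) (by
      intro hlt
      apply RedM.rho_le hm hn
      rw [abs_le]
      rw [min_eq_left hlt.le] at hd2
      omega)
  have hX0 := RedM.AF_nonneg (r := rho m n a) (p := b - a + 1) (D := D) (rho_nonneg hm hn _)
    (by omega) hD
  have hY0 := RedM.AF_nonneg (r := rho m n d) (p := d - c + 1) (D := D) (rho_nonneg hm hn _)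
    (by omega) hD
  set U : ℝ := G (rho m n a2) (b2 - a2 + 1) / ((2 * (m + n) : ℤ) : ℝ) ^ 2 with hU
  set V : ℝ := G (rho m n d2) (d2 - c2 + 1) / ((2 * (m + n) : ℤ) : ℝ) ^ 2 with hV
  have hU0 : 0 ≤ U := by
    have : 0 ≤ 50 * (L:ℝ) ^ 2 * U := hX0.trans hX
    exact nonneg_of_mul_nonneg_right this (by positivity)
  have hV0 : 0 ≤ V := by
    have : 0 ≤ 50 * (L:ℝ) ^ 2 * V := hY0.trans hY
    exact nonneg_of_mul_nonneg_right this (by positivity)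
  have hprod : AF (rho m n a) (b - a + 1) D * AF (rho m n d) (d - c + 1) D ≤ M * (U * V) := by
    calc AF (rho m n a) (b - a + 1) D * AF (rho m n d) (d - c + 1) D
        ≤ (50 * (L:ℝ) ^ 2 * U) * (50 * (L:ℝ) ^ 2 * V) :=
          mul_le_mul hX hY hY0 (hX0.trans hX)
      _ = M * (U * V) := by rw [hM]; ring
  have hpow : (AF (rho m n a) (b - a + 1) D * AF (rho m n d) (d - c + 1) D) ^ ((1:ℝ) / 3) ≤
      M ^ ((1:ℝ) / 3) * (U * V) ^ ((1:ℝ) / 3) := by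
    rw [← Real.mul_rpow hMpos.le (mul_nonneg hU0 hV0)]
    exact Real.rpow_le_rpow (mul_nonneg hX0 hY0) hprod (by norm_num)
  have hMr : 0 < M ^ ((1:ℝ) / 3) := by positivity
  calc c0 / M ^ ((1:ℝ) / 3) *
        (AF (rho m n a) (b - a + 1) D * AF (rho m n d) (d - c + 1) D) ^ ((1:ℝ) / 3)
      ≤ c0 / M ^ ((1:ℝ) / 3) * (M ^ ((1:ℝ) / 3) * (U * V) ^ ((1:ℝ) / 3)) :=
        mul_le_mul_of_nonneg_left hpow (by positivity)
    _ = c0 * (U * V) ^ ((1:ℝ) / 3) := by field_simp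
    _ ≤ P2 (RE 0 m 0 n) (AA m n a2 b2 c2 d2) := hmac
    _ ≤ P2 (RE 0 m 0 n) (AA m n a b c d) := by
        apply Pr_mono
        · intro e
          norm_num
        · intro F _ h
          exact RedM.AA_mono (by omega) (by omega) (by omega) (by omega) h

end H731A
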