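import Pool.Agent.H731R4.Arcs.Alg

/-!
Task SZ: the comparison for `sz`.
-/

namespace H731A

open H974 H731C H731R Finset

namespace Sz

theorem rho_abs {m n : ℤ} (hm : 1 ≤ m) (hn : 1 ≤ n) (i j : ℤ) :
    |rho m n i - rho m n j| ≤ cd (2 * (m + n)) (j - i) := by
  have h1 := rho_lip hm hn i j
  have h2 := rho_lip hm hn j i
  have h3 := cd_neg (N := 2 * (m + n)) (by omega) (j - i)
  rw [neg_sub] at h3
  rw [abs_le]
  omega

end Sz

theorem alg_sz {m n a b c d : ℤ} (hm : 1 ≤ m) (hn : 1 ≤ n) (hab : a ≤ b) (hbc : b < c)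
    (hcd : c ≤ d) (hda : d < a + 2 * (m + n)) :
    ((sz m n a b : ℝ) * sz m n c d) / ((sz m n a c : ℝ) * sz m n b d) ≤
      2000 * (AF (rho m n a) (b - a + 1) (min (c - b) (a + 2 * (m + n) - d)) *
        AF (rho m n d) (d - c + 1) (min (c - b) (a + 2 * (m + n) - d))) ∧
    AF (rho m n a) (b - a + 1) (min (c - b) (a + 2 * (m + n) - d)) *
        AF (rho m n d) (d - c + 1) (min (c - b) (a + 2 * (m + n) - d)) ≤
      2000 * (((sz m n a b : ℝ) * sz m n c d) / ((sz m n a c : ℝ) * sz m n b d)) := by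
  have hN : 0 < 2 * (m + n) := by omega
  have r1 := Sz.rho_abs hm hn a b
  have r2 := Sz.rho_abs hm hn c d
  have r3 := Sz.rho_abs hm hn a c
  have r4 := Sz.rho_abs hm hn b d
  have e1 : cd (2 * (m + n)) (b - a) + 1 =
      min (b - a + 1) (d - c + 1 + (c - b) + (a + 2 * (m + n) - d)) := by
    rw [cd_of_mem (by omega) (by omega) hN]; omega
  have e2 : cd (2 * (m + n)) (d - c) + 1 =
      min (d - c + 1) (b - a + 1 + (c - b) + (a + 2 * (m + n) - d)) := by
    rw [cd_of_mem (by omega) (by omega) hN]; omega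
  have e3 : cd (2 * (m + n)) (c - a) + 1 =
      min (b - a + 1 + (c - b)) (d - c + 1 + (a + 2 * (m + n) - d)) := by
    rw [cd_of_mem (by omega) (by omega) hN]; omega
  have e4 : cd (2 * (m + n)) (d - b) + 1 =
      min (d - c + 1 + (c - b)) (b - a + 1 + (a + 2 * (m + n) - d)) := by
    rw [cd_of_mem (by omega) (by omega) hN]; omega
  have h := alg (p := b - a + 1) (q := d - c + 1) (g1 := c - b) (g2 := a + 2 * (m + n) - d)
    (ra := rho m n a) (rb := rho m n b) (rc := rho m n c) (rd := rho m n d)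
    (by omega) (by omega) (by omega) (by omega)
    (rho_nonneg hm hn a) (rho_nonneg hm hn b) (rho_nonneg hm hn c) (rho_nonneg hm hn d)
    (by rw [← e1]; omega) (by rw [← e2]; omega) (by rw [← e3]; omega) (by rw [← e4]; omega)
  rw [← e1, ← e2, ← e3, ← e4] at h
  exact h

end H731A
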