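import Pool.Agent.H731R4.Arcs.Arm2
import Pool.Agent.H731R4.Arcs.Chord

/-!
Task UPP: upper bound for the probability that two arcs are connected.
-/

namespace H731A

open H974 H731C H731R Finset

namespace Upp

theorem G_pos {r t : ℤ} (hr : 0 ≤ r) (ht : 1 ≤ t) : 0 < G r t := by
  have h1 : (0 : ℝ) ≤ r := by exact_mod_cast hr
  have h2 : (1 : ℝ) ≤ t := by exact_mod_cast ht
  unfold G
  positivity

theorem G_mono {r s t : ℤ} (hr : 0 ≤ r) (hs : 0 ≤ s) (h : s ≤ t) : G r s ≤ G r t := by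
  have h1 : (0 : ℝ) ≤ r := by exact_mod_cast hr
  have h2 : (0 : ℝ) ≤ s := by exact_mod_cast hs
  have h3 : (s : ℝ) ≤ t := by exact_mod_cast h
  have h4 : (0 : ℝ) ≤ t := h2.trans h3
  unfold G
  gcongr

theorem G_le {r s D : ℤ} {κ : ℝ} (hr : 0 ≤ r) (hs : 1 ≤ s) (hD : 1 ≤ D) (hκ : 1 ≤ κ)
    (h : (D : ℝ) ≤ κ * s) : G r D ≤ κ ^ 2 * G r s := by
  have h1 : (0 : ℝ) ≤ r := by exact_mod_cast hr
  have h2 : (1 : ℝ) ≤ s := by exact_mod_cast hs
  have h3 : (1 : ℝ) ≤ D := by exact_mod_cast hD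
  unfold G
  have h4 : (D : ℝ) + r ≤ κ * (s + r) := by nlinarith
  calc (D : ℝ) * (D + r) ≤ (κ * s) * (κ * (s + r)) := by gcongr
    _ = κ ^ 2 * (s * (s + r)) := by ring

theorem AF_pos {r p D : ℤ} (hr : 0 ≤ r) (hp : 1 ≤ p) (hD : 1 ≤ D) : 0 < AF r p D := by
  unfold AF
  exact lt_min one_pos (div_pos (G_pos hr hp) (G_pos hr hD))

/-- short arcs -/
theorem AF_short {r p s D : ℤ} {κ : ℝ} (hr : 0 ≤ r) (hp : 1 ≤ p) (hs : 1 ≤ s) (hsD : s ≤ D)
    (hps : p ≤ s) (hκ : 1 ≤ κ) (h : (D : ℝ) ≤ κ * s) : G r p / G r s ≤ κ ^ 2 * AF r p D := by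
  have hD : 1 ≤ D := by omega
  have g1 := G_pos hr hp
  have g2 := G_pos hr hs
  have g3 := G_pos hr hD
  have g4 := G_mono (r := r) hr (by omega : (0:ℤ) ≤ p) (by omega : p ≤ D)
  have g5 := G_le hr hs hD hκ h
  unfold AF
  rw [min_eq_right ((div_le_one g3).2 g4), ← mul_div_assoc, div_le_div_iff₀ g2 g3]
  nlinarith

/-- long arcs -/
theorem AF_long {r p s D : ℤ} {κ : ℝ} (hr : 0 ≤ r) (hs : 1 ≤ s) (hD : 1 ≤ D)
    (hps : s ≤ p) (hκ : 1 ≤ κ) (h : (D : ℝ) ≤ κ * s) : 1 ≤ κ ^ 2 * AF r p D := by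
  have hp : 1 ≤ p := by omega
  have g1 := G_pos hr hp
  have g3 := G_pos hr hD
  have g4 := G_mono (r := r) hr (by omega : (0:ℤ) ≤ s) hps
  have g5 := G_le hr hs hD hκ h
  have hκ2 : 1 ≤ κ ^ 2 := one_le_pow₀ hκ
  unfold AF
  rcases le_total 1 (G r p / G r D) with h1 | h1
  · rw [min_eq_left h1, mul_one]; exact hκ2
  · rw [min_eq_right h1, ← mul_div_assoc, le_div_iff₀ g3, one_mul]
    nlinarith

/-- exit of the box -/
theorem exitB {m n r : ℤ} {z u v : Vtx} {F : Finset Edg} (h1 : |u.1 - z.1| ≤ r)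
    (h2 : |u.2 - z.2| ≤ r) (hv : r ≤ |v.1 - z.1| ∨ r ≤ |v.2 - z.2|)
    (h : Reach (↑F ∩ ↑(RE 0 m 0 n)) u v) :
    ∃ w : Vtx, (w.1 = z.1 - r ∨ w.1 = z.1 + r ∨ w.2 = z.2 - r ∨ w.2 = z.2 + r) ∧
      Reach (↑F ∩ ↑(Bx m n z r)) u w := by
  rw [abs_le] at h1 h2
  obtain ⟨w, -, hw2, hw3⟩ := first_exit (a := z.1 - r) (b := z.1 + r) (c := z.2 - r)
    (d := z.2 + r) (u := u) (v := v) ⟨⟨by omega, by omega⟩, by omega, by omega⟩ h (by
      rcases hv with hv | hv <;> rw [le_abs] at hv <;> omega)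
  refine ⟨w, by omega, hw3.mono ?_⟩
  rintro ⟨x, y, _ | _⟩ ⟨⟨h3, h4⟩, h5⟩
  · refine ⟨h3, ?_⟩
    unfold Bx
    rw [mem_coe, mem_RE_false] at h4 h5 ⊢
    omega
  · refine ⟨h3, ?_⟩
    unfold Bx
    rw [mem_coe, mem_RE_true] at h4 h5 ⊢
    omega

theorem armL_inter {m n a b r : ℤ} {z : Vtx} (F : Finset Edg) :
    ArmL m n a b z r (F ∩ Bx m n z r) ↔ ArmL m n a b z r F := by
  unfold ArmL
  rw [Finset.coe_inter, Set.inter_assoc, Set.inter_self]

theorem Bx_sub {m n r : ℤ} {z : Vtx} : Bx m n z r ⊆ RE 0 m 0 n := by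
  rintro ⟨x, y, _ | _⟩ h
  · unfold Bx at h
    rw [mem_RE_false] at h ⊢
    omega
  · unfold Bx at h
    rw [mem_RE_true] at h ⊢
    omega

theorem Bx_near {m n r : ℤ} {z : Vtx} {e : Edg} (h : e ∈ Bx m n z r) :
    |e.1 - z.1| ≤ r ∧ |e.2.1 - z.2| ≤ r := by
  obtain ⟨x, y, _ | _⟩ := e
  · unfold Bx at h
    rw [mem_RE_false] at h
    constructor <;> (rw [abs_le]; simp only; omega)
  · unfold Bx at h
    rw [mem_RE_true] at h
    constructor <;> (rw [abs_le]; simp only; omega)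

theorem P2_arm {m n a b r : ℤ} {z : Vtx} :
    P2 (Bx m n z r) (ArmL m n a b z r) = P2 (RE 0 m 0 n) (ArmL m n a b z r) := by
  rw [← P2_restrict (Bx_sub (m := m) (n := n) (z := z) (r := r))]
  exact Pr_congr fun F _ => armL_inter F

/-- independence of the two arms -/
theorem P2_two {m n a b c d r : ℤ} {z z' : Vtx} (hd : Disjoint (Bx m n z r) (Bx m n z' r)) :
    P2 (RE 0 m 0 n) (fun F => ArmL m n a b z r F ∧ ArmL m n c d z' r F) =
      P2 (RE 0 m 0 n) (ArmL m n a b z r) * P2 (RE 0 m 0 n) (ArmL m n c d z' r) := by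
  rw [← P2_arm (z := z), ← P2_arm (z := z'), ← P2_indep Bx_sub Bx_sub hd]
  exact Pr_congr fun F _ => and_congr (armL_inter F).symm (armL_inter F).symm

/-- cyclic distance of two points of the arcs -/
theorem cd_arcs {N a b c d i j D : ℤ} (hN : 0 < N) (hD : 1 ≤ D) (h1 : D ≤ c - b)
    (h2 : D ≤ a + N - d) (hi : a ≤ i ∧ i ≤ b) (hj : c ≤ j ∧ j ≤ d) : D ≤ cd N (i - j) := by
  rw [← cd_neg hN, neg_sub, cd_of_mem (by omega) (by omega) hN]
  omega

/-- the deterministic part: one arm -/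
theorem arm_of {K : ℕ} {m n a b c d r D : ℤ} (hm : 1 ≤ m) (hn : 1 ≤ n) (hK1 : m ≤ K * n)
    (hK2 : n ≤ K * m) (hD : 1 ≤ D) (h1 : D ≤ c - b) (h2 : D ≤ a + 2 * (m + n) - d)
    (hr : 1 ≤ r) (hrD : 8 * (K + 2) * r ≤ D) (k : ℤ) (hk : a ≤ k ∧ k ≤ b)
    (hp : b - a + 1 ≤ r) {i j : ℤ} (hi : a ≤ i ∧ i ≤ b) (hj : c ≤ j ∧ j ≤ d)
    {F : Finset Edg} (h : Reach (↑F ∩ ↑(RE 0 m 0 n)) (bd m n i) (bd m n j)) :
    ArmL m n a b (bd m n k) r F := by
  have hN : 0 < 2 * (m + n) := by omega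
  obtain ⟨l1, l2⟩ := H731A.bd_lip hm hn i k
  have l3 := cd_le_abs hN (i - k)
  have l4 : |i - k| ≤ r := by rw [abs_le]; omega
  have hfar := cd_arcs hN hD h1 h2 hi hj
  have hlt : (K + 2) * (2 * r) < D := by nlinarith
  obtain ⟨w, hw1, hw2⟩ := exitB (m := m) (n := n) (r := r) (z := bd m n k) (u := bd m n i)
    (v := bd m n j) (F := F) (by omega) (by omega) (by
      by_contra hcon
      rw [not_or, not_le, not_le] at hcon
      obtain ⟨c1, c2⟩ := hcon
      have e1 : |(bd m n i).1 - (bd m n j).1| ≤ 2 * r := by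
        rw [abs_lt] at c1
        have := abs_le.1 (le_trans l1 (le_trans l3 l4))
        rw [abs_le]; omega
      have e2 : |(bd m n i).2 - (bd m n j).2| ≤ 2 * r := by
        rw [abs_lt] at c2
        have := abs_le.1 (le_trans l2 (le_trans l3 l4))
        rw [abs_le]; omega
      have := H731A.chord hm hn hK1 hK2 i j (2 * r) e1 e2
      omega) h
  exact ⟨i, w, hi, hw1, hw2⟩

end Upp

open Upp in
theorem AA_upper (K : ℕ) : ∃ C : ℝ, 0 < C ∧ ∀ m n a b c d : ℤ, 1 ≤ m → 1 ≤ n → m ≤ K * n →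
    n ≤ K * m → a ≤ b → b < c → c ≤ d → d < a + 2 * (m + n) →
    P2 (RE 0 m 0 n) (AA m n a b c d) ≤
      C * (AF (rho m n a) (b - a + 1) (min (c - b) (a + 2 * (m + n) - d)) *
        AF (rho m n d) (d - c + 1) (min (c - b) (a + 2 * (m + n) - d))) ^ ((1 : ℝ) / 3) := by
  obtain ⟨C0, hC0, harm⟩ := H731A.arm_gen
  set κ : ℝ := 16 * ((K : ℝ) + 2) with hκdef
  have hκ : 1 ≤ κ := by
    have : (0 : ℝ) ≤ K := by positivity
    rw [hκdef]; linarith
  have hκ0 : 0 < κ := by linarith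
  refine ⟨(C0 + 1) ^ 2 * (κ ^ 2 * κ ^ 2) ^ ((1 : ℝ) / 3), by positivity, ?_⟩
  intro m n a b c d hm hn hK1 hK2 hab hbc hcd hda
  set D := min (c - b) (a + 2 * (m + n) - d) with hDdef
  have hD : 1 ≤ D := by omega
  have hD1 : D ≤ c - b := by omega
  have hD2 : D ≤ a + 2 * (m + n) - d := by omega
  have hN : 0 < 2 * (m + n) := by omega
  have hra := rho_nonneg hm hn a
  have hrd := rho_nonneg hm hn d
  have hp : 1 ≤ b - a + 1 := by omega
  have hq : 1 ≤ d - c + 1 := by omega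
  set x := AF (rho m n a) (b - a + 1) D with hx
  set y := AF (rho m n d) (d - c + 1) D with hy
  have hx0 : 0 < x := AF_pos hra hp hD
  have hy0 : 0 < y := AF_pos hrd hq hD
  set u := (κ ^ 2 * x) ^ ((1 : ℝ) / 3) with hu
  set v := (κ ^ 2 * y) ^ ((1 : ℝ) / 3) with hv
  have hu0 : 0 < u := Real.rpow_pos_of_pos (by positivity) _
  have hv0 : 0 < v := Real.rpow_pos_of_pos (by positivity) _
  have huv : (κ ^ 2 * κ ^ 2) ^ ((1 : ℝ) / 3) * (x * y) ^ ((1 : ℝ) / 3) = u * v := by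
    rw [hu, hv, ← Real.mul_rpow (by positivity) (by positivity),
      ← Real.mul_rpow (by positivity) (by positivity)]
    congr 1
    ring
  rw [mul_assoc, huv]
  -- the radius
  set r := D / (8 * ((K : ℤ) + 2)) with hr
  have hK0 : (0 : ℤ) < 8 * ((K : ℤ) + 2) := by positivity
  have hr0 : 0 ≤ r := Int.ediv_nonneg (by omega) hK0.le
  have hrD : 8 * ((K : ℤ) + 2) * r ≤ D := by
    rw [mul_comm]; exact Int.ediv_mul_le _ hK0.ne'
  have hDr : D < 8 * ((K : ℤ) + 2) * (r + 1) := by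
    have := Int.lt_ediv_add_one_mul_self D hK0
    rw [mul_comm]; exact this
  set s := max r 1 with hs
  have hs1 : 1 ≤ s := le_max_right _ _
  have hDs : (D : ℝ) ≤ κ * s := by
    have h1 : D ≤ 16 * ((K : ℤ) + 2) * s := by
      have h2 : r + 1 ≤ 2 * s := by omega
      calc D ≤ 8 * ((K : ℤ) + 2) * (r + 1) := hDr.le
        _ ≤ 8 * ((K : ℤ) + 2) * (2 * s) := by
          apply mul_le_mul_of_nonneg_left h2 hK0.le
        _ = 16 * ((K : ℤ) + 2) * s := by ring
    have h3 : (D : ℝ) ≤ ((16 * ((K : ℤ) + 2) * s : ℤ) : ℝ) := by exact_mod_cast h1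
    rw [hκdef]
    push_cast at h3
    exact h3
  have hP1 : P2 (RE 0 m 0 n) (AA m n a b c d) ≤ 1 := Pr_le_one okhalf2 _ _
  have hC1 : 1 ≤ (C0 + 1) ^ 2 := by nlinarith
  -- long arcs give factors at least one
  have longx : s ≤ b - a + 1 → 1 ≤ u := fun h =>
    Real.one_le_rpow (AF_long hra hs1 hD h hκ hDs) (by norm_num)
  have longy : s ≤ d - c + 1 → 1 ≤ v := fun h =>
    Real.one_le_rpow (AF_long hrd hs1 hD h hκ hDs) (by norm_num)
  by_cases hr1 : 1 ≤ r
  swap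
  · have hs' : s = 1 := by omega
    have h1 := longx (by omega)
    have h2 := longy (by omega)
    calc P2 (RE 0 m 0 n) (AA m n a b c d) ≤ 1 := hP1
      _ ≤ (C0 + 1) ^ 2 * (u * v) := by
        have : 1 ≤ u * v := by nlinarith
        nlinarith
  have hsr : s = r := by omega
  rw [hsr] at hDs longx longy
  have hKm : 8 * r ≤ m ∧ 8 * r ≤ n := by
    have hDN : D ≤ m + n := by omega
    constructor
    · by_contra hcon
      push Not at hcon
      have h1 : m + n ≤ ((K : ℤ) + 1) * m := by nlinarith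
      have h2 : 8 * ((K : ℤ) + 2) * r ≤ ((K : ℤ) + 1) * m := by omega
      have h3 : ((K : ℤ) + 2) * (m + 1) ≤ ((K : ℤ) + 2) * (8 * r) := by
        apply mul_le_mul_of_nonneg_left (by omega) (by positivity)
      nlinarith
    · by_contra hcon
      push Not at hcon
      have h1 : m + n ≤ ((K : ℤ) + 1) * n := by nlinarith
      have h2 : 8 * ((K : ℤ) + 2) * r ≤ ((K : ℤ) + 1) * n := by omega
      have h3 : ((K : ℤ) + 2) * (n + 1) ≤ ((K : ℤ) + 2) * (8 * r) := by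
        apply mul_le_mul_of_nonneg_left (by omega) (by positivity)
      nlinarith
  have hlt : ((K : ℤ) + 2) * (2 * r) < D := by
    have e0 : 0 < ((K : ℤ) + 2) * r := mul_pos (by positivity) (by omega)
    have e1 : ((K : ℤ) + 2) * (2 * r) = 2 * (((K : ℤ) + 2) * r) := by ring
    have e2 : 8 * ((K : ℤ) + 2) * r = 8 * (((K : ℤ) + 2) * r) := by ring
    rw [e1]; rw [e2] at hrD; omega
  have hsD : r ≤ D := by
    have e3 : 1 * r ≤ ((K : ℤ) + 2) * r := by
      apply mul_le_mul_of_nonneg_right _ (by omega)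
      have : (0 : ℤ) ≤ K := by positivity
      omega
    have e1 : ((K : ℤ) + 2) * (2 * r) = 2 * (((K : ℤ) + 2) * r) := by ring
    rw [e1] at hlt
    omega
  -- short arcs
  have shortx : b - a + 1 ≤ r →
      P2 (RE 0 m 0 n) (ArmL m n a b (bd m n a) r) ≤ C0 * u := by
    intro h
    refine le_trans (harm m n a b a r le_rfl hab hr1 (by omega) (by omega) h) ?_
    apply mul_le_mul_of_nonneg_left _ hC0.le
    apply Real.rpow_le_rpow _ (AF_short hra hp hr1 hsD h hκ hDs) (by norm_num)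
    exact div_nonneg (G_pos hra hp).le (G_pos hra hr1).le
  have shorty : d - c + 1 ≤ r →
      P2 (RE 0 m 0 n) (ArmL m n c d (bd m n d) r) ≤ C0 * v := by
    intro h
    refine le_trans (harm m n c d d r hcd le_rfl hr1 (by omega) (by omega) h) ?_
    apply mul_le_mul_of_nonneg_left _ hC0.le
    apply Real.rpow_le_rpow _ (AF_short hrd hq hr1 hsD h hκ hDs) (by norm_num)
    exact div_nonneg (G_pos hrd hq).le (G_pos hrd hr1).le
  -- deterministic parts
  have detx : b - a + 1 ≤ r → ∀ F, AA m n a b c d F → ArmL m n a b (bd m n a) r F := by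
    rintro h F ⟨i, j, hi, hj, hR⟩
    exact arm_of hm hn hK1 hK2 hD hD1 hD2 hr1 hrD a ⟨le_rfl, hab⟩ h hi hj hR
  have dety : d - c + 1 ≤ r → ∀ F, AA m n a b c d F → ArmL m n c d (bd m n d) r F := by
    rintro h F ⟨i, j, hi, hj, hR⟩
    have hR' := hR.symm
    rw [← bd_period m n i 1] at hR'
    exact arm_of (a := c) (b := d) (c := a + 1 * (2 * (m + n))) (d := b + 1 * (2 * (m + n)))
      hm hn hK1 hK2 hD (by omega) (by omega) hr1 hrD d ⟨hcd, le_rfl⟩ h hj
      (j := i + 1 * (2 * (m + n))) (by omega) hR'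
  have hPu0 : 0 ≤ P2 (RE 0 m 0 n) (ArmL m n a b (bd m n a) r) := Pr_nonneg okhalf2 _ _
  have hPv0 : 0 ≤ P2 (RE 0 m 0 n) (ArmL m n c d (bd m n d) r) := Pr_nonneg okhalf2 _ _
  rcases le_or_gt (b - a + 1) r with hx1 | hx1
  · rcases le_or_gt (d - c + 1) r with hy1 | hy1
    · have hdisj : Disjoint (Bx m n (bd m n a) r) (Bx m n (bd m n d) r) := by
        rw [Finset.disjoint_left]
        intro e he1 he2
        obtain ⟨k1, k2⟩ := Bx_near he1
        obtain ⟨k3, k4⟩ := Bx_near he2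
        rw [abs_le] at k1 k2 k3 k4
        have hfar := cd_arcs hN hD hD1 hD2 ⟨le_refl a, hab⟩ ⟨hcd, le_refl d⟩
        have h9 := H731A.chord hm hn hK1 hK2 a d (2 * r) (by rw [abs_le]; omega)
          (by rw [abs_le]; omega)
        exact absurd (hfar.trans h9) (not_le.2 hlt)
      calc P2 (RE 0 m 0 n) (AA m n a b c d)
          ≤ P2 (RE 0 m 0 n) (fun F => ArmL m n a b (bd m n a) r F ∧
              ArmL m n c d (bd m n d) r F) :=
            Pr_mono okhalf2 fun F _ hF => ⟨detx hx1 F hF, dety hy1 F hF⟩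
        _ = P2 (RE 0 m 0 n) (ArmL m n a b (bd m n a) r) *
              P2 (RE 0 m 0 n) (ArmL m n c d (bd m n d) r) := P2_two hdisj
        _ ≤ (C0 * u) * (C0 * v) := by
            apply mul_le_mul (shortx hx1) (shorty hy1) hPv0 (by positivity)
        _ ≤ (C0 + 1) ^ 2 * (u * v) := by
            have h1 : 0 < u * v := by positivity
            nlinarith
    · have h1 := longy (by omega)
      calc P2 (RE 0 m 0 n) (AA m n a b c d)
          ≤ P2 (RE 0 m 0 n) (ArmL m n a b (bd m n a) r) := Pr_mono okhalf2 fun F _ hF =>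
            detx hx1 F hF
        _ ≤ C0 * u := shortx hx1
        _ ≤ C0 * (u * v) := by
            apply mul_le_mul_of_nonneg_left _ hC0.le
            nlinarith
        _ ≤ (C0 + 1) ^ 2 * (u * v) := by
            apply mul_le_mul_of_nonneg_right _ (by positivity)
            nlinarith
  · have h1 := longx (by omega)
    rcases le_or_gt (d - c + 1) r with hy1 | hy1
    · calc P2 (RE 0 m 0 n) (AA m n a b c d)
          ≤ P2 (RE 0 m 0 n) (ArmL m n c d (bd m n d) r) := Pr_mono okhalf2 fun F _ hF =>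
            dety hy1 F hF
        _ ≤ C0 * v := shorty hy1
        _ ≤ C0 * (u * v) := by
            apply mul_le_mul_of_nonneg_left _ hC0.le
            nlinarith
        _ ≤ (C0 + 1) ^ 2 * (u * v) := by
            apply mul_le_mul_of_nonneg_right _ (by positivity)
            nlinarith
    · have h2 := longy (by omega)
      calc P2 (RE 0 m 0 n) (AA m n a b c d) ≤ 1 := hP1
        _ ≤ (C0 + 1) ^ 2 * (u * v) := by
          have : 1 ≤ u * v := by nlinarith
          nlinarith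

end H731A
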