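import Pool.Agent.H731R4.Arcs.Alg
import Pool.Agent.H731R4.Arcs.RedC
import Pool.Agent.H731R4.Arcs.RedH
import Pool.Agent.H731R4.Arcs.RedM
import Pool.Agent.H731R4.Arcs.Sz
import Pool.Agent.H731R4.Arcs.Upp

/-!
Crossings between disjoint arcs of the boundary of a rectangle: final bounds.
-/

namespace H731A

open H974 H731C H731R Finset

namespace Fin1

theorem G_nonneg {r t : ℤ} (hr : 0 ≤ r) (ht : 0 ≤ t) : 0 ≤ G r t := by
  unfold G
  have h1 : (0 : ℝ) ≤ r := by exact_mod_cast hr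
  have h2 : (0 : ℝ) ≤ t := by exact_mod_cast ht
  positivity

theorem AF_nonneg {r p D : ℤ} (hr : 0 ≤ r) (hp : 0 ≤ p) (hD : 0 ≤ D) : 0 ≤ AF r p D :=
  le_min zero_le_one (div_nonneg (G_nonneg hr hp) (G_nonneg hr hD))

theorem rpow_third_le {x : ℝ} (hx : 0 ≤ x) {k : ℝ} (hk : 0 ≤ k) :
    (k ^ 3 * x) ^ ((1 : ℝ) / 3) = k * x ^ ((1 : ℝ) / 3) := by
  rw [Real.mul_rpow (by positivity) hx]
  congr 1
  rw [← Real.rpow_natCast, ← Real.rpow_mul hk]
  norm_num

theorem third_mono {x y k : ℝ} (hx : 0 ≤ x) (hy : 0 ≤ y) (hk : 0 ≤ k) (h : x ≤ k ^ 3 * y) :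
    x ^ ((1 : ℝ) / 3) ≤ k * y ^ ((1 : ℝ) / 3) := by
  rw [← rpow_third_le hy hk]
  exact Real.rpow_le_rpow hx h (by norm_num)

end Fin1

open Fin1

/-- Lower bound. -/
theorem AA_lower (K : ℕ) : ∃ c0 : ℝ, 0 < c0 ∧ ∀ m n a b c d : ℤ, 1 ≤ m → 1 ≤ n → m ≤ K * n →
    n ≤ K * m → a ≤ b → b < c → c ≤ d → d < a + 2 * (m + n) →
    c0 * (AF (rho m n a) (b - a + 1) (min (c - b) (a + 2 * (m + n) - d)) *
        AF (rho m n d) (d - c + 1) (min (c - b) (a + 2 * (m + n) - d))) ^ ((1 : ℝ) / 3) ≤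
      P2 (RE 0 m 0 n) (AA m n a b c d) := by
  obtain ⟨c1, hc1, H1⟩ := H731A.low_half
  obtain ⟨c2, hc2, H2⟩ := H731A.low_corn
  obtain ⟨c3, hc3, H3⟩ := H731A.low_mac K
  have key : ∀ m n a b c d : ℤ, 1 ≤ m → 1 ≤ n → m ≤ K * n → n ≤ K * m → a ≤ b → b < c →
      c ≤ d → c - b ≤ a + 2 * (m + n) - d →
      min (min c1 c2) c3 * (AF (rho m n a) (b - a + 1) (c - b) *
        AF (rho m n d) (d - c + 1) (c - b)) ^ ((1 : ℝ) / 3) ≤
      P2 (RE 0 m 0 n) (AA m n a b c d) := by
    intro m n a b c d hm hn h1 h2 hab hbc hcd h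
    have hq : 0 ≤ (AF (rho m n a) (b - a + 1) (c - b) *
        AF (rho m n d) (d - c + 1) (c - b)) ^ ((1 : ℝ) / 3) :=
      Real.rpow_nonneg (mul_nonneg
        (AF_nonneg (rho_nonneg hm hn _) (by omega) (by omega))
        (AF_nonneg (rho_nonneg hm hn _) (by omega) (by omega))) _
    by_cases hs : m < 400 * (c - b) ∨ n < 400 * (c - b)
    · exact le_trans (mul_le_mul_of_nonneg_right (min_le_right _ _) hq)
        (H3 m n a b c d (c - b) hm hn h1 h2 (by omega) hab rfl hcd h hs)
    · push Not at hs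
      by_cases hr : rho m n b ≤ 40 * (c - b)
      · exact le_trans (mul_le_mul_of_nonneg_right
          ((min_le_left _ _).trans (min_le_right _ _)) hq)
          (H2 m n a b c d (c - b) (by omega) hab rfl hcd h hr hs.1 hs.2)
      · push Not at hr
        exact le_trans (mul_le_mul_of_nonneg_right
          ((min_le_left _ _).trans (min_le_left _ _)) hq)
          (H1 m n a b c d (c - b) (by omega) hab rfl hcd h hr hs.1 hs.2)
  set c0 := min (min c1 c2) c3 with hc0
  have hc0p : 0 < c0 := lt_min (lt_min hc1 hc2) hc3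
  refine ⟨c0 / 3, by positivity, ?_⟩
  intro m n a b c d hm hn h1 h2 hab hbc hcd hda
  set D := min (c - b) (a + 2 * (m + n) - d) with hD
  have hN : 0 < 2 * (m + n) := by omega
  have hp1 := AF_nonneg (r := rho m n a) (p := b - a + 1) (D := D) (rho_nonneg hm hn _)
    (by omega) (by omega)
  have hp2 := AF_nonneg (r := rho m n d) (p := d - c + 1) (D := D) (rho_nonneg hm hn _)
    (by omega) (by omega)
  rcases le_total (c - b) (a + 2 * (m + n) - d) with h | h
  · have hDe : D = c - b := by omega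
    have := key m n a b c d hm hn h1 h2 hab hbc hcd h
    rw [← hDe] at this
    refine le_trans ?_ this
    have hq := Real.rpow_nonneg (mul_nonneg hp1 hp2) ((1 : ℝ) / 3)
    nlinarith
  · have hDe : D = a + 2 * (m + n) - d := by omega
    have hk := key m n c d (a + 2 * (m + n)) (b + 2 * (m + n)) hm hn h1 h2 hcd (by omega)
      (by omega) (by omega)
    have e1 : P2 (RE 0 m 0 n) (AA m n a b c d) = P2 (RE 0 m 0 n)
        (AA m n c d (a + 2 * (m + n)) (b + 2 * (m + n))) := by
      rw [AA_swap m n a b c d, AA_period m n c d a b 0 1]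
      congr 2 <;> ring
    have e2 : rho m n (b + 2 * (m + n)) = rho m n b := by
      have := rho_period m n b 1
      rwa [one_mul] at this
    have e3 : b + 2 * (m + n) - (a + 2 * (m + n)) + 1 = b - a + 1 := by ring
    rw [e1]
    rw [e2, e3, ← hDe] at hk
    refine le_trans ?_ hk
    have hp3 := AF_nonneg (r := rho m n c) (p := d - c + 1) (D := D) (rho_nonneg hm hn _)
      (by omega) (by omega)
    have hp4 := AF_nonneg (r := rho m n b) (p := b - a + 1) (D := D) (rho_nonneg hm hn _)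
      (by omega) (by omega)
    have q1 : AF (rho m n a) (b - a + 1) D ≤ 4 * AF (rho m n b) (b - a + 1) D := by
      apply H731A.AF_comp (rho_nonneg hm hn _) (rho_nonneg hm hn _) (by omega) (by omega)
      have l1 := rho_lip hm hn a b
      have l2 := rho_lip hm hn b a
      have l3 := cd_le_abs hN (a - b)
      have l4 := cd_le_abs hN (b - a)
      rw [abs_le]
      rw [abs_of_nonpos (by omega)] at l3
      rw [abs_of_nonneg (by omega)] at l4
      omega
    have q2 : AF (rho m n d) (d - c + 1) D ≤ 4 * AF (rho m n c) (d - c + 1) D := by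
      apply H731A.AF_comp (rho_nonneg hm hn _) (rho_nonneg hm hn _) (by omega) (by omega)
      have l1 := rho_lip hm hn c d
      have l2 := rho_lip hm hn d c
      have l3 := cd_le_abs hN (c - d)
      have l4 := cd_le_abs hN (d - c)
      rw [abs_le]
      rw [abs_of_nonpos (by omega)] at l3
      rw [abs_of_nonneg (by omega)] at l4
      omega
    have q3 : (AF (rho m n a) (b - a + 1) D * AF (rho m n d) (d - c + 1) D) ^ ((1 : ℝ) / 3) ≤
        3 * (AF (rho m n c) (d - c + 1) D * AF (rho m n b) (b - a + 1) D) ^ ((1 : ℝ) / 3) := by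
      apply third_mono (by positivity) (by positivity) (by norm_num)
      have := mul_le_mul q1 q2 hp2 (by positivity)
      nlinarith [mul_nonneg hp3 hp4]
    calc c0 / 3 * (AF (rho m n a) (b - a + 1) D * AF (rho m n d) (d - c + 1) D) ^ ((1 : ℝ) / 3)
        ≤ c0 / 3 * (3 * (AF (rho m n c) (d - c + 1) D *
            AF (rho m n b) (b - a + 1) D) ^ ((1 : ℝ) / 3)) :=
          mul_le_mul_of_nonneg_left q3 (by positivity)
      _ = _ := by ring

/-- The cross ratio. -/
noncomputable def eta (m n a b c d : ℤ) : ℝ :=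
  ((sz m n a b : ℝ) * sz m n c d) / ((sz m n a c : ℝ) * sz m n b d)

/-- Two-sided bounds for crossings. -/
theorem AA_eta (K : ℕ) : ∃ c0 C : ℝ, 0 < c0 ∧ 0 < C ∧ ∀ m n a b c d : ℤ, 1 ≤ m → 1 ≤ n →
    m ≤ K * n → n ≤ K * m → a ≤ b → b < c → c ≤ d → d < a + 2 * (m + n) →
    c0 * (eta m n a b c d) ^ ((1 : ℝ) / 3) ≤ P2 (RE 0 m 0 n) (AA m n a b c d) ∧
      P2 (RE 0 m 0 n) (AA m n a b c d) ≤ C * (eta m n a b c d) ^ ((1 : ℝ) / 3) := by
  obtain ⟨c0, hc0, HL⟩ := AA_lower K
  obtain ⟨C, hC, HU⟩ := H731A.AA_upper K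
  refine ⟨c0 / 13, C * 13, by positivity, by positivity, ?_⟩
  intro m n a b c d hm hn h1 h2 hab hbc hcd hda
  have hl := HL m n a b c d hm hn h1 h2 hab hbc hcd hda
  have hu := HU m n a b c d hm hn h1 h2 hab hbc hcd hda
  obtain ⟨k1, k2⟩ := H731A.alg_sz hm hn hab hbc hcd hda
  set D := min (c - b) (a + 2 * (m + n) - d) with hD
  have hp1 := AF_nonneg (r := rho m n a) (p := b - a + 1) (D := D) (rho_nonneg hm hn _)
    (by omega) (by omega)
  have hp2 := AF_nonneg (r := rho m n d) (p := d - c + 1) (D := D) (rho_nonneg hm hn _)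
    (by omega) (by omega)
  have hs : ∀ i j, (0 : ℝ) < sz m n i j := fun i j => by
    exact_mod_cast (by linarith [sz_pos hm hn i j] : (0 : ℤ) < sz m n i j)
  have he : 0 ≤ eta m n a b c d := by
    unfold eta
    have := hs a b; have := hs c d; have := hs a c; have := hs b d
    positivity
  have t1 : (eta m n a b c d) ^ ((1 : ℝ) / 3) ≤ 13 * (AF (rho m n a) (b - a + 1) D *
      AF (rho m n d) (d - c + 1) D) ^ ((1 : ℝ) / 3) := by
    apply third_mono he (by positivity) (by norm_num)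
    refine le_trans k1 ?_
    nlinarith [mul_nonneg hp1 hp2]
  have t2 : (AF (rho m n a) (b - a + 1) D * AF (rho m n d) (d - c + 1) D) ^ ((1 : ℝ) / 3) ≤
      13 * (eta m n a b c d) ^ ((1 : ℝ) / 3) := by
    apply third_mono (by positivity) he (by norm_num)
    refine le_trans k2 ?_
    change 2000 * eta m n a b c d ≤ _
    nlinarith
  constructor
  · refine le_trans ?_ hl
    calc c0 / 13 * (eta m n a b c d) ^ ((1 : ℝ) / 3) ≤ c0 / 13 * (13 * (AF (rho m n a)
          (b - a + 1) D * AF (rho m n d) (d - c + 1) D) ^ ((1 : ℝ) / 3)) :=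
          mul_le_mul_of_nonneg_left t1 (by positivity)
      _ = _ := by ring
  · refine le_trans hu ?_
    calc C * (AF (rho m n a) (b - a + 1) D * AF (rho m n d) (d - c + 1) D) ^ ((1 : ℝ) / 3)
        ≤ C * (13 * (eta m n a b c d) ^ ((1 : ℝ) / 3)) :=
          mul_le_mul_of_nonneg_left t2 hC.le
      _ = _ := by ring

/-! ### Sizes -/

theorem sz_symm {m n : ℤ} (hm : 1 ≤ m) (hn : 1 ≤ n) (i j : ℤ) : sz m n i j = sz m n j i := by
  have hN : 0 < 2 * (m + n) := by omega
  have : cd (2 * (m + n)) (j - i) = cd (2 * (m + n)) (i - j) := by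
    rw [← cd_neg hN, neg_sub]
  unfold sz
  rw [this]
  ring

theorem sz_period (m n i j k l : ℤ) :
    sz m n (i + k * (2 * (m + n))) (j + l * (2 * (m + n))) = sz m n i j := by
  have e : j + l * (2 * (m + n)) - (i + k * (2 * (m + n))) = (j - i) + (l - k) * (2 * (m + n)) := by
    ring
  unfold sz
  rw [rho_period, rho_period, e, cd_period]

theorem sz_step {m n : ℤ} (hm : 1 ≤ m) (hn : 1 ≤ n) (i j j' : ℤ) (h : |j - j'| ≤ 1) :
    sz m n i j ≤ 6 * sz m n i j' := by
  have hN : 0 < 2 * (m + n) := by omega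
  have c1 := cd_nonneg hN (j - i)
  have c2 := cd_nonneg hN (j' - i)
  have c3 := cd_le_abs hN (j - j')
  have c4 := cd_add hN (j' - i) (j - j')
  have e : j' - i + (j - j') = j - i := by ring
  rw [e] at c4
  have c5 := rho_lip hm hn j j'
  have c6 := rho_nonneg hm hn i
  have c7 := rho_nonneg hm hn j
  have c8 := rho_nonneg hm hn j'
  unfold sz
  set t := cd (2 * (m + n)) (j - i) + 1 with ht
  set t' := cd (2 * (m + n)) (j' - i) + 1 with ht'
  set r := rho m n i
  set s := rho m n j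
  set s' := rho m n j'
  have g1 : t ≤ 2 * t' := by omega
  have g2 : t + r + s ≤ 3 * (t' + r + s') := by omega
  have g3 : 0 ≤ t + r + s := by omega
  calc t * (t + r + s) ≤ (2 * t') * (3 * (t' + r + s')) :=
        mul_le_mul g1 g2 g3 (by omega)
    _ = 6 * (t' * (t' + r + s')) := by ring

theorem sz_le {m n B : ℤ} (hm : 1 ≤ m) (hn : 1 ≤ n) (h1 : m ≤ B) (h2 : n ≤ B) (i j : ℤ) :
    sz m n i j ≤ (2 * B + 1) * (6 * B + 1) := by
  have hN : 0 < 2 * (m + n) := by omega
  have c1 := cd_nonneg hN (j - i)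
  have c2 := cd_half (N := 2 * (m + n)) (j - i)
  have r : ∀ i, rho m n i ≤ 2 * B := by
    intro i
    have := cd_half (N := 2 * (m + n)) i
    unfold rho
    omega
  have c6 := rho_nonneg hm hn i
  have c7 := rho_nonneg hm hn j
  unfold sz
  apply mul_le_mul (by omega) (by have := r i; have := r j; omega) (by omega) (by omega)

end H731A
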