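import Pool.Agent.H731R4.Arcs.Defs2

/-!
Task ST: the indices of the inner faces, comparison of the sizes.
-/

namespace H731A

open H974 H731C H731R Finset

namespace Star

/-- number of corners passed -/
def dlt (m n r : ℤ) : ℤ := (if m ≤ r then 1 else 0) + (if m + n ≤ r then 1 else 0) +
    (if 2 * m + n ≤ r then 1 else 0)

theorem dlt_spec {m n : ℤ} (hm : 2 ≤ m) (hn : 2 ≤ n) (r : ℤ) :
    (dlt m n r = 0 ∧ r < m) ∨ (dlt m n r = 1 ∧ m ≤ r ∧ r < m + n) ∨
      (dlt m n r = 2 ∧ m + n ≤ r ∧ r < 2 * m + n) ∨ (dlt m n r = 3 ∧ 2 * m + n ≤ r) := by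
  unfold dlt
  split_ifs <;> omega

theorem st_eq {m n : ℤ} (k r : ℤ) (h0 : 0 ≤ r) (h1 : r < 2 * (m + n)) :
    st m n (r + k * (2 * (m + n))) = (2 * (m + n) - 4) * k + r - dlt m n r := by
  have e1 : (r + k * (2 * (m + n))) % (2 * (m + n)) = r := by
    rw [Int.add_mul_emod_self_right]
    exact Int.emod_eq_of_lt h0 h1
  have e2 : (r + k * (2 * (m + n))) / (2 * (m + n)) = k := by
    rw [Int.add_mul_ediv_right _ _ (by omega), Int.ediv_eq_zero_of_lt h0 h1, zero_add]
  unfold st dlt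
  rw [e1, e2]
  ring

theorem st_period' {m n : ℤ} (hm : 2 ≤ m) (hn : 2 ≤ n) (i l : ℤ) :
    st m n (i + l * (2 * (m + n))) = st m n i + l * (2 * ((m - 1) + (n - 1))) := by
  obtain ⟨k, h0, h1, h2⟩ := emod_spec (N := 2 * (m + n)) (by omega) i
  generalize i % (2 * (m + n)) = r at h0 h1 h2
  have e : i + l * (2 * (m + n)) = r + (k + l) * (2 * (m + n)) := by rw [h0]; ring
  rw [e, st_eq _ _ h1 h2, h0, st_eq _ _ h1 h2]
  ring

end Star

theorem st_period {m n : ℤ} (hm : 2 ≤ m) (hn : 2 ≤ n) (i : ℤ) :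
    st m n (i + 2 * (m + n)) = st m n i + 2 * ((m - 1) + (n - 1)) := by
  have h := Star.st_period' hm hn i 1
  rwa [one_mul, one_mul] at h

theorem st_succ {m n : ℤ} (hm : 2 ≤ m) (hn : 2 ≤ n) (i : ℤ) :
    st m n i ≤ st m n (i + 1) ∧ st m n (i + 1) ≤ st m n i + 1 ∧
      st m n i + 1 ≤ st m n (i + 2) := by
  obtain ⟨k, h0, h1, h2⟩ := emod_spec (N := 2 * (m + n)) (by omega) i
  generalize i % (2 * (m + n)) = r at h0 h1 h2
  subst h0
  have e1 : ∀ s : ℤ, r + k * (2 * (m + n)) + s = (r + s) + k * (2 * (m + n)) := fun s => by ring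
  have e2 : ∀ s : ℤ, r + k * (2 * (m + n)) + s =
      (r + s - 2 * (m + n)) + (k + 1) * (2 * (m + n)) := fun s => by ring
  have e3 : (2 * (m + n) - 4) * (k + 1) = (2 * (m + n) - 4) * k + (2 * (m + n) - 4) := by ring
  have d0 := Star.dlt_spec hm hn r
  rw [Star.st_eq k r h1 h2]
  rcases lt_trichotomy (r + 2) (2 * (m + n)) with h | h | h
  · have d1 := Star.dlt_spec hm hn (r + 1)
    have d2 := Star.dlt_spec hm hn (r + 2)
    rw [e1 1, e1 2, Star.st_eq k (r + 1) (by omega) (by omega),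
      Star.st_eq k (r + 2) (by omega) h]
    generalize (2 * (m + n) - 4) * k = A
    omega
  · have d1 := Star.dlt_spec hm hn (r + 1)
    have d2 := Star.dlt_spec hm hn (r + 2 - 2 * (m + n))
    rw [e1 1, e2 2, Star.st_eq k (r + 1) (by omega) (by omega),
      Star.st_eq (k + 1) (r + 2 - 2 * (m + n)) (by omega) (by omega), e3]
    generalize (2 * (m + n) - 4) * k = A
    omega
  · have d1 := Star.dlt_spec hm hn (r + 1 - 2 * (m + n))
    have d2 := Star.dlt_spec hm hn (r + 2 - 2 * (m + n))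
    rw [e2 1, e2 2, Star.st_eq (k + 1) (r + 1 - 2 * (m + n)) (by omega) (by omega),
      Star.st_eq (k + 1) (r + 2 - 2 * (m + n)) (by omega) (by omega), e3]
    generalize (2 * (m + n) - 4) * k = A
    omega

namespace Star

theorem ifc_eq {m n : ℤ} (hm : 2 ≤ m) (hn : 2 ≤ n) (i : ℤ) :
    ifc m n i = bd (m - 1) (n - 1) (st m n i) := by
  obtain ⟨k, h0, h1, h2⟩ := emod_spec (N := 2 * (m + n)) (by omega) i
  have h3 : i % (2 * (m + n)) = i % (2 * (m + n)) := rfl
  generalize hr : i % (2 * (m + n)) = r at h0 h1 h2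
  have e : st m n i = (r - dlt m n r) + k * (2 * ((m - 1) + (n - 1))) := by
    rw [h0, st_eq _ _ h1 h2]
    ring
  rw [e, bd_period]
  unfold ifc
  rw [hr]
  rcases dlt_spec hm hn r with ⟨h, h4⟩ | ⟨h, h4, h5⟩ | ⟨h, h4, h5⟩ | ⟨h, h4⟩
  · rw [h, bd_bot (by omega) (by omega) (by omega) (by omega), if_pos h4]
    ext <;> simp
  · rw [h, bd_right (by omega) (by omega) (by omega) (by omega), if_neg (by omega), if_pos h5]
    ext
    · simp
    · simp only; ring
  · rw [h, bd_top (by omega) (by omega) (by omega) (by omega), if_neg (by omega),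
      if_neg (by omega), if_pos h5]
    ext
    · simp only; ring
    · simp
  · rw [h, bd_left (by omega) (by omega) (by omega) (by omega), if_neg (by omega),
      if_neg (by omega), if_neg (by omega)]
    ext
    · simp
    · simp only; ring

theorem st_mono {m n : ℤ} (hm : 2 ≤ m) (hn : 2 ≤ n) : Monotone (st m n) :=
  monotone_int_of_le_succ fun i => (st_succ hm hn i).1

theorem E_mono {m n : ℤ} (hm : 2 ≤ m) (hn : 2 ≤ n) : Monotone (fun i => i - st m n i) :=
  monotone_int_of_le_succ fun i => by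
    have := (st_succ hm hn i).2.1
    omega

/-- discrete intermediate values -/
theorem st_ivt {m n : ℤ} (hm : 2 ≤ m) (hn : 2 ≤ n) (x : ℤ) (s : ℕ) :
    ∀ t, st m n x ≤ t → t ≤ st m n (x + s) → ∃ z, x ≤ z ∧ z ≤ x + s ∧ st m n z = t := by
  induction s with
  | zero =>
    intro t h1 h2
    refine ⟨x, le_rfl, by simp, ?_⟩
    simp at h2
    omega
  | succ s ih =>
    intro t h1 h2
    by_cases h : t ≤ st m n (x + s)
    · obtain ⟨z, hz1, hz2, hz3⟩ := ih t h1 h
      exact ⟨z, hz1, by push_cast; omega, hz3⟩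
    · have h4 := (st_succ hm hn (x + s)).2.1
      have e : x + ((s + 1 : ℕ) : ℤ) = x + s + 1 := by push_cast; ring
      rw [e] at h2
      exact ⟨x + s + 1, by omega, by push_cast; omega, by omega⟩

end Star

theorem FA_iff {m n b c d e : ℤ} (hm : 2 ≤ m) (hn : 2 ≤ n) (hbc : b < c) (hde : d < e)
    (F : Finset Edg) :
    FA m n b c d e F ↔
      AA (m - 1) (n - 1) (st m n b) (st m n (c - 1)) (st m n d) (st m n (e - 1)) F := by
  constructor
  · rintro ⟨i, j, hi, hj, h⟩
    rw [Star.ifc_eq hm hn, Star.ifc_eq hm hn] at h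
    have hmono := Star.st_mono hm hn
    exact ⟨st m n i, st m n j, ⟨hmono hi.1, hmono (by omega)⟩, ⟨hmono hj.1, hmono (by omega)⟩, h⟩
  · rintro ⟨i', j', hi, hj, h⟩
    obtain ⟨s, hs⟩ := Int.eq_ofNat_of_zero_le (show 0 ≤ c - 1 - b by omega)
    obtain ⟨t, ht⟩ := Int.eq_ofNat_of_zero_le (show 0 ≤ e - 1 - d by omega)
    obtain ⟨i, hi1, hi2, rfl⟩ := Star.st_ivt hm hn b s i' hi.1 (by
      rw [← hs]; convert hi.2 using 2; ring)
    obtain ⟨j, hj1, hj2, rfl⟩ := Star.st_ivt hm hn d t j' hj.1 (by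
      rw [← ht]; convert hj.2 using 2; ring)
    refine ⟨i, j, ⟨hi1, by omega⟩, ⟨hj1, by omega⟩, ?_⟩
    rw [Star.ifc_eq hm hn, Star.ifc_eq hm hn]
    exact h

namespace Star

/-- `st` is 1-Lipschitz -/
theorem st_abs {m n : ℤ} (hm : 2 ≤ m) (hn : 2 ≤ n) (i j : ℤ) :
    |st m n j - st m n i| ≤ |j - i| := by
  rcases le_total i j with h | h
  · have h1 := st_mono hm hn h
    have h2 := E_mono hm hn h
    simp only at h2
    rw [abs_of_nonneg (by omega), abs_of_nonneg (by omega)]
    omega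
  · have h1 := st_mono hm hn h
    have h2 := E_mono hm hn h
    simp only at h2
    rw [abs_of_nonpos (by omega), abs_of_nonpos (by omega)]
    omega

/-- lower bound -/
theorem st_abs_ge {m n : ℤ} (hm : 2 ≤ m) (hn : 2 ≤ n) {i j : ℤ}
    (h : |st m n j - st m n i| < 2 * ((m - 1) + (n - 1))) :
    |j - i| ≤ |st m n j - st m n i| + 4 := by
  have key : ∀ i j : ℤ, i ≤ j → |st m n j - st m n i| < 2 * ((m - 1) + (n - 1)) →
      |j - i| ≤ |st m n j - st m n i| + 4 := by
    intro i j hij h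
    have h1 := st_mono hm hn hij
    rw [abs_of_nonneg (by omega)] at h ⊢
    rw [abs_of_nonneg (by omega)]
    have hlt : j < i + 2 * (m + n) := by
      by_contra hcon
      have h3 := st_mono hm hn (show i + 2 * (m + n) ≤ j by omega)
      rw [st_period hm hn] at h3
      omega
    have h4 := E_mono hm hn hlt.le
    simp only at h4
    rw [st_period hm hn] at h4
    omega
  rcases le_total i j with hij | hij
  · exact key i j hij h
  · rw [abs_sub_comm (st m n j), abs_sub_comm j]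
    rw [abs_sub_comm (st m n j)] at h
    exact key j i hij h

theorem cd_star {m n : ℤ} (hm : 2 ≤ m) (hn : 2 ≤ n) (i j : ℤ) :
    cd (2 * ((m - 1) + (n - 1))) (st m n j - st m n i) ≤ cd (2 * (m + n)) (j - i) ∧
    cd (2 * (m + n)) (j - i) ≤ cd (2 * ((m - 1) + (n - 1))) (st m n j - st m n i) + 4 := by
  have hN : 0 < 2 * (m + n) := by omega
  have hN' : 0 < 2 * ((m - 1) + (n - 1)) := by omega
  constructor
  · obtain ⟨l, hl⟩ := cd_exists hN (j - i)
    have h1 := cd_le hN' (st m n j - st m n i) l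
    have h2 := st_abs hm hn i (j + (-l) * (2 * (m + n)))
    rw [st_period' hm hn] at h2
    rw [hl]
    calc _ ≤ _ := h1
      _ = |st m n j + -l * (2 * (m - 1 + (n - 1))) - st m n i| := by congr 1; ring
      _ ≤ _ := h2
      _ = _ := by congr 1; ring
  · obtain ⟨l, hl⟩ := cd_exists hN' (st m n j - st m n i)
    have h1 := cd_le hN (j - i) l
    have h3 := cd_half (N := 2 * ((m - 1) + (n - 1))) (st m n j - st m n i)
    have e : st m n j - st m n i - l * (2 * (m - 1 + (n - 1))) =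
        st m n (j + (-l) * (2 * (m + n))) - st m n i := by
      rw [st_period' hm hn]; ring
    rw [e] at hl
    have h2 := st_abs_ge hm hn (i := i) (j := j + (-l) * (2 * (m + n))) (by omega)
    rw [← hl] at h2
    calc _ ≤ _ := h1
      _ = |j + -l * (2 * (m + n)) - i| := by congr 1; ring
      _ ≤ _ := h2

theorem st_corner {m n : ℤ} (hm : 2 ≤ m) (hn : 2 ≤ n) :
    st m n 0 = 0 ∧ st m n m = m - 1 ∧ st m n (m + n) = (m - 1) + (n - 1) ∧
      st m n (2 * m + n) = 2 * (m - 1) + (n - 1) := by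
  have h : ∀ r, 0 ≤ r → r < 2 * (m + n) → st m n r = r - dlt m n r := by
    intro r h0 h1
    have := st_eq 0 r h0 h1
    rw [zero_mul, add_zero, mul_zero, zero_add] at this
    exact this
  refine ⟨?_, ?_, ?_, ?_⟩
  · have := dlt_spec hm hn 0
    rw [h 0 le_rfl (by omega)]; omega
  · have := dlt_spec hm hn m
    rw [h m (by omega) (by omega)]; omega
  · have := dlt_spec hm hn (m + n)
    rw [h (m + n) (by omega) (by omega)]; omega
  · have := dlt_spec hm hn (2 * m + n)
    rw [h (2 * m + n) (by omega) (by omega)]; omega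

theorem rho_star {m n : ℤ} (hm : 2 ≤ m) (hn : 2 ≤ n) (i : ℤ) :
    rho (m - 1) (n - 1) (st m n i) ≤ rho m n i ∧
      rho m n i ≤ rho (m - 1) (n - 1) (st m n i) + 4 := by
  obtain ⟨c0, c1, c2, c3⟩ := st_corner hm hn
  have h0 := cd_star hm hn 0 i
  have h1 := cd_star hm hn m i
  have h2 := cd_star hm hn (m + n) i
  have h3 := cd_star hm hn (2 * m + n) i
  rw [c0, sub_zero, sub_zero] at h0
  rw [c1] at h1
  rw [c2] at h2
  rw [c3] at h3
  unfold rho
  omega

end Star

theorem sz_star {m n : ℤ} (hm : 2 ≤ m) (hn : 2 ≤ n) (i j : ℤ) :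
    sz (m - 1) (n - 1) (st m n i) (st m n j) ≤ 100 * sz m n i j ∧
      sz m n i j ≤ 100 * sz (m - 1) (n - 1) (st m n i) (st m n j) := by
  obtain ⟨h1, h2⟩ := Star.cd_star hm hn i j
  obtain ⟨h3, h4⟩ := Star.rho_star hm hn i
  obtain ⟨h5, h6⟩ := Star.rho_star hm hn j
  have p0 := cd_nonneg (N := 2 * ((m - 1) + (n - 1))) (by omega) (st m n j - st m n i)
  have p1 := rho_nonneg (m := m - 1) (n := n - 1) (by omega) (by omega) (st m n i)
  have p2 := rho_nonneg (m := m - 1) (n := n - 1) (by omega) (by omega) (st m n j)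
  unfold sz
  generalize cd (2 * ((m - 1) + (n - 1))) (st m n j - st m n i) = x at *
  generalize cd (2 * (m + n)) (j - i) = y at *
  generalize rho (m - 1) (n - 1) (st m n i) = u at *
  generalize rho (m - 1) (n - 1) (st m n j) = v at *
  generalize rho m n i = u' at *
  generalize rho m n j = v' at *
  constructor
  · have e1 : x + 1 ≤ y + 1 := by omega
    have e2 : x + 1 + u + v ≤ y + 1 + u' + v' := by omega
    have e3 : (x + 1) * (x + 1 + u + v) ≤ (y + 1) * (y + 1 + u' + v') :=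
      mul_le_mul e1 e2 (by omega) (by omega)
    have e4 : 0 ≤ (y + 1) * (y + 1 + u' + v') := mul_nonneg (by omega) (by omega)
    linarith
  · have e1 : y + 1 ≤ 5 * (x + 1) := by omega
    have e2 : y + 1 + u' + v' ≤ 13 * (x + 1 + u + v) := by omega
    have e3 : (y + 1) * (y + 1 + u' + v') ≤ (5 * (x + 1)) * (13 * (x + 1 + u + v)) :=
      mul_le_mul e1 e2 (by omega) (by omega)
    have e4 : 0 ≤ (x + 1) * (x + 1 + u + v) := mul_nonneg (by omega) (by omega)
    nlinarith

end H731A
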