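import Pool.Agent.H731R4.Arcs.DTra
import Pool.Agent.H731R4.Arcs.Star
import Pool.Agent.H731R4.Arcs.Final

/-!
Crossings between disjoint arcs of the boundary of a rectangle: the complement.
-/

namespace H731A

open H974 H731C H731R Finset

open Fin1

theorem full_path {m n x y x' y' : ℤ} (hx : 0 ≤ x ∧ x ≤ m) (hy : 0 ≤ y ∧ y ≤ n)
    (hx' : 0 ≤ x' ∧ x' ≤ m) (hy' : 0 ≤ y' ∧ y' ≤ n) :
    Reach (↑(RE 0 m 0 n)) (x, y) (x', y') := by
  have h1 := M_vert (n := n) hx.1 hx.2 y.toNat (by omega)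
  rw [Int.toNat_of_nonneg hy.1] at h1
  have h2 := M_vert (n := n) hx'.1 hx'.2 y'.toNat (by omega)
  rw [Int.toNat_of_nonneg hy'.1] at h2
  refine h1.symm.trans (Reach.trans ?_ h2)
  rcases le_total x x' with h | h
  · have h3 := M_hor (m := m) (n := n) (x := x) (y := 0) le_rfl (by omega) hx.1
      (x' - x).toNat (by omega)
    rw [Int.toNat_of_nonneg (by omega)] at h3
    have e : x + (x' - x) = x' := by ring
    rwa [e] at h3
  · have h3 := M_hor (m := m) (n := n) (x := x') (y := 0) le_rfl (by omega) hx'.1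
      (x - x').toNat (by omega)
    rw [Int.toNat_of_nonneg (by omega)] at h3
    have e : x' + (x - x') = x := by ring
    rw [e] at h3
    exact h3.symm

theorem ifc_mem {m n : ℤ} (hm : 1 ≤ m) (hn : 1 ≤ n) (i : ℤ) :
    (0 ≤ (ifc m n i).1 ∧ (ifc m n i).1 ≤ m - 1) ∧ (0 ≤ (ifc m n i).2 ∧ (ifc m n i).2 ≤ n - 1) := by
  obtain ⟨k, h0, h1, h2⟩ := emod_spec (N := 2 * (m + n)) (by omega) i
  unfold ifc
  split_ifs <;> simp only <;> omega

theorem FA_full {m n b c d e : ℤ} (hm : 1 ≤ m) (hn : 1 ≤ n) (hbc : b < c) (hde : d < e) :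
    FA m n b c d e (RE 0 (m - 1) 0 (n - 1)) := by
  refine ⟨b, d, ⟨le_rfl, hbc⟩, ⟨le_rfl, hde⟩, ?_⟩
  rw [Set.inter_self]
  obtain ⟨h1, h2⟩ := ifc_mem hm hn b
  obtain ⟨h3, h4⟩ := ifc_mem hm hn d
  exact full_path h1 h2 h3 h4

theorem FA_small (M : ℕ) : ∃ c0 : ℝ, 0 < c0 ∧ ∀ m n b c d e : ℤ, 1 ≤ m → 1 ≤ n → m ≤ M →
    n ≤ M → b < c → d < e → c0 ≤ P2 (RE 0 (m - 1) 0 (n - 1)) (FA m n b c d e) := by
  refine ⟨(1/2 : ℝ) ^ (RE 0 M 0 M).card, by positivity, ?_⟩
  intro m n b c d e hm hn hmM hnM hbc hde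
  refine le_trans ?_ (M_full _ (FA_full hm hn hbc hde))
  apply pow_le_pow_of_le_one (by norm_num) (by norm_num)
  exact Finset.card_le_card (RE_mono4 le_rfl (by omega) le_rfl (by omega))

theorem P2_true {S : Finset Edg} {A : Finset Edg → Prop} (h : ∀ F, A F) : P2 S A = 1 :=
  Pr_true S fun F _ => h F

theorem st_mono {m n : ℤ} (hm : 2 ≤ m) (hn : 2 ≤ n) {i j : ℤ} (h : i ≤ j) :
    st m n i ≤ st m n j := by
  obtain ⟨k, rfl⟩ : ∃ k : ℕ, j = i + k := ⟨(j - i).toNat, by omega⟩
  induction k with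
  | zero => simp
  | succ k ih =>
    have h1 := ih (by omega)
    have h2 := (H731A.st_succ hm hn (i + k)).1
    push_cast
    rw [← add_assoc]
    omega

theorem st_eq {m n : ℤ} (hm : 2 ≤ m) (hn : 2 ≤ n) {i j : ℤ} (h : i ≤ j)
    (he : st m n i = st m n j) : j ≤ i + 1 := by
  by_contra hc
  have h1 := (H731A.st_succ hm hn i).2.2
  have h2 := st_mono hm hn (i := i + 2) (j := j) (by omega)
  omega

/-- The complementary cross ratio. -/
noncomputable def eta' (m n a b c d : ℤ) : ℝ :=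
  ((sz m n b c : ℝ) * sz m n d a) / ((sz m n a c : ℝ) * sz m n b d)

theorem ratio_comp {x1 x2 x3 x4 y1 y2 y3 y4 k1 k2 k3 k4 : ℝ} (hx1 : 0 < x1) (hx2 : 0 < x2)
    (hx3 : 0 < x3) (hx4 : 0 < x4) (hy1 : 0 < y1) (hy2 : 0 < y2) (hy3 : 0 < y3) (hy4 : 0 < y4)
    (h1 : x1 ≤ k1 * y1) (h2 : x2 ≤ k2 * y2) (h3 : y3 ≤ k3 * x3) (h4 : y4 ≤ k4 * x4) :
    (x1 * x2) / (x3 * x4) ≤ (k1 * k2 * k3 * k4) * ((y1 * y2) / (y3 * y4)) := by
  have e : (k1 * k2 * k3 * k4) * ((y1 * y2) / (y3 * y4)) =
      ((k1 * y1) * (k2 * y2)) * ((k3 * k4) / (y3 * y4)) := by ring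
  have e2 : (x1 * x2) / (x3 * x4) = (x1 * x2) * (1 / (x3 * x4)) := by ring
  rw [e, e2]
  have k3p : 0 < k3 := by
    by_contra hc
    push Not at hc
    nlinarith [mul_nonpos_of_nonpos_of_nonneg hc hx3.le]
  have k4p : 0 < k4 := by
    by_contra hc
    push Not at hc
    nlinarith [mul_nonpos_of_nonpos_of_nonneg hc hx4.le]
  have g1 : x1 * x2 ≤ (k1 * y1) * (k2 * y2) := mul_le_mul h1 h2 hx2.le (hx1.le.trans h1)
  have g2 : 1 / (x3 * x4) ≤ (k3 * k4) / (y3 * y4) := by
    rw [div_le_div_iff₀ (by positivity) (by positivity)]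
    calc 1 * (y3 * y4) = y3 * y4 := one_mul _
      _ ≤ (k3 * x3) * (k4 * x4) := mul_le_mul h3 h4 hy4.le (by positivity)
      _ = k3 * k4 * (x3 * x4) := by ring
  exact mul_le_mul g1 g2 (by positivity) ((by positivity : (0 : ℝ) ≤ x1 * x2).trans g1)

/-- The complement of a crossing event. -/
theorem compl_eta (K : ℕ) : ∃ c0 C : ℝ, 0 < c0 ∧ 0 < C ∧ ∀ m n a b c d : ℤ, 1 ≤ m → 1 ≤ n →
    m ≤ K * n → n ≤ K * m → a ≤ b → b < c → c ≤ d → d < a + 2 * (m + n) →
    c0 * (eta' m n a b c d) ^ ((1 : ℝ) / 3) ≤ 1 - P2 (RE 0 m 0 n) (AA m n a b c d) ∧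
      1 - P2 (RE 0 m 0 n) (AA m n a b c d) ≤ C * (eta' m n a b c d) ^ ((1 : ℝ) / 3) := by
  obtain ⟨c1, C1, hc1, hC1, H⟩ := AA_eta (2 * K)
  obtain ⟨c2, hc2, HS⟩ := FA_small (K + 1)
  set B : ℝ := (2 * (K + 1) + 1) * (6 * (K + 1) + 1) with hB
  have hB1 : 1 ≤ B := by
    rw [hB]
    have : (0 : ℝ) ≤ K := Nat.cast_nonneg K
    nlinarith
  refine ⟨min (min (c1 / 4 / 6000) (1 / 4)) (c2 / 4 / B), max (max (C1 * 6000) 1) B,
    lt_min (lt_min (by positivity) (by positivity)) (by positivity),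
    lt_max_of_lt_right (by positivity), ?_⟩
  intro m n a b c d hm hn h1 h2 hab hbc hcd hda
  obtain ⟨g1, g2⟩ := H731A.compl_bounds hm hn hab hbc hcd hda
  set P' := P2 (RE 0 (m - 1) 0 (n - 1)) (FA m n b c d (a + 2 * (m + n))) with hP'
  set Q := 1 - P2 (RE 0 m 0 n) (AA m n a b c d) with hQ
  have hs : ∀ i j, (0 : ℝ) < sz m n i j := fun i j => by
    exact_mod_cast (by linarith [sz_pos hm hn i j] : (0 : ℤ) < sz m n i j)
  have he : 0 < eta' m n a b c d := by
    unfold eta'
    have := hs b c; have := hs d a; have := hs a c; have := hs b d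
    positivity
  have he3 : 0 ≤ (eta' m n a b c d) ^ ((1 : ℝ) / 3) := Real.rpow_nonneg he.le _
  have hQ1 : Q ≤ 1 := by
    have : 0 ≤ P2 (RE 0 m 0 n) (AA m n a b c d) := Pr_nonneg okhalf2 _ _
    linarith
  by_cases hsm : m = 1 ∨ n = 1
  · have hmK : m ≤ K + 1 := by
      rcases hsm with h | h
      · omega
      · rw [h] at h1; omega
    have hnK : n ≤ K + 1 := by
      rcases hsm with h | h
      · rw [h] at h2; omega
      · omega
    have hsB : ∀ i j, (sz m n i j : ℝ) ≤ B := fun i j => by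
      have := sz_le hm hn hmK hnK i j
      rw [hB]
      exact_mod_cast this
    have hs1 : ∀ i j, (1 : ℝ) ≤ sz m n i j := fun i j => by
      exact_mod_cast sz_pos hm hn i j
    have r1 : eta' m n a b c d ≤ B ^ 3 * 1 := by
      unfold eta'
      rw [div_le_iff₀ (by have := hs a c; have := hs b d; positivity)]
      have t1 : (sz m n b c : ℝ) * sz m n d a ≤ B * B :=
        mul_le_mul (hsB _ _) (hsB _ _) (hs _ _).le (by positivity)
      have t2 : (1 : ℝ) * 1 ≤ (sz m n a c : ℝ) * sz m n b d :=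
        mul_le_mul (hs1 _ _) (hs1 _ _) (by norm_num) (hs _ _).le
      have t3 : B * B ≤ B ^ 3 := by
        have t5 : B * B * 1 ≤ B * B * B := mul_le_mul_of_nonneg_left hB1 (by positivity)
        calc B * B = B * B * 1 := by ring
          _ ≤ B * B * B := t5
          _ = B ^ 3 := by ring
      have t4 := mul_le_mul_of_nonneg_left t2 (by positivity : 0 ≤ B ^ 3)
      linarith
    have r2 : 1 ≤ B ^ 3 * eta' m n a b c d := by
      unfold eta'
      rw [← mul_div_assoc, le_div_iff₀ (by have := hs a c; have := hs b d; positivity)]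
      have t1 : (sz m n a c : ℝ) * sz m n b d ≤ B * B :=
        mul_le_mul (hsB _ _) (hsB _ _) (hs _ _).le (by positivity)
      have t2 : (1 : ℝ) * 1 ≤ (sz m n b c : ℝ) * sz m n d a :=
        mul_le_mul (hs1 _ _) (hs1 _ _) (by norm_num) (hs _ _).le
      have t3 : B * B ≤ B ^ 3 := by
        have t5 : B * B * 1 ≤ B * B * B := mul_le_mul_of_nonneg_left hB1 (by positivity)
        calc B * B = B * B * 1 := by ring
          _ ≤ B * B * B := t5
          _ = B ^ 3 := by ring
      have t4 := mul_le_mul_of_nonneg_left t2 (by positivity : 0 ≤ B ^ 3)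
      linarith
    have s1 := third_mono he.le zero_le_one (by positivity : 0 ≤ B) r1
    have s2 := third_mono zero_le_one he.le (by positivity : 0 ≤ B) r2
    rw [Real.one_rpow] at s1 s2
    have hP2 := HS m n b c d (a + 2 * (m + n)) hm hn hmK hnK hbc (by omega)
    rw [← hP'] at hP2
    constructor
    · calc min (min (c1 / 4 / 6000) (1 / 4)) (c2 / 4 / B) * (eta' m n a b c d) ^ ((1 : ℝ) / 3)
          ≤ (c2 / 4 / B) * (B * 1) := mul_le_mul (min_le_right _ _) s1 he3 (by positivity)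
        _ = 1 / 4 * c2 := by field_simp
        _ ≤ Q := by linarith
    · calc Q ≤ 1 := hQ1
        _ ≤ B * (eta' m n a b c d) ^ ((1 : ℝ) / 3) := s2
        _ ≤ _ := mul_le_mul_of_nonneg_right (le_max_right _ _) he3
  · push Not at hsm
    have hm2 : 2 ≤ m := by omega
    have hn2 : 2 ≤ n := by omega
    have hFA : ∀ F, FA m n b c d (a + 2 * (m + n)) F ↔ _ := fun F =>
      H731A.FA_iff (e := a + 2 * (m + n)) hm2 hn2 hbc (by omega) F
    set b1 := st m n b with hb1
    set c1' := st m n (c - 1) with hc1'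
    set d1 := st m n d with hd1
    set e1 := st m n (a + 2 * (m + n) - 1) with he1
    have hN' : e1 = st m n (a - 1) + 2 * ((m - 1) + (n - 1)) := by
      rw [he1, ← H731A.st_period hm2 hn2 (a - 1)]
      congr 1; ring
    have o1 : b1 ≤ c1' := st_mono hm2 hn2 (by omega)
    have o2 : c1' ≤ d1 := st_mono hm2 hn2 (by omega)
    have o3 : d1 ≤ e1 := st_mono hm2 hn2 (by omega)
    have o4 : e1 ≤ b1 + 2 * ((m - 1) + (n - 1)) := by
      have := st_mono hm2 hn2 (i := a - 1) (j := b) (by omega)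
      omega
    have hone : (∀ F, FA m n b c d (a + 2 * (m + n)) F) → eta' m n a b c d = 1 →
        min (min (c1 / 4 / 6000) (1 / 4)) (c2 / 4 / B) * (eta' m n a b c d) ^ ((1 : ℝ) / 3) ≤ Q ∧
        Q ≤ max (max (C1 * 6000) 1) B * (eta' m n a b c d) ^ ((1 : ℝ) / 3) := by
      intro hall heta
      have hP1 : P' = 1 := P2_true hall
      rw [heta, Real.one_rpow, mul_one, mul_one]
      constructor
      · refine le_trans ((min_le_left _ _).trans (min_le_right _ _)) ?_
        linarith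
      · exact le_trans hQ1 ((le_max_right _ _).trans (le_max_left _ _))
    by_cases k1 : c1' = d1
    · have hdc : d = c := by
        have := st_eq hm2 hn2 (i := c - 1) (j := d) (by omega) k1
        omega
      apply hone
      · intro F
        rw [hFA]
        refine ⟨c1', c1', ⟨o1, le_rfl⟩, ⟨k1.ge, by omega⟩, Reach.refl _ _⟩
      · unfold eta'
        rw [hdc, sz_symm hm hn c a, mul_comm (sz m n b c : ℝ)]
        have := hs a c
        have := hs b c
        exact div_self (by positivity)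
    by_cases k2 : e1 = b1 + 2 * ((m - 1) + (n - 1))
    · have hdc : b = a := by
        have := st_eq hm2 hn2 (i := a - 1) (j := b) (by omega) (by omega)
        omega
      apply hone
      · intro F
        rw [hFA]
        refine ⟨b1, e1, ⟨le_rfl, o1⟩, ⟨o3, le_rfl⟩, ?_⟩
        have : bd (m - 1) (n - 1) e1 = bd (m - 1) (n - 1) b1 := by
          rw [k2, ← bd_period (m - 1) (n - 1) b1 1, one_mul]
        rw [this]
        exact Reach.refl _ _
      · unfold eta'
        rw [hdc, sz_symm hm hn d a]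
        have := hs a c
        have := hs a d
        exact div_self (by positivity)
    have hPA : P' = P2 (RE 0 (m - 1) 0 (n - 1)) (AA (m - 1) (n - 1) b1 c1' d1 e1) :=
      Pr_congr fun F _ => hFA F
    have hK1 : m - 1 ≤ ((2 * K : ℕ) : ℤ) * (n - 1) := by push_cast; nlinarith
    have hK2 : n - 1 ≤ ((2 * K : ℕ) : ℤ) * (m - 1) := by push_cast; nlinarith
    obtain ⟨p1, p2⟩ := H (m - 1) (n - 1) b1 c1' d1 e1 (by omega) (by omega) hK1 hK2 o1
      (by omega) o3 (by omega)
    rw [← hPA] at p1 p2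
    set E := eta (m - 1) (n - 1) b1 c1' d1 e1 with hE
    have hs' : ∀ i j, (0 : ℝ) < sz (m - 1) (n - 1) i j := fun i j => by
      exact_mod_cast (by linarith [sz_pos (m := m - 1) (n := n - 1) (by omega) (by omega) i j] :
        (0 : ℤ) < sz (m - 1) (n - 1) i j)
    -- comparisons of sizes
    have cmp : ∀ i j i' j', |i - i'| ≤ 1 → |j - j'| ≤ 1 →
        (sz (m - 1) (n - 1) (st m n i') (st m n j') : ℝ) ≤ 3600 * sz m n i j ∧
        (sz m n i j : ℝ) ≤ 3600 * sz (m - 1) (n - 1) (st m n i') (st m n j') := by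
      intro i j i' j' hi hj
      obtain ⟨q1, q2⟩ := H731A.sz_star hm2 hn2 i' j'
      have q3 := sz_step hm hn i' j j' hj
      have q4 := sz_step hm hn i' j' j (by rw [abs_sub_comm]; exact hj)
      have q5 := sz_step hm hn j i i' hi
      have q6 := sz_step hm hn j i' i (by rw [abs_sub_comm]; exact hi)
      rw [sz_symm hm hn j i, sz_symm hm hn j i'] at q5 q6
      have w1 : sz (m - 1) (n - 1) (st m n i') (st m n j') ≤ 3600 * sz m n i j := by omega
      have w2 : sz m n i j ≤ 3600 * sz (m - 1) (n - 1) (st m n i') (st m n j') := by omega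
      constructor
      · exact_mod_cast w1
      · exact_mod_cast w2
    have cmp0 : ∀ i j, (sz (m - 1) (n - 1) (st m n i) (st m n j) : ℝ) ≤ 100 * sz m n i j ∧
        (sz m n i j : ℝ) ≤ 100 * sz (m - 1) (n - 1) (st m n i) (st m n j) := by
      intro i j
      obtain ⟨q1, q2⟩ := H731A.sz_star hm2 hn2 i j
      constructor
      · exact_mod_cast q1
      · exact_mod_cast q2
    have cmp1 : ∀ i j j', |j - j'| ≤ 1 →
        (sz (m - 1) (n - 1) (st m n i) (st m n j') : ℝ) ≤ 600 * sz m n i j ∧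
        (sz m n i j : ℝ) ≤ 600 * sz (m - 1) (n - 1) (st m n i) (st m n j') := by
      intro i j j' hj
      obtain ⟨q1, q2⟩ := H731A.sz_star hm2 hn2 i j'
      have q3 := sz_step hm hn i j j' hj
      have q4 := sz_step hm hn i j' j (by rw [abs_sub_comm]; exact hj)
      have w1 : sz (m - 1) (n - 1) (st m n i) (st m n j') ≤ 600 * sz m n i j := by omega
      have w2 : sz m n i j ≤ 600 * sz (m - 1) (n - 1) (st m n i) (st m n j') := by omega
      constructor
      · exact_mod_cast w1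
      · exact_mod_cast w2
    have per1 : sz m n d (a + 2 * (m + n)) = sz m n d a := by
      have := sz_period m n d a 0 1
      rw [← this]; congr 1 <;> ring
    have per2 : sz m n c (a + 2 * (m + n)) = sz m n a c := by
      have := sz_period m n c a 0 1
      rw [sz_symm hm hn a c, ← this]; congr 1 <;> ring
    obtain ⟨u1, v1⟩ := cmp1 b c (c - 1) (by simp)
    obtain ⟨u2, v2⟩ := cmp1 d (a + 2 * (m + n)) (a + 2 * (m + n) - 1) (by simp)
    obtain ⟨u3, v3⟩ := cmp0 b d
    obtain ⟨u4, v4⟩ := cmp c (a + 2 * (m + n)) (c - 1) (a + 2 * (m + n) - 1) (by simp) (by simp)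
    rw [per1] at u2 v2
    rw [per2] at u4 v4
    have f1 : E ≤ 6000 ^ 3 * eta' m n a b c d := by
      have := ratio_comp (hs' b1 c1') (hs' d1 e1) (hs' b1 d1) (hs' c1' e1) (hs b c) (hs d a)
        (hs b d) (hs a c) u1 u2 v3 v4
      rw [hE]
      unfold eta eta'
      rw [mul_comm (sz m n a c : ℝ)]
      refine le_trans this (mul_le_mul_of_nonneg_right (by norm_num) ?_)
      have := hs a c; have := hs b d; have := hs b c; have := hs d a
      positivity
    have f2 : eta' m n a b c d ≤ 6000 ^ 3 * E := by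
      have := ratio_comp (hs b c) (hs d a) (hs b d) (hs a c) (hs' b1 c1') (hs' d1 e1)
        (hs' b1 d1) (hs' c1' e1) v1 v2 u3 u4
      rw [hE]
      unfold eta eta'
      rw [mul_comm (sz m n a c : ℝ)]
      refine le_trans this (mul_le_mul_of_nonneg_right (by norm_num) ?_)
      have := hs' b1 c1'; have := hs' d1 e1; have := hs' b1 d1; have := hs' c1' e1
      positivity
    have hE0 : 0 ≤ E := by
      rw [hE]; unfold eta
      have := hs' b1 c1'; have := hs' d1 e1; have := hs' b1 d1; have := hs' c1' e1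
      positivity
    have w1 := third_mono hE0 he.le (by norm_num) f1
    have w2 := third_mono he.le hE0 (by norm_num) f2
    constructor
    · calc min (min (c1 / 4 / 6000) (1 / 4)) (c2 / 4 / B) * (eta' m n a b c d) ^ ((1 : ℝ) / 3)
          ≤ (c1 / 4 / 6000) * (6000 * E ^ ((1 : ℝ) / 3)) :=
            mul_le_mul ((min_le_left _ _).trans (min_le_left _ _)) w2 he3 (by positivity)
        _ = 1 / 4 * (c1 * E ^ ((1 : ℝ) / 3)) := by ring
        _ ≤ 1 / 4 * P' := by linarith
        _ ≤ Q := g1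
    · calc Q ≤ P' := g2
        _ ≤ C1 * E ^ ((1 : ℝ) / 3) := p2
        _ ≤ C1 * (6000 * (eta' m n a b c d) ^ ((1 : ℝ) / 3)) :=
            mul_le_mul_of_nonneg_left w1 hC1.le
        _ = (C1 * 6000) * (eta' m n a b c d) ^ ((1 : ℝ) / 3) := by ring
        _ ≤ _ := mul_le_mul_of_nonneg_right ((le_max_left _ _).trans (le_max_left _ _)) he3

end H731A
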