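import Pool.Agent.H731R4.Arcs.Defs2

/-!
Two arcs near a corner (task LC).
-/

namespace H731A

open H974 H731C H731R Finset

namespace LowC

/-- boundary points near the corner `0` -/
def pt (i : ℤ) : Vtx := if 0 ≤ i then (i, 0) else (0, -i)

/-- The arc `[a, b]` near the corner `0` is connected to the right or top side of
`[0, 3 r]²`. -/
def EA (r a b : ℤ) (F : Finset Edg) : Prop :=
  ∃ i v, (a ≤ i ∧ i ≤ b) ∧ onQ (3 * r) v ∧
    Reach (↑F ∩ ↑(RE 0 (3 * r) 0 (3 * r))) (pt i) v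

theorem EA_incr (S : Finset Edg) (r a b : ℤ) : IncrE S (EA r a b) := by
  rintro F G h _ ⟨u, v, h1, h2, h3⟩
  exact ⟨u, v, h1, h2, h3.mono (Set.inter_subset_inter_left _ (by exact_mod_cast h))⟩

theorem pt_nonneg {i : ℤ} (h : 0 ≤ i) : pt i = (i, 0) := if_pos h

theorem pt_nonpos {i : ℤ} (h : i ≤ 0) : pt i = (0, -i) := by
  rcases h.eq_or_lt with h | h
  · subst h; rfl
  · exact if_neg (by omega)

theorem bd_pt {m n i : ℤ} (hm : 1 ≤ m) (hn : 1 ≤ n) (h0 : -n ≤ i) (h1 : i ≤ m) :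
    bd m n i = pt i := by
  rcases le_total 0 i with h | h
  · rw [pt_nonneg h, bd_bot hm hn h h1]
  · rw [pt_nonpos h, bd_neg hm hn h0 h]

theorem EA_local {r a b : ℤ} {S : Finset Edg} (hS : RE 0 (3 * r) 0 (3 * r) ⊆ S) :
    P2 S (EA r a b) = P2 (RE 0 (3 * r) 0 (3 * r)) (EA r a b) := by
  apply P2_local hS
  intro F
  unfold EA
  have : (↑(F ∩ RE 0 (3 * r) 0 (3 * r)) : Set Edg) ∩ ↑(RE 0 (3 * r) 0 (3 * r)) =
      ↑F ∩ ↑(RE 0 (3 * r) 0 (3 * r)) := by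
    rw [Finset.coe_inter, Set.inter_assoc, Set.inter_self]
  rw [this]

theorem EA_tps {r a b : ℤ} (hb : b ≤ 0) :
    P2 (RE 0 (3 * r) 0 (3 * r)) (EA r a b) =
      P2 (RE 0 (3 * r) 0 (3 * r)) (QI (-b) (-a) (3 * r)) := by
  have hR : tps.mp (RE 0 (3 * r) 0 (3 * r)) = RE 0 (3 * r) 0 (3 * r) := tps_RE 0 (3 * r) 0 (3 * r)
  have h1 := tps.pr (1/2) (RE 0 (3 * r) 0 (3 * r)) (QI (-b) (-a) (3 * r))
  rw [hR] at h1
  unfold P2
  rw [h1]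
  apply Pr_congr
  intro F _
  constructor
  · rintro ⟨i, v, hi, hv, hr⟩
    refine ⟨-i, (v.2, v.1), ⟨by omega, by omega⟩, hv.symm, ?_⟩
    rw [pt_nonpos (by omega)] at hr
    exact (sym_reach tps hR (F := F) (u := (0, -i)) (v := v)).mpr hr
  · rintro ⟨x, v, hx, hv, hr⟩
    refine ⟨-x, (v.2, v.1), ⟨by omega, by omega⟩, hv.symm, ?_⟩
    rw [pt_nonpos (by omega), neg_neg]
    exact (sym_reach tps hR (F := F) (u := (0, x)) (v := (v.2, v.1))).mp hr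

theorem EA_lower : ∃ c : ℝ, 0 < c ∧ ∀ r a b : ℤ, 1 ≤ r → -r ≤ a → a ≤ b → b ≤ r →
    (b ≤ 0 ∨ 0 ≤ a) → ∀ S : Finset Edg, RE 0 (3 * r) 0 (3 * r) ⊆ S →
    c * ((((b - a + 1 : ℤ) : ℝ) * ((max (-a) b + 1 : ℤ) : ℝ)) / ((3 * r : ℤ) : ℝ) ^ 2) ^
      ((1 : ℝ) / 3) ≤ P2 S (EA r a b) := by
  obtain ⟨c, hc, h⟩ := QI_lower
  refine ⟨c, hc, ?_⟩
  intro r a b hr ha hab hb hs S hS
  rcases hs with hs | hs
  · rw [EA_local hS, EA_tps hs]
    have h1 := h (-b) (-a) (3 * r) (by omega) (by omega) (by omega) _ (subset_refl _)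
    have e1 : max (-a) b = -a := max_eq_left (by omega)
    have e2 : -a - -b + 1 = b - a + 1 := by ring
    rw [e2] at h1
    rw [e1]
    exact h1
  · have h1 := h a b (3 * r) hs hab (by omega) S hS
    have e1 : max (-a) b = b := max_eq_right (by omega)
    rw [e1]
    refine h1.trans ?_
    apply Pr_mono okhalf2
    rintro F _ ⟨x, v, hx, hv, hR⟩
    refine ⟨x, v, hx, hv, ?_⟩
    rw [pt_nonneg (by omega)]
    exact hR

end LowC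

open LowC

theorem low_corner : ∃ c0 : ℝ, 0 < c0 ∧ ∀ m n r a b c d : ℤ, 1 ≤ r → 3 * r ≤ m → 3 * r ≤ n →
    -r ≤ a → a ≤ b → b ≤ c → c ≤ d → d ≤ r → (b ≤ 0 ∨ 0 ≤ a) → (d ≤ 0 ∨ 0 ≤ c) →
    c0 * ((((b - a + 1 : ℤ) : ℝ) * ((max (-a) b + 1 : ℤ) : ℝ) / (r : ℝ) ^ 2) *
        (((d - c + 1 : ℤ) : ℝ) * ((max (-c) d + 1 : ℤ) : ℝ) / (r : ℝ) ^ 2)) ^ ((1 : ℝ) / 3) ≤
      P2 (RE 0 m 0 n) (AA m n a b c d) := by
  obtain ⟨c, hc, hE⟩ := EA_lower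
  refine ⟨c * c * (1/2) ^ 94 * (1/81) ^ ((1 : ℝ) / 3), by positivity, ?_⟩
  intro m n r a b c' d hr hm hn ha hab hbc hcd hd hs1 hs2
  have hS : RE 0 (3 * r) 0 (3 * r) ⊆ RE 0 m 0 n := RE_mono4 le_rfl hm le_rfl hn
  set S := RE 0 m 0 n with hSdef
  have h1 := hE r a b hr ha hab (by omega) hs1 S hS
  have h2 := hE r c' d hr (by omega) hcd hd hs2 S hS
  have h3 := pr_QC hr hS
  have i1 : P2 S (EA r a b) * P2 S (EA r c' d) ≤ P2 S (fun F => EA r a b F ∧ EA r c' d F) :=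
    Pr_harris okhalf2 (EA_incr S _ _ _) (EA_incr S _ _ _)
  have c12 : IncrE S (fun F => EA r a b F ∧ EA r c' d F) := fun F G g1 g2 hF =>
    ⟨EA_incr S _ _ _ F G g1 g2 hF.1, EA_incr S _ _ _ F G g1 g2 hF.2⟩
  have i2 : P2 S (fun F => EA r a b F ∧ EA r c' d F) * P2 S (QC r) ≤
      P2 S (fun F => (EA r a b F ∧ EA r c' d F) ∧ QC r F) :=
    Pr_harris okhalf2 c12 (QC_incr S _)
  have i3 : P2 S (fun F => (EA r a b F ∧ EA r c' d F) ∧ QC r F) ≤ P2 S (AA m n a b c' d) := by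
    apply Pr_mono okhalf2
    rintro F _ ⟨⟨⟨i, v, hi, hv, hR⟩, ⟨j, w, hj, hw, hR'⟩⟩, hq⟩
    obtain ⟨f, -, hf⟩ := QC_meet hr hq
    have hin : ∀ k : ℤ, -r ≤ k → k ≤ r → inR 0 r 0 r (pt k) := by
      intro k h0 h1
      rcases le_total 0 k with h | h
      · rw [pt_nonneg h]; unfold inR; simp only; omega
      · rw [pt_nonpos h]; unfold inR; simp only; omega
    have k1 := hf _ v (hin i (by omega) (by omega)) hv hR
    have k2 := hf _ w (hin j (by omega) (by omega)) hw hR'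
    refine ⟨i, j, hi, hj, ?_⟩
    rw [bd_pt (by omega) (by omega) (by omega) (by omega),
      bd_pt (by omega) (by omega) (by omega) (by omega)]
    exact (k1.trans k2.symm).mono (Set.inter_subset_inter_right _ (by exact_mod_cast hS))
  have hP1 : 0 ≤ P2 S (EA r a b) := Pr_nonneg okhalf2 _ _
  have hP2 : 0 ≤ P2 S (EA r c' d) := Pr_nonneg okhalf2 _ _
  have hP3 : 0 ≤ P2 S (QC r) := Pr_nonneg okhalf2 _ _
  have hr0 : (0 : ℝ) < (r : ℝ) := by exact_mod_cast (by omega : (0 : ℤ) < r)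
  have x1 : (0 : ℝ) ≤ ((b - a + 1 : ℤ) : ℝ) := by exact_mod_cast (by omega : (0 : ℤ) ≤ b - a + 1)
  have x2 : (0 : ℝ) ≤ ((max (-a) b + 1 : ℤ) : ℝ) := by
    exact_mod_cast (by omega : (0 : ℤ) ≤ max (-a) b + 1)
  have x3 : (0 : ℝ) ≤ ((d - c' + 1 : ℤ) : ℝ) := by
    exact_mod_cast (by omega : (0 : ℤ) ≤ d - c' + 1)
  have x4 : (0 : ℝ) ≤ ((max (-c') d + 1 : ℤ) : ℝ) := by
    exact_mod_cast (by omega : (0 : ℤ) ≤ max (-c') d + 1)
  set p := ((b - a + 1 : ℤ) : ℝ)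
  set q := ((max (-a) b + 1 : ℤ) : ℝ)
  set p' := ((d - c' + 1 : ℤ) : ℝ)
  set q' := ((max (-c') d + 1 : ℤ) : ℝ)
  have e3 : (((3 * r : ℤ) : ℝ)) = 3 * (r : ℝ) := by push_cast; ring
  rw [e3] at h1 h2
  have y1 : 0 ≤ p * q / (3 * (r : ℝ)) ^ 2 := by positivity
  have y2 : 0 ≤ p' * q' / (3 * (r : ℝ)) ^ 2 := by positivity
  have e : (1/81 : ℝ) ^ ((1 : ℝ) / 3) * (p * q / (r : ℝ) ^ 2 * (p' * q' / (r : ℝ) ^ 2)) ^
      ((1 : ℝ) / 3) = (p * q / (3 * (r : ℝ)) ^ 2) ^ ((1 : ℝ) / 3) *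
        (p' * q' / (3 * (r : ℝ)) ^ 2) ^ ((1 : ℝ) / 3) := by
    rw [← Real.mul_rpow (by positivity) (by positivity), ← Real.mul_rpow y1 y2]
    congr 1
    field_simp
    ring
  calc c * c * (1/2) ^ 94 * (1/81) ^ ((1 : ℝ) / 3) *
        (p * q / (r : ℝ) ^ 2 * (p' * q' / (r : ℝ) ^ 2)) ^ ((1 : ℝ) / 3)
      = (c * (p * q / (3 * (r : ℝ)) ^ 2) ^ ((1 : ℝ) / 3)) *
          (c * (p' * q' / (3 * (r : ℝ)) ^ 2) ^ ((1 : ℝ) / 3)) * (1/2) ^ 94 := by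
        linear_combination (c * c * (1/2) ^ 94) * e
    _ ≤ P2 S (EA r a b) * P2 S (EA r c' d) * P2 S (QC r) := by
        apply mul_le_mul (mul_le_mul h1 h2 (by positivity) hP1) h3 (by positivity)
          (mul_nonneg hP1 hP2)
    _ ≤ _ := (mul_le_mul_of_nonneg_right i1 hP3).trans (i2.trans i3)

end H731A
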