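import Pool.Agent.H731R4.Arcs.Defs2

/-!
# Lower bounds for macroscopic distances, canonical positions (task LM1)
-/

namespace H731A

open H974 H731C H731R Finset

namespace LowM1

open H731R.Fin0

theorem Len_nonneg {a b m : ℤ} (ha : 0 ≤ a) (hab : a ≤ b) (hb : b ≤ m) : 0 ≤ Len a b m := by
  refine le_trans ?_ (Len_two a b m ha hab hb).1
  positivity

theorem ok2 : Ok (fun _ : Edg => (1/2 : ℝ)) := fun _ => ⟨by norm_num, by norm_num⟩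

/-- a vertical path and a horizontal path of the rectangle meet -/
theorem meet {m n : ℤ} (hm : 1 ≤ m) (hn : 1 ≤ n) {F : Set Edg} {x y z w : ℤ}
    (h1 : Reach (F ∩ ↑(RE 0 m 0 n)) (x, 0) (y, n))
    (h2 : Reach (F ∩ ↑(RE 0 m 0 n)) (0, z) (m, w)) :
    Reach (F ∩ ↑(RE 0 m 0 n)) (0, z) (x, 0) :=
  cross_meet (A := 0) (B := m) (C := 0) (D := n) (a := 0) (b := m) (c := 0) (d := n) le_rfl
    (by omega) le_rfl le_rfl (by omega) le_rfl h2 le_rfl le_rfl h1 le_rfl le_rfl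

end LowM1

open LowM1 H731R.Fin0

theorem macro_same (K : ℕ) : ∃ c0 : ℝ, 0 < c0 ∧ ∀ m n a b c d : ℤ, 1 ≤ m → 1 ≤ n → m ≤ K * n →
    n ≤ K * m → 0 ≤ a → a ≤ b → b ≤ m → 0 ≤ c → c ≤ d → d ≤ m →
    c0 * (Len a b m * Len c d m) ^ ((1 : ℝ) / 3) ≤ P2 (RE 0 m 0 n) (AA m n a b c d) := by
  obtain ⟨c1, _, hc1, _, H1⟩ := side_bounds K
  obtain ⟨c2, hc2, H2⟩ := LR_long K
  refine ⟨c1 * c1 * c2, by positivity, ?_⟩
  intro m n a b c d hm hn hmn hnm ha hab hb hc hcd hd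
  have h1 := (H1 a b m n ha hab hb hm hn hmn hnm).1
  have h2 := (H1 c d m n hc hcd hd hm hn hmn hnm).1
  have h3 := H2 0 m 0 n (by omega) (by omega) (by simpa using hmn) (RE 0 m 0 n) subset_rfl
  have e1 := Len_nonneg ha hab hb
  have e2 := Len_nonneg hc hcd hd
  have k1 := Pr_harris (p := fun _ => 1/2) ok2 (VI_incr (RE 0 m 0 n) a b 0 m n)
    (VI_incr (RE 0 m 0 n) c d 0 m n)
  have k2 := Pr_harris (p := fun _ => 1/2) ok2 (S := RE 0 m 0 n)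
    (A := fun F => VI a b 0 m n F ∧ VI c d 0 m n F) (B := LRc 0 m 0 n)
    (fun F G h hG hF => ⟨VI_incr (RE 0 m 0 n) a b 0 m n F G h hG hF.1,
      VI_incr (RE 0 m 0 n) c d 0 m n F G h hG hF.2⟩) (LRc_incr _ _ _ _ _)
  have k3 : Pr (fun _ => (1/2 : ℝ)) (RE 0 m 0 n)
      (fun F => (VI a b 0 m n F ∧ VI c d 0 m n F) ∧ LRc 0 m 0 n F) ≤
      P2 (RE 0 m 0 n) (AA m n a b c d) := by
    apply Pr_mono ok2
    rintro F _ ⟨⟨⟨x, y, hx, _, h4⟩, ⟨x', y', hx', _, h5⟩⟩, h6⟩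
    obtain ⟨z, w, h7⟩ : ∃ z w : ℤ, Reach (↑F ∩ ↑(RE 0 m 0 n)) (0, z) (m, w) := by
      obtain ⟨z, w, h7⟩ := h6
      refine ⟨z, w, ?_⟩
      refine Reach.mono ?_ h7.2.2
      exact Set.inter_subset_inter_right _ (by exact_mod_cast LRE_subset_RE)
    refine ⟨x, x', hx, hx', ?_⟩
    rw [bd_bot hm hn (by omega) (by omega), bd_bot hm hn (by omega) (by omega)]
    exact (meet hm hn h4 h7).symm.trans (meet hm hn h5 h7)
  rw [Real.mul_rpow e1 e2]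
  have r1 : 0 ≤ Len a b m ^ ((1 : ℝ) / 3) := Real.rpow_nonneg e1 _
  have r2 : 0 ≤ Len c d m ^ ((1 : ℝ) / 3) := Real.rpow_nonneg e2 _
  calc c1 * c1 * c2 * (Len a b m ^ ((1 : ℝ) / 3) * Len c d m ^ ((1 : ℝ) / 3))
      = (c1 * Len a b m ^ ((1 : ℝ) / 3)) * (c1 * Len c d m ^ ((1 : ℝ) / 3)) * c2 := by ring
    _ ≤ (P2 (RE 0 m 0 n) (VI a b 0 m n) * P2 (RE 0 m 0 n) (VI c d 0 m n)) *
        P2 (RE 0 m 0 n) (LRc 0 m 0 n) := by
        apply mul_le_mul (mul_le_mul h1 h2 (by positivity) (le_trans (by positivity) h1)) h3 hc2.le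
        exact mul_nonneg (le_trans (by positivity) h1) (le_trans (by positivity) h2)
    _ ≤ Pr (fun _ => (1/2 : ℝ)) (RE 0 m 0 n) (fun F => VI a b 0 m n F ∧ VI c d 0 m n F) *
        P2 (RE 0 m 0 n) (LRc 0 m 0 n) :=
        mul_le_mul_of_nonneg_right k1 (le_trans hc2.le h3)
    _ ≤ _ := k2.trans k3

theorem macro_adj (K : ℕ) : ∃ c0 : ℝ, 0 < c0 ∧ ∀ m n a b c d : ℤ, 1 ≤ m → 1 ≤ n → m ≤ K * n →
    n ≤ K * m → 0 ≤ a → a ≤ b → b ≤ m → m ≤ c → c ≤ d → d ≤ m + n →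
    c0 * (Len a b m * Len (c - m) (d - m) n) ^ ((1 : ℝ) / 3) ≤
      P2 (RE 0 m 0 n) (AA m n a b c d) := by
  obtain ⟨c1, _, hc1, _, H1⟩ := side_bounds K
  refine ⟨c1 * c1, by positivity, ?_⟩
  intro m n a b c d hm hn hmn hnm ha hab hb hc hcd hd
  have h1 := (H1 a b m n ha hab hb hm hn hmn hnm).1
  have h2 := (H1 (c - m) (d - m) n m (by omega) (by omega) (by omega) hn hm hnm hmn).1
  have e1 := Len_nonneg ha hab hb
  have e2 : 0 ≤ Len (c - m) (d - m) n := Len_nonneg (by omega) (by omega) (by omega)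
  have hR : (rot m).mp (RE 0 m 0 n) = RE 0 n 0 m := by
    rw [rot_RE]; congr 1 <;> ring
  have h3 := (rot m).pr (1/2) (RE 0 m 0 n) (VI (c - m) (d - m) 0 n m)
  rw [hR] at h3
  have k1 := Pr_harris (p := fun _ => 1/2) ok2 (S := RE 0 m 0 n)
    (A := VI a b 0 m n) (B := fun F => VI (c - m) (d - m) 0 n m ((rot m).mp F))
    (VI_incr (RE 0 m 0 n) a b 0 m n)
    (fun F G h hG hF => VI_incr (RE 0 n 0 m) (c - m) (d - m) 0 n m _ _ ((rot m).mp_mono h)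
      (by rw [← hR]; exact (rot m).mp_mono hG) hF)
  have k3 : Pr (fun _ => (1/2 : ℝ)) (RE 0 m 0 n)
      (fun F => VI a b 0 m n F ∧ VI (c - m) (d - m) 0 n m ((rot m).mp F)) ≤
      P2 (RE 0 m 0 n) (AA m n a b c d) := by
    apply Pr_mono ok2
    rintro F _ ⟨⟨x, y, hx, _, h4⟩, ⟨x', y', hx', _, h5⟩⟩
    have h6 : Reach (↑((rot m).mp F) ∩ ↑(RE 0 n 0 m)) ((rot m).ψ (m, x')) ((rot m).ψ (0, y')) := by
      rw [rot_ψ, rot_ψ, sub_self, sub_zero]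
      exact h5
    rw [sym_reach (rot m) hR] at h6
    have h7 := meet hm hn h4 h6.symm
    refine ⟨x, m + x', hx, ⟨by omega, by omega⟩, ?_⟩
    rw [bd_bot hm hn (by omega) (by omega), bd_right hm hn (by omega) (by omega),
      add_sub_cancel_left]
    exact h7.symm.trans h6.symm
  rw [Real.mul_rpow e1 e2]
  have r1 : 0 ≤ Len a b m ^ ((1 : ℝ) / 3) := Real.rpow_nonneg e1 _
  have r2 : 0 ≤ Len (c - m) (d - m) n ^ ((1 : ℝ) / 3) := Real.rpow_nonneg e2 _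
  calc c1 * c1 * (Len a b m ^ ((1 : ℝ) / 3) * Len (c - m) (d - m) n ^ ((1 : ℝ) / 3))
      = (c1 * Len a b m ^ ((1 : ℝ) / 3)) * (c1 * Len (c - m) (d - m) n ^ ((1 : ℝ) / 3)) := by ring
    _ ≤ P2 (RE 0 m 0 n) (VI a b 0 m n) * P2 (RE 0 n 0 m) (VI (c - m) (d - m) 0 n m) :=
        mul_le_mul h1 h2 (by positivity) (le_trans (by positivity) h1)
    _ = P2 (RE 0 m 0 n) (VI a b 0 m n) * P2 (RE 0 m 0 n)
        (fun F => VI (c - m) (d - m) 0 n m ((rot m).mp F)) := by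
        unfold P2; rw [h3]
    _ ≤ _ := k1.trans k3

theorem macro_opp (K : ℕ) : ∃ c0 : ℝ, 0 < c0 ∧ ∀ m n a b c d : ℤ, 1 ≤ m → 1 ≤ n → m ≤ K * n →
    n ≤ K * m → 0 ≤ a → a ≤ b → b ≤ m → m + n ≤ c → c ≤ d → d ≤ 2 * m + n →
    c0 * (Len a b m * Len (2 * m + n - d) (2 * m + n - c) m) ^ ((1 : ℝ) / 3) ≤
      P2 (RE 0 m 0 n) (AA m n a b c d) := by
  obtain ⟨c1, _, hc1, _, H1⟩ := BT_bounds K
  refine ⟨c1, hc1, ?_⟩
  intro m n a b c d hm hn hmn hnm ha hab hb hc hcd hd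
  refine ((H1 a b (2 * m + n - d) (2 * m + n - c) m n hm hn hmn hnm ha hab hb (by omega)
    (by omega) (by omega)).1).trans ?_
  apply Pr_mono ok2
  rintro F _ ⟨x, y, hx, hy, h⟩
  refine ⟨x, 2 * m + n - y, hx, ⟨by omega, by omega⟩, ?_⟩
  rw [bd_bot hm hn (by omega) (by omega), bd_top hm hn (by omega) (by omega)]
  rw [show 2 * m + n - (2 * m + n - y) = y by ring]
  exact h

end H731A
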