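import Pool.Agent.H731R4.Arcs.LowM1

set_option linter.all false

/-!
Task LM2: macroscopic distances, all positions.
-/

namespace H731A

open H974 H731C H731R Finset

namespace LowM2

theorem G_mono {r r' t : ℤ} (h : r ≤ r') (ht : 0 ≤ t) : G r t ≤ G r' t := by
  unfold G
  have h1 : (r : ℝ) ≤ (r' : ℝ) := by exact_mod_cast h
  have h2 : (0 : ℝ) ≤ (t : ℝ) := by exact_mod_cast ht
  exact mul_le_mul_of_nonneg_left (by linarith) h2

theorem G_nonneg {r t : ℤ} (h : 0 ≤ r) (ht : 0 ≤ t) : 0 ≤ G r t := by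
  unfold G
  have h1 : (0 : ℝ) ≤ (r : ℝ) := by exact_mod_cast h
  have h2 : (0 : ℝ) ≤ (t : ℝ) := by exact_mod_cast ht
  positivity

theorem LenG_a {a b m N : ℤ} (ha : 0 ≤ a) (hab : a ≤ b) (hb : b ≤ m) (hN : m + 1 ≤ N) :
    G (min a (m - a)) (b - a + 1) / ((N : ℤ) : ℝ) ^ 2 ≤ Len a b m := by
  have hm1 : (0 : ℝ) < ((m + 1 : ℤ) : ℝ) := by exact_mod_cast (by omega : (0 : ℤ) < m + 1)
  have hN1 : ((m + 1 : ℤ) : ℝ) ≤ (N : ℝ) := by exact_mod_cast hN
  have hsq : ((m + 1 : ℤ) : ℝ) ^ 2 ≤ (N : ℝ) ^ 2 := by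
    apply pow_le_pow_left₀ hm1.le hN1
  have hp : (0 : ℝ) ≤ ((b - a + 1 : ℤ) : ℝ) := by exact_mod_cast (by omega : (0 : ℤ) ≤ b - a + 1)
  have hG0 : 0 ≤ G (min a (m - a)) (b - a + 1) := G_nonneg (by omega) (by omega)
  by_cases h : a ≤ m - b
  · have h1 := (Len_bounds ha hab hb h).1
    refine le_trans ?_ h1
    have h2 : G (min a (m - a)) (b - a + 1) ≤ 2 * (((b - a + 1 : ℤ) : ℝ) * ((b + 1 : ℤ) : ℝ)) := by
      refine (G_mono (min_le_left a (m - a)) (by omega)).trans ?_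
      unfold G
      have hb1 : (0 : ℝ) ≤ ((b + 1 : ℤ) : ℝ) := by exact_mod_cast (by omega : (0 : ℤ) ≤ b + 1)
      have e : ((b - a + 1 : ℤ) : ℝ) + (a : ℝ) = ((b + 1 : ℤ) : ℝ) := by push_cast; ring
      rw [e]
      nlinarith [mul_nonneg hp hb1]
    calc G (min a (m - a)) (b - a + 1) / ((N : ℤ) : ℝ) ^ 2
        ≤ G (min a (m - a)) (b - a + 1) / ((m + 1 : ℤ) : ℝ) ^ 2 :=
          div_le_div_of_nonneg_left hG0 (by positivity) hsq
      _ ≤ _ := div_le_div_of_nonneg_right h2 (by positivity)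
  · have h1 := (Len_bounds (a := m - b) (b := m - a) (m := m) (by omega) (by omega) (by omega)
      (by omega)).1
    rw [Len_refl a b m (by omega)] at h1
    refine le_trans ?_ h1
    have h2 : G (min a (m - a)) (b - a + 1) ≤
        2 * (((m - a - (m - b) + 1 : ℤ) : ℝ) * ((m - a + 1 : ℤ) : ℝ)) := by
      refine (G_mono (min_le_right a (m - a)) (by omega)).trans ?_
      unfold G
      have e : ((m - a - (m - b) + 1 : ℤ) : ℝ) = ((b - a + 1 : ℤ) : ℝ) := by push_cast; ring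
      rw [e]
      have h3 : ((b - a + 1 : ℤ) : ℝ) ≤ ((m - a + 1 : ℤ) : ℝ) := by
        exact_mod_cast (by omega : b - a + 1 ≤ m - a + 1)
      have h4 : ((m - a : ℤ) : ℝ) ≤ ((m - a + 1 : ℤ) : ℝ) := by
        exact_mod_cast (by omega : m - a ≤ m - a + 1)
      have h5 := mul_le_mul_of_nonneg_left (add_le_add h3 h4) hp
      linarith
    calc G (min a (m - a)) (b - a + 1) / ((N : ℤ) : ℝ) ^ 2
        ≤ G (min a (m - a)) (b - a + 1) / ((m + 1 : ℤ) : ℝ) ^ 2 :=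
          div_le_div_of_nonneg_left hG0 (by positivity) hsq
      _ ≤ _ := div_le_div_of_nonneg_right h2 (by positivity)

theorem LenG_b {a b m N : ℤ} (ha : 0 ≤ a) (hab : a ≤ b) (hb : b ≤ m) (hN : m + 1 ≤ N) :
    G (min b (m - b)) (b - a + 1) / ((N : ℤ) : ℝ) ^ 2 ≤ Len a b m := by
  have h := LenG_a (a := m - b) (b := m - a) (m := m) (N := N) (by omega) (by omega) (by omega) hN
  rw [Len_refl a b m (by omega)] at h
  have e1 : min (m - b) (m - (m - b)) = min b (m - b) := by omega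
  have e2 : m - a - (m - b) + 1 = b - a + 1 := by ring
  rwa [e1, e2] at h

theorem isRot_comp {m n s m' n' t m'' n'' : ℤ} (h : IsRot m n s m' n')
    (h' : IsRot m n t m'' n'') : IsRot m' n' (t - s) m'' n'' := by
  obtain ⟨k, ⟨h1, h2, h3⟩ | ⟨h1, h2, h3⟩ | ⟨h1, h2, h3⟩ | ⟨h1, h2, h3⟩⟩ := h <;>
  obtain ⟨l, ⟨g1, g2, g3⟩ | ⟨g1, g2, g3⟩ | ⟨g1, g2, g3⟩ | ⟨g1, g2, g3⟩⟩ := h' <;>
  subst h1 <;> subst h2 <;> subst h3 <;> subst g1 <;> subst g2 <;> subst g3
  · exact ⟨l - k, Or.inl ⟨by ring, rfl, rfl⟩⟩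
  · exact ⟨l - k, Or.inr (Or.inl ⟨by ring, rfl, rfl⟩)⟩
  · exact ⟨l - k, Or.inr (Or.inr (Or.inl ⟨by ring, rfl, rfl⟩))⟩
  · exact ⟨l - k, Or.inr (Or.inr (Or.inr ⟨by ring, rfl, rfl⟩))⟩
  · exact ⟨l - k - 1, Or.inr (Or.inr (Or.inr ⟨by ring, rfl, rfl⟩))⟩
  · exact ⟨l - k, Or.inl ⟨by ring, rfl, rfl⟩⟩
  · exact ⟨l - k, Or.inr (Or.inl ⟨by ring, rfl, rfl⟩)⟩
  · exact ⟨l - k, Or.inr (Or.inr (Or.inl ⟨by ring, rfl, rfl⟩))⟩
  · exact ⟨l - k - 1, Or.inr (Or.inr (Or.inl ⟨by ring, rfl, rfl⟩))⟩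
  · exact ⟨l - k - 1, Or.inr (Or.inr (Or.inr ⟨by ring, rfl, rfl⟩))⟩
  · exact ⟨l - k, Or.inl ⟨by ring, rfl, rfl⟩⟩
  · exact ⟨l - k, Or.inr (Or.inl ⟨by ring, rfl, rfl⟩)⟩
  · exact ⟨l - k - 1, Or.inr (Or.inl ⟨by ring, rfl, rfl⟩)⟩
  · exact ⟨l - k - 1, Or.inr (Or.inr (Or.inl ⟨by ring, rfl, rfl⟩))⟩
  · exact ⟨l - k - 1, Or.inr (Or.inr (Or.inr ⟨by ring, rfl, rfl⟩))⟩
  · exact ⟨l - k, Or.inl ⟨by ring, rfl, rfl⟩⟩

theorem oneSide_isRot {m n s m' n' c d : ℤ} (h : IsRot m n s m' n') (h' : OneSide m n c d) :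
    OneSide m' n' (c - s) (d - s) := by
  obtain ⟨t, m'', n'', h1, h2, h3⟩ := h'
  exact ⟨t - s, m'', n'', isRot_comp h h1, by omega, by omega⟩

/-- from the bound with `Len` to the bound with `G` -/
theorem fin_bound {c0 c1 x y X Y P : ℝ} (hc0 : 0 < c0) (hc : c0 ≤ c1) (hx : 0 ≤ x) (hy : 0 ≤ y)
    (hX : x ≤ X) (hY : y ≤ Y) (h : c1 * (X * Y) ^ ((1 : ℝ) / 3) ≤ P) :
    c0 * (x * y) ^ ((1 : ℝ) / 3) ≤ P := by
  refine le_trans ?_ h
  have h1 : x * y ≤ X * Y := mul_le_mul hX hY hy (hx.trans hX)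
  have h2 : (x * y) ^ ((1 : ℝ) / 3) ≤ (X * Y) ^ ((1 : ℝ) / 3) :=
    Real.rpow_le_rpow (mul_nonneg hx hy) h1 (by norm_num)
  exact mul_le_mul hc h2 (Real.rpow_nonneg (mul_nonneg hx hy) _) (hc0.le.trans hc)

theorem canon (K : ℕ) : ∃ c0 : ℝ, 0 < c0 ∧ ∀ m n a b c d : ℤ, 1 ≤ m → 1 ≤ n → m ≤ K * n →
    n ≤ K * m → 0 ≤ a → a ≤ b → b ≤ m → c ≤ d → OneSide m n c d →
    c0 * ((G (rho m n a) (b - a + 1) / ((2 * (m + n) : ℤ) : ℝ) ^ 2) *
        (G (rho m n d) (d - c + 1) / ((2 * (m + n) : ℤ) : ℝ) ^ 2)) ^ ((1 : ℝ) / 3) ≤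
      P2 (RE 0 m 0 n) (AA m n a b c d) := by
  obtain ⟨c1, hc1, H1⟩ := H731A.macro_same K
  obtain ⟨c2, hc2, H2⟩ := H731A.macro_adj K
  obtain ⟨c3, hc3, H3⟩ := H731A.macro_opp K
  refine ⟨min c1 (min c2 c3), lt_min hc1 (lt_min hc2 hc3), ?_⟩
  set c0 := min c1 (min c2 c3) with hc0
  have h01 : c0 ≤ c1 := min_le_left _ _
  have h02 : c0 ≤ c2 := (min_le_right _ _).trans (min_le_left _ _)
  have h03 : c0 ≤ c3 := (min_le_right _ _).trans (min_le_right _ _)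
  have hpos : 0 < c0 := lt_min hc1 (lt_min hc2 hc3)
  intro m n a b c d hm hn h1 h2 ha hab hb hcd ⟨s, m', n', ⟨k, hs⟩, hsc, hds⟩
  have hra : rho m n a = min a (m - a) := rho_bot hm hn ha (by omega)
  have hx0 : 0 ≤ G (rho m n a) (b - a + 1) / ((2 * (m + n) : ℤ) : ℝ) ^ 2 :=
    div_nonneg (G_nonneg (rho_nonneg hm hn a) (by omega)) (by positivity)
  have hy0 : 0 ≤ G (rho m n d) (d - c + 1) / ((2 * (m + n) : ℤ) : ℝ) ^ 2 :=
    div_nonneg (G_nonneg (rho_nonneg hm hn d) (by omega)) (by positivity)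
  have hxa : G (rho m n a) (b - a + 1) / ((2 * (m + n) : ℤ) : ℝ) ^ 2 ≤ Len a b m := by
    rw [hra]; exact LenG_a ha hab hb (by omega)
  set N := 2 * (m + n) with hN
  rcases hs with ⟨g1, g2, g3⟩ | ⟨g1, g2, g3⟩ | ⟨g1, g2, g3⟩ | ⟨g1, g2, g3⟩
  · -- same side
    have hP := AA_period m n a b c d 0 (-k)
    rw [← hN] at hP
    simp only [zero_mul, add_zero, neg_mul, ← sub_eq_add_neg] at hP
    rw [hP]
    have h := H1 m n a b (c - k * N) (d - k * N) hm hn h1 h2 ha hab hb (by omega) (by omega)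
      (by omega)
    refine fin_bound hpos h01 hx0 hy0 hxa ?_ h
    have e : rho m n d = min (d - k * N) (m - (d - k * N)) := by
      rw [← rho_bot hm hn (by omega) (by omega), ← rho_period m n (d - k * N) k, ← hN,
        sub_add_cancel]
    have e2 : d - c + 1 = d - k * N - (c - k * N) + 1 := by ring
    rw [e, e2]
    exact LenG_b (by omega) (by omega) (by omega) (by omega)
  · have hP := AA_period m n a b c d 0 (-k)
    rw [← hN] at hP
    simp only [zero_mul, add_zero, neg_mul, ← sub_eq_add_neg] at hP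
    rw [hP]
    have h := H2 m n a b (c - k * N) (d - k * N) hm hn h1 h2 ha hab hb (by omega) (by omega)
      (by omega)
    refine fin_bound hpos h02 hx0 hy0 hxa ?_ h
    have e : rho m n d = min (d - k * N - m) (n - (d - k * N - m)) := by
      rw [← rho_bot hn hm (by omega) (by omega), ← rho_rot, ← rho_period m n (d - k * N) k, ← hN,
        sub_add_cancel]
    have e2 : d - c + 1 = d - k * N - m - (c - k * N - m) + 1 := by ring
    rw [e, e2]
    exact LenG_b (by omega) (by omega) (by omega) (by omega)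
  · have hP := AA_period m n a b c d 0 (-k)
    rw [← hN] at hP
    simp only [zero_mul, add_zero, neg_mul, ← sub_eq_add_neg] at hP
    rw [hP]
    have h := H3 m n a b (c - k * N) (d - k * N) hm hn h1 h2 ha hab hb (by omega) (by omega)
      (by omega)
    refine fin_bound hpos h03 hx0 hy0 hxa ?_ h
    have e : rho m n d = min (2 * m + n - (d - k * N)) (m - (2 * m + n - (d - k * N))) := by
      have e0 : rho m n d = min (d - k * N - m - n) (m - (d - k * N - m - n)) := by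
        rw [← rho_bot hm hn (by omega) (by omega), ← rho_rot, ← rho_rot,
          ← rho_period m n (d - k * N) k, ← hN, sub_add_cancel]
      rw [e0]; omega
    have e2 : d - c + 1 = 2 * m + n - (c - k * N) - (2 * m + n - (d - k * N)) + 1 := by ring
    rw [e, e2]
    exact LenG_a (by omega) (by omega) (by omega) (by omega)
  · -- left side
    have hrot : IsRot m n (-n) n m := ⟨-1, Or.inr (Or.inr (Or.inr ⟨by ring, rfl, rfl⟩))⟩
    have hP := AA_period m n a b c d 0 (-(k + 1))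
    rw [← hN] at hP
    simp only [zero_mul, add_zero, neg_mul, ← sub_eq_add_neg] at hP
    rw [hP, AA_swap, AA_isRot hm hn hrot]
    have h := H2 n m (c - (k + 1) * N - -n) (d - (k + 1) * N - -n) (a - -n) (b - -n) hn hm h2 h1
      (by rw [add_mul]; omega) (by omega) (by rw [add_mul]; omega) (by omega) (by omega)
      (by omega)
    rw [mul_comm (G (rho m n a) (b - a + 1) / ((N : ℤ) : ℝ) ^ 2)]
    refine fin_bound hpos h02 hy0 hx0 ?_ ?_ h
    · have e : rho m n d = min (d - (k + 1) * N - -n) (n - (d - (k + 1) * N - -n)) := by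
        rw [← rho_bot hn hm (by rw [add_mul]; omega) (by rw [add_mul]; omega),
          ← rho_isRot hrot, ← rho_period m n (d - (k + 1) * N) (k + 1), ← hN, sub_add_cancel]
      have e2 : d - c + 1 = d - (k + 1) * N - -n - (c - (k + 1) * N - -n) + 1 := by ring
      rw [e, e2]
      exact LenG_b (by rw [add_mul]; omega) (by omega) (by rw [add_mul]; omega) (by omega)
    · have e1 : a - -n - n = a := by ring
      have e2 : b - -n - n = b := by ring
      rw [e1, e2]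
      exact hxa

end LowM2

open LowM2 in
theorem low_macro (K : ℕ) : ∃ c0 : ℝ, 0 < c0 ∧ ∀ m n a b c d : ℤ, 1 ≤ m → 1 ≤ n → m ≤ K * n →
    n ≤ K * m → a ≤ b → c ≤ d → OneSide m n a b → OneSide m n c d →
    c0 * ((G (rho m n a) (b - a + 1) / ((2 * (m + n) : ℤ) : ℝ) ^ 2) *
        (G (rho m n d) (d - c + 1) / ((2 * (m + n) : ℤ) : ℝ) ^ 2)) ^ ((1 : ℝ) / 3) ≤
      P2 (RE 0 m 0 n) (AA m n a b c d) := by
  obtain ⟨c0, hc0, H⟩ := canon K
  refine ⟨c0, hc0, ?_⟩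
  intro m n a b c d hm hn h1 h2 hab hcd ⟨s, m', n', hs, hsa, hbs⟩ hcd'
  have hcd2 := oneSide_isRot hs hcd'
  rw [AA_isRot hm hn hs, rho_isRot hs a, rho_isRot hs d]
  have e1 : b - a + 1 = b - s - (a - s) + 1 := by ring
  have e2 : d - c + 1 = d - s - (c - s) + 1 := by ring
  rw [e1, e2]
  rcases hs.sum with ⟨g1, g2⟩ | ⟨g1, g2⟩
  · subst g1; subst g2
    exact H m' n' (a - s) (b - s) (c - s) (d - s) hm hn h1 h2 (by omega) (by omega) (by omega)
      (by omega) hcd2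
  · subst g1; subst g2
    have e3 : (2 * (n' + m') : ℤ) = 2 * (m' + n') := by ring
    rw [e3]
    exact H m' n' (a - s) (b - s) (c - s) (d - s) hn hm h2 h1 (by omega) (by omega) (by omega)
      (by omega) hcd2

end H731A
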