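import Pool.Agent.H731R4.Arcs.Defs

/-!
Rotations of the rectangle.
-/

namespace H731A

open H974 H731C H731R Finset

/-- The rotation `(x, y) ↦ (y, m - x)`. -/
def rot (m : ℤ) : LSym where
  φ := { toFun := fun e => if e.2.2 then (e.2.1, m - e.1 - 1, false) else (e.2.1, m - e.1, true)
         invFun := fun e => if e.2.2 then (m - e.2.1, e.1, false) else (m - e.2.1 - 1, e.1, true)
         left_inv := by rintro ⟨x, y, _ | _⟩ <;> (simp; try ring)
         right_inv := by rintro ⟨x, y, _ | _⟩ <;> (simp; try ring) }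
  ψ := { toFun := fun u => (u.2, m - u.1)
         invFun := fun u => (m - u.2, u.1)
         left_inv := by intro e; simp
         right_inv := by intro e; simp }
  compat := by
    rintro ⟨x, y, _ | _⟩
    · left; simp
    · right; simp; ring

@[simp] theorem rot_φst (m x y : ℤ) : (rot m).φ.symm (x, y, true) = (m - y, x, false) := rfl
@[simp] theorem rot_φsf (m x y : ℤ) : (rot m).φ.symm (x, y, false) = (m - y - 1, x, true) := rfl
@[simp] theorem rot_ψ (m x y : ℤ) : (rot m).ψ (x, y) = (y, m - x) := rfl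

theorem rot_RE (m a b c d : ℤ) : (rot m).mp (RE a b c d) = RE c d (m - b) (m - a) := by
  ext ⟨x, y, _ | _⟩
  · simp only [LSym.mem_mp, rot_φsf, mem_RE_false, mem_RE_true]; omega
  · simp only [LSym.mem_mp, rot_φst, mem_RE_false, mem_RE_true]; omega

theorem rot_bd {m n : ℤ} (hm : 1 ≤ m) (hn : 1 ≤ n) (i : ℤ) :
    (rot m).ψ (bd m n i) = bd n m (i - m) := by
  obtain ⟨k, r, h, h1 | h1 | h1 | h1⟩ := side_cases hm hn i
  · have e : i - m = (r - m) + k * (2 * (n + m)) := by rw [h]; ring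
    rw [e, h, bd_period, bd_period, bd_bot hm hn h1.1 h1.2, bd_neg hn hm (by omega) (by omega),
      rot_ψ, neg_sub]
  · have e : i - m = (r - m) + k * (2 * (n + m)) := by rw [h]; ring
    rw [e, h, bd_period, bd_period, bd_right hm hn h1.1 h1.2, bd_bot hn hm (by omega) (by omega),
      rot_ψ, sub_self]
  · have e : i - m = (r - m) + k * (2 * (n + m)) := by rw [h]; ring
    rw [e, h, bd_period, bd_period, bd_top hm hn h1.1 h1.2, bd_right hn hm (by omega) (by omega),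
      rot_ψ]
    ext
    · rfl
    · show m - (2 * m + n - r) = r - m - n; ring
  · have e : i - m = (r - m) + k * (2 * (n + m)) := by rw [h]; ring
    rw [e, h, bd_period, bd_period, bd_left hm hn h1.1 h1.2.le, bd_top hn hm (by omega) (by omega),
      rot_ψ]
    ext
    · show 2 * (m + n) - r = 2 * n + m - (r - m); ring
    · show m - 0 = m; ring

theorem rho_rot (m n i : ℤ) : rho m n i = rho n m (i - m) := by
  have e0 : 2 * (n + m) = 2 * (m + n) := by ring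
  have e1 : i - m - n = i - (m + n) := by ring
  have e2 : i - m - (n + m) = i - (2 * m + n) := by ring
  have e3 : i - m - (2 * n + m) = i + (-1) * (2 * (m + n)) := by ring
  unfold rho
  rw [e0, e1, e2, e3, cd_period]
  omega

theorem sz_rot (m n i j : ℤ) : sz m n i j = sz n m (i - m) (j - m) := by
  unfold sz
  rw [← rho_rot, ← rho_rot]
  have e0 : 2 * (n + m) = 2 * (m + n) := by ring
  have e1 : j - m - (i - m) = j - i := by ring
  rw [e0, e1]

theorem AA_rot {m n : ℤ} (hm : 1 ≤ m) (hn : 1 ≤ n) (a b c d : ℤ) :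
    P2 (RE 0 m 0 n) (AA m n a b c d) =
      P2 (RE 0 n 0 m) (AA n m (a - m) (b - m) (c - m) (d - m)) := by
  have hR : (rot m).mp (RE 0 m 0 n) = RE 0 n 0 m := by
    rw [rot_RE]; congr 1 <;> ring
  have h1 := (rot m).pr (1/2) (RE 0 m 0 n) (AA n m (a - m) (b - m) (c - m) (d - m))
  rw [hR] at h1
  unfold P2
  rw [h1]
  apply Pr_congr
  intro F _
  constructor
  · rintro ⟨i, j, hi, hj, hr⟩
    refine ⟨i - m, j - m, ⟨by omega, by omega⟩, ⟨by omega, by omega⟩, ?_⟩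
    rw [← rot_bd hm hn, ← rot_bd hm hn]
    exact (sym_reach (rot m) hR).mpr hr
  · rintro ⟨i, j, hi, hj, hr⟩
    refine ⟨i + m, j + m, ⟨by omega, by omega⟩, ⟨by omega, by omega⟩, ?_⟩
    apply (sym_reach (rot m) hR).mp
    rw [rot_bd hm hn, rot_bd hm hn, add_sub_cancel_right, add_sub_cancel_right]
    exact hr

theorem ArmL_rot {m n : ℤ} (hm : 1 ≤ m) (hn : 1 ≤ n) (a b : ℤ) (z : Vtx) (r : ℤ) :
    P2 (RE 0 m 0 n) (ArmL m n a b z r) =
      P2 (RE 0 n 0 m) (ArmL n m (a - m) (b - m) ((rot m).ψ z) r) := by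
  obtain ⟨z1, z2⟩ := z
  have hR : (rot m).mp (RE 0 m 0 n) = RE 0 n 0 m := by
    rw [rot_RE]; congr 1 <;> ring
  have hB : (rot m).mp (Bx m n (z1, z2) r) = Bx n m ((rot m).ψ (z1, z2)) r := by
    unfold Bx
    rw [rot_RE, rot_ψ]
    simp only
    congr 1 <;> omega
  have h1 := (rot m).pr (1/2) (RE 0 m 0 n) (ArmL n m (a - m) (b - m) ((rot m).ψ (z1, z2)) r)
  rw [hR] at h1
  unfold P2
  rw [h1]
  apply Pr_congr
  intro F _
  constructor
  · rintro ⟨i, ⟨v1, v2⟩, hi, hj, hr⟩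
    refine ⟨i - m, (rot m).ψ (v1, v2), ⟨by omega, by omega⟩, ?_, ?_⟩
    · simp only [rot_ψ] at hj ⊢; omega
    · rw [← rot_bd hm hn]
      exact (sym_reach (rot m) hB).mpr hr
  · rintro ⟨i, ⟨v1, v2⟩, hi, hj, hr⟩
    refine ⟨i + m, (m - v2, v1), ⟨by omega, by omega⟩, ?_, ?_⟩
    · simp only [rot_ψ] at hj ⊢; omega
    · apply (sym_reach (rot m) hB).mp
      have e : (rot m).ψ (m - v2, v1) = (v1, v2) := by
        rw [rot_ψ, sub_sub_cancel]
      rw [rot_bd hm hn, add_sub_cancel_right, e]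
      exact hr

theorem AA_shift (m n a b c d k : ℤ) :
    P2 (RE 0 m 0 n) (AA m n a b c d) = P2 (RE 0 m 0 n) (AA m n (a - k * (2 * (m + n)))
      (b - k * (2 * (m + n))) (c - k * (2 * (m + n))) (d - k * (2 * (m + n)))) := by
  apply Pr_congr
  intro F _
  set N := 2 * (m + n) with hN
  constructor
  · rintro ⟨i, j, hi, hj, hr⟩
    refine ⟨i - k * N, j - k * N, ⟨by omega, by omega⟩, ⟨by omega, by omega⟩, ?_⟩
    rw [← bd_period m n (i - k * N) k, ← bd_period m n (j - k * N) k, ← hN, sub_add_cancel,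
      sub_add_cancel]
    exact hr
  · rintro ⟨i, j, hi, hj, hr⟩
    refine ⟨i + k * N, j + k * N, ⟨by omega, by omega⟩, ⟨by omega, by omega⟩, ?_⟩
    rw [hN, bd_period m n i k, bd_period m n j k]
    exact hr

theorem ArmL_shift (m n a b : ℤ) (z : Vtx) (r k : ℤ) :
    P2 (RE 0 m 0 n) (ArmL m n a b z r) = P2 (RE 0 m 0 n) (ArmL m n (a - k * (2 * (m + n)))
      (b - k * (2 * (m + n))) z r) := by
  apply Pr_congr
  intro F _
  set N := 2 * (m + n) with hN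
  constructor
  · rintro ⟨i, v, hi, hj, hr⟩
    refine ⟨i - k * N, v, ⟨by omega, by omega⟩, hj, ?_⟩
    rw [← bd_period m n (i - k * N) k, ← hN, sub_add_cancel]
    exact hr
  · rintro ⟨i, v, hi, hj, hr⟩
    refine ⟨i + k * N, v, ⟨by omega, by omega⟩, hj, ?_⟩
    rw [hN, bd_period m n i k]
    exact hr

/-- the two arcs can be exchanged -/
theorem AA_swap (m n a b c d : ℤ) :
    P2 (RE 0 m 0 n) (AA m n a b c d) = P2 (RE 0 m 0 n) (AA m n c d a b) := by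
  apply Pr_congr
  intro F _
  constructor
  · rintro ⟨i, j, hi, hj, hr⟩
    exact ⟨j, i, hj, hi, hr.symm⟩
  · rintro ⟨i, j, hi, hj, hr⟩
    exact ⟨j, i, hj, hi, hr.symm⟩

/-- an arc can be moved by a period -/
theorem AA_period (m n a b c d k l : ℤ) :
    P2 (RE 0 m 0 n) (AA m n a b c d) = P2 (RE 0 m 0 n) (AA m n (a + k * (2 * (m + n)))
      (b + k * (2 * (m + n))) (c + l * (2 * (m + n))) (d + l * (2 * (m + n)))) := by
  apply Pr_congr
  intro F _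
  set N := 2 * (m + n) with hN
  constructor
  · rintro ⟨i, j, hi, hj, hr⟩
    refine ⟨i + k * N, j + l * N, ⟨by omega, by omega⟩, ⟨by omega, by omega⟩, ?_⟩
    rw [hN, bd_period m n i k, bd_period m n j l]
    exact hr
  · rintro ⟨i, j, hi, hj, hr⟩
    refine ⟨i - k * N, j - l * N, ⟨by omega, by omega⟩, ⟨by omega, by omega⟩, ?_⟩
    rw [← bd_period m n (i - k * N) k, ← bd_period m n (j - l * N) l, ← hN, sub_add_cancel,
      sub_add_cancel]
    exact hr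

theorem AA_isRot {m n s m' n' : ℤ} (hm : 1 ≤ m) (hn : 1 ≤ n) (h : IsRot m n s m' n')
    (a b c d : ℤ) : P2 (RE 0 m 0 n) (AA m n a b c d) =
      P2 (RE 0 m' 0 n') (AA m' n' (a - s) (b - s) (c - s) (d - s)) := by
  obtain ⟨k, ⟨h1, h2, h3⟩ | ⟨h1, h2, h3⟩ | ⟨h1, h2, h3⟩ | ⟨h1, h2, h3⟩⟩ := h
  · rw [AA_shift m n a b c d k, h1, h2, h3]
  · rw [AA_shift m n a b c d k, AA_rot hm hn, h1, h2, h3]
    congr 2 <;> ring
  · rw [AA_shift m n a b c d k, AA_rot hm hn, AA_rot hn hm, h1, h2, h3]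
    congr 2 <;> ring
  · rw [AA_shift m n a b c d k, AA_rot hm hn, AA_rot hn hm, AA_rot hm hn, h1, h2, h3]
    congr 2 <;> ring

theorem ArmL_isRot {m n s m' n' : ℤ} (hm : 1 ≤ m) (hn : 1 ≤ n) (h : IsRot m n s m' n')
    (a b j r : ℤ) : P2 (RE 0 m 0 n) (ArmL m n a b (bd m n j) r) =
      P2 (RE 0 m' 0 n') (ArmL m' n' (a - s) (b - s) (bd m' n' (j - s)) r) := by
  obtain ⟨k, ⟨h1, h2, h3⟩ | ⟨h1, h2, h3⟩ | ⟨h1, h2, h3⟩ | ⟨h1, h2, h3⟩⟩ := h
  · rw [ArmL_shift m n a b _ _ k, ← bd_period m n j (-k), h1, h2, h3]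
    congr 3; ring
  · rw [ArmL_shift m n a b _ _ k, ← bd_period m n j (-k), ArmL_rot hm hn, rot_bd hm hn, h1, h2, h3]
    congr 2 <;> ring_nf
  · rw [ArmL_shift m n a b _ _ k, ← bd_period m n j (-k), ArmL_rot hm hn, rot_bd hm hn,
      ArmL_rot hn hm, rot_bd hn hm, h1, h2, h3]
    congr 2 <;> ring_nf
  · rw [ArmL_shift m n a b _ _ k, ← bd_period m n j (-k), ArmL_rot hm hn, rot_bd hm hn,
      ArmL_rot hn hm, rot_bd hn hm, ArmL_rot hm hn, rot_bd hm hn, h1, h2, h3]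
    congr 2 <;> ring_nf

theorem rho_isRot {m n s m' n' : ℤ} (h : IsRot m n s m' n') (i : ℤ) :
    rho m n i = rho m' n' (i - s) := by
  obtain ⟨k, ⟨h1, h2, h3⟩ | ⟨h1, h2, h3⟩ | ⟨h1, h2, h3⟩ | ⟨h1, h2, h3⟩⟩ := h
  · rw [← rho_period m n i (-k), h1, h2, h3]; congr 1; ring
  · rw [← rho_period m n i (-k), rho_rot, h1, h2, h3]; congr 1; ring
  · rw [← rho_period m n i (-k), rho_rot, rho_rot, h1, h2, h3]; congr 1; ring
  · rw [← rho_period m n i (-k), rho_rot, rho_rot, rho_rot, h1, h2, h3]; congr 1; ring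

theorem IsRot.sum {m n s m' n' : ℤ} (h : IsRot m n s m' n') :
    (m' = m ∧ n' = n) ∨ (m' = n ∧ n' = m) := by
  obtain ⟨k, ⟨-, h2, h3⟩ | ⟨-, h2, h3⟩ | ⟨-, h2, h3⟩ | ⟨-, h2, h3⟩⟩ := h
  · exact Or.inl ⟨h2, h3⟩
  · exact Or.inr ⟨h2, h3⟩
  · exact Or.inl ⟨h2, h3⟩
  · exact Or.inr ⟨h2, h3⟩

/-- every boundary point is on the bottom side after a rotation -/
theorem exists_side {m n : ℤ} (hm : 1 ≤ m) (hn : 1 ≤ n) (i : ℤ) :
    ∃ s m' n', IsRot m n s m' n' ∧ s ≤ i ∧ i ≤ s + m' := by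
  obtain ⟨k, r, h, h1 | h1 | h1 | h1⟩ := side_cases hm hn i
  · exact ⟨_, _, _, ⟨k, Or.inl ⟨rfl, rfl, rfl⟩⟩, by omega, by omega⟩
  · exact ⟨_, _, _, ⟨k, Or.inr (Or.inl ⟨rfl, rfl, rfl⟩)⟩, by omega, by omega⟩
  · exact ⟨_, _, _, ⟨k, Or.inr (Or.inr (Or.inl ⟨rfl, rfl, rfl⟩))⟩, by omega, by omega⟩
  · exact ⟨_, _, _, ⟨k, Or.inr (Or.inr (Or.inr ⟨rfl, rfl, rfl⟩))⟩, by omega, by omega⟩

/-- the nearest corner becomes the corner `0` after a rotation -/
theorem exists_corner {m n : ℤ} (hm : 1 ≤ m) (hn : 1 ≤ n) (i : ℤ) :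
    ∃ s m' n', IsRot m n s m' n' ∧ |i - s| = rho m n i := by
  have hN : 0 < 2 * (m + n) := by omega
  obtain ⟨k0, h0⟩ := cd_exists hN i
  obtain ⟨k1, h1⟩ := cd_exists hN (i - m)
  obtain ⟨k2, h2⟩ := cd_exists hN (i - (m + n))
  obtain ⟨k3, h3⟩ := cd_exists hN (i - (2 * m + n))
  have h : rho m n i = cd (2 * (m + n)) i ∨ rho m n i = cd (2 * (m + n)) (i - m) ∨
      rho m n i = cd (2 * (m + n)) (i - (m + n)) ∨
      rho m n i = cd (2 * (m + n)) (i - (2 * m + n)) := by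
    unfold rho; omega
  rcases h with h | h | h | h
  · exact ⟨_, _, _, ⟨k0, Or.inl ⟨rfl, rfl, rfl⟩⟩, by rw [h, h0]⟩
  · refine ⟨_, _, _, ⟨k1, Or.inr (Or.inl ⟨rfl, rfl, rfl⟩)⟩, ?_⟩
    rw [h, h1]; congr 1; ring
  · refine ⟨_, _, _, ⟨k2, Or.inr (Or.inr (Or.inl ⟨rfl, rfl, rfl⟩))⟩, ?_⟩
    rw [h, h2]; congr 1; ring
  · refine ⟨_, _, _, ⟨k3, Or.inr (Or.inr (Or.inr ⟨rfl, rfl, rfl⟩))⟩, ?_⟩
    rw [h, h3]; congr 1; ring

end H731A
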