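import Pool.Agent.H731R4.Arcs.Final2

/-!
The interface between the cluster of the arc `[a, b]` and the dual cluster of the complementary
arc touches a boundary arc.
-/

namespace H731A

open H974 H731C H731R Finset DTra

/-- An inner face of the edges `[c, d)` is joined by a dual path to the outer faces of `[b, e)`. -/
def WA (m n b e c d : ℤ) (F : Finset Edg) : Prop :=
  ∃ i j, (c ≤ i ∧ i < d) ∧ (b ≤ j ∧ j < e) ∧
    DReach ((↑F : Set Edg)ᶜ ∩ ↑(RE 0 m 0 n)) (ofc m n j) (ifc m n i)

theorem ifc_period (m n i k : ℤ) : ifc m n (i + k * (2 * (m + n))) = ifc m n i := by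
  unfold ifc
  rw [Int.add_mul_emod_self_right]

theorem ofc_period (m n i k : ℤ) : ofc m n (i + k * (2 * (m + n))) = ofc m n i := by
  unfold ofc
  rw [Int.add_mul_emod_self_right]

theorem cl_ifc {m n : ℤ} (hm : 1 ≤ m) (hn : 1 ≤ n) (i : ℤ) : cl m n (ifc m n i) = ifc m n i := by
  obtain ⟨h1, h2⟩ := ifc_mem hm hn i
  unfold cl
  ext
  · show max 0 (min (ifc m n i).1 (m - 1)) = (ifc m n i).1; omega
  · show max 0 (min (ifc m n i).2 (n - 1)) = (ifc m n i).2; omega

/-- an outer face has a unique neighbour -/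
theorem dadj_ofc {m n : ℤ} (hm : 1 ≤ m) (hn : 1 ≤ n) {G : Set Edg} {g : Vtx} {j : ℤ}
    (h : DAdj (G ∩ ↑(RE 0 m 0 n)) g (ofc m n j)) : g = ifc m n j := by
  obtain ⟨h0, h1⟩ := res_cases hm hn j
  obtain ⟨⟨x, y, _ | _⟩, ⟨-, heR⟩, h⟩ := h
  · rw [Finset.mem_coe, mem_RE_false] at heR
    rw [dsrc_false, dtgt_mk] at h
    unfold ofc at h
    unfold ifc
    generalize j % (2 * (m + n)) = r at *
    split_ifs at h ⊢ with h2 h3 h4
    all_goals
      rcases h with ⟨h5, h6⟩ | ⟨h5, h6⟩
      all_goals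
        have h7 := congrArg Prod.fst h5
        have h8 := congrArg Prod.snd h5
        have h9 := congrArg Prod.fst h6
        have h10 := congrArg Prod.snd h6
        simp only at h7 h8 h9 h10
        first
          | (exfalso; omega)
          | (ext <;> simp only <;> omega)
  · rw [Finset.mem_coe, mem_RE_true] at heR
    rw [dsrc_true, dtgt_mk] at h
    unfold ofc at h
    unfold ifc
    generalize j % (2 * (m + n)) = r at *
    split_ifs at h ⊢ with h2 h3 h4
    all_goals
      rcases h with ⟨h5, h6⟩ | ⟨h5, h6⟩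
      all_goals
        have h7 := congrArg Prod.fst h5
        have h8 := congrArg Prod.snd h5
        have h9 := congrArg Prod.fst h6
        have h10 := congrArg Prod.snd h6
        simp only at h7 h8 h9 h10
        first
          | (exfalso; omega)
          | (ext <;> simp only <;> omega)

theorem ofc_neq {m n : ℤ} (hm : 1 ≤ m) (hn : 1 ≤ n) {i j : ℤ} (h1 : i < j)
    (h2 : j < i + 2 * (m + n)) : ofc m n i ≠ ofc m n j := by
  intro h
  have e : bed m n i = bed m n j := by
    obtain ⟨h3, h4⟩ := res_cases hm hn i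
    obtain ⟨h5, h6⟩ := res_cases hm hn j
    unfold ofc at h
    unfold bed
    generalize i % (2 * (m + n)) = r at *
    generalize j % (2 * (m + n)) = s at *
    split_ifs at h ⊢
    all_goals
      have h7 := congrArg Prod.fst h
      have h8 := congrArg Prod.snd h
      simp only at h7 h8
      first
        | (exfalso; omega)
        | (ext <;> simp only <;> omega)
        | (simp only [Prod.mk.injEq, and_true]; omega)
  exact bed_ne hm hn h1 h2 e

theorem WA_bounds {m n a b c d : ℤ} (hm : 1 ≤ m) (hn : 1 ≤ n) (hac : a ≤ c) (hcd : c < d)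
    (hdb : d ≤ b) (hba : b < a + 2 * (m + n)) :
    1 - P2 (RE 0 m 0 n) (AA m n d b (a + 2 * (m + n)) (c + 2 * (m + n))) ≤
        P2 (RE 0 m 0 n) (WA m n b (a + 2 * (m + n)) c d) ∧
      P2 (RE 0 m 0 n) (WA m n b (a + 2 * (m + n)) c d) ≤
        4 * (1 - P2 (RE 0 m 0 n) (AA m n d b (a + 2 * (m + n)) (c + 2 * (m + n)))) := by
  have ok : Ok (fun _ : Edg => (1/2 : ℝ)) := okhalf2
  constructor
  · have hnot : 1 - P2 (RE 0 m 0 n) (AA m n d b (a + 2 * (m + n)) (c + 2 * (m + n))) =
        P2 (RE 0 m 0 n) (fun F => ¬ AA m n d b (a + 2 * (m + n)) (c + 2 * (m + n)) F) := by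
      unfold P2
      rw [Pr_not]
    rw [hnot]
    unfold P2
    refine Pr_mono ok fun F hF h => ?_
    obtain ⟨i, j, hi, hj, hr⟩ := H731A.dual_of_not hm hn hdb (by omega) (by omega) (by omega) h
    refine ⟨j - 2 * (m + n), i, ⟨by omega, by omega⟩, hi, ?_⟩
    have e1 : ifc m n (j - 2 * (m + n)) = ifc m n j := by
      rw [← ifc_period m n (j - 2 * (m + n)) 1, one_mul, sub_add_cancel]
    rw [e1]
    rcases Relation.ReflTransGen.cases_tail hr with h1 | ⟨g, h1, h2⟩
    · exact absurd h1.symm (ofc_neq hm hn (by omega) (by omega))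
    · have h3 := dadj_ofc hm hn h2
      rw [← h3]
      exact h1
  · obtain ⟨k1, -⟩ := compl_bounds (m := m) (n := n) (a := d) (b := b) (c := a + 2 * (m + n))
      (d := c + 2 * (m + n)) hm hn hdb (by omega) (by omega) (by omega)
    refine le_trans ?_ (by linarith : P2 (RE 0 (m - 1) 0 (n - 1)) (FA m n b (a + 2 * (m + n))
      (c + 2 * (m + n)) (d + 2 * (m + n))) ≤ _)
    have hP : P2 (InE m n) (fun F => FA m n b (a + 2 * (m + n))
        (c + 2 * (m + n)) (d + 2 * (m + n)) (dmp (InE m n \ F))) =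
        P2 (RE 0 (m - 1) 0 (n - 1)) (FA m n b (a + 2 * (m + n))
          (c + 2 * (m + n)) (d + 2 * (m + n))) := by
      rw [P2_dual, dmp_InE]
    rw [← hP]
    have h3 : P2 (RE 0 m 0 n)
        (fun F => FA m n b (a + 2 * (m + n)) (c + 2 * (m + n)) (d + 2 * (m + n))
          (dmp (InE m n \ (F ∩ InE m n)))) =
        P2 (InE m n) (fun F => FA m n b (a + 2 * (m + n)) (c + 2 * (m + n)) (d + 2 * (m + n))
          (dmp (InE m n \ F))) :=
      P2_restrict InE_subset (fun F => FA m n b (a + 2 * (m + n)) (c + 2 * (m + n))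
        (d + 2 * (m + n)) (dmp (InE m n \ F)))
    rw [← h3]
    unfold P2
    refine Pr_mono ok fun F hF h => ?_
    obtain ⟨i, j, hi, hj, hr⟩ := h
    refine ⟨j, i + 2 * (m + n), hj, ⟨by omega, by omega⟩, ?_⟩
    have h4 := cl_dreach hm hn hr
    have e1 : ifc m n (i + 2 * (m + n)) = ifc m n i := by
      rw [← ifc_period m n i 1, one_mul]
    rw [cl_ofc hm hn, cl_ifc hm hn] at h4
    rw [e1]
    have h5 : DReach (↑(InE m n \ (F ∩ InE m n)) : Set Edg) (ifc m n j) (ifc m n i) := by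
      refine h4.mono ?_
      rintro e ⟨he1, he2⟩
      rw [Finset.mem_coe, Finset.mem_sdiff]
      exact ⟨Finset.mem_coe.mp he2, fun h => he1 (Finset.mem_coe.mpr (Finset.mem_inter.mp h).1)⟩
    have h6 : (↑(dmp (InE m n \ (F ∩ InE m n))) ∩ ↑(RE 0 (m - 1) 0 (n - 1)) : Set Edg) =
        dl '' ↑(InE m n \ (F ∩ InE m n)) := by
      rw [← dmp_InE, coe_dmp, coe_dmp]
      refine Set.inter_eq_left.mpr (Set.image_mono ?_)
      intro e he
      exact Finset.mem_coe.mpr (Finset.mem_sdiff.mp (Finset.mem_coe.mp he)).1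
    rw [h6, reach_dl]
    exact h5

/-- Touching probability of the wired arc. -/
theorem WA_eta (K : ℕ) : ∃ c0 C : ℝ, 0 < c0 ∧ 0 < C ∧ ∀ m n a b c d : ℤ, 1 ≤ m → 1 ≤ n →
    m ≤ K * n → n ≤ K * m → a ≤ c → c < d → d ≤ b → b < a + 2 * (m + n) →
    c0 * (((sz m n a b : ℝ) * sz m n c d) / ((sz m n a d : ℝ) * sz m n b c)) ^ ((1 : ℝ) / 3) ≤
        P2 (RE 0 m 0 n) (WA m n b (a + 2 * (m + n)) c d) ∧
      P2 (RE 0 m 0 n) (WA m n b (a + 2 * (m + n)) c d) ≤
        C * (((sz m n a b : ℝ) * sz m n c d) / ((sz m n a d : ℝ) * sz m n b c)) ^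
          ((1 : ℝ) / 3) := by
  obtain ⟨c0, C, hc, hC, h⟩ := compl_eta K
  refine ⟨c0, 4 * C, hc, by positivity, ?_⟩
  intro m n a b c d hm hn h1 h2 hac hcd hdb hba
  obtain ⟨g1, g2⟩ := WA_bounds hm hn hac hcd hdb hba
  obtain ⟨k1, k2⟩ := h m n d b (a + 2 * (m + n)) (c + 2 * (m + n)) hm hn h1 h2 hdb (by omega)
    (by omega) (by omega)
  have e : eta' m n d b (a + 2 * (m + n)) (c + 2 * (m + n)) =
      ((sz m n a b : ℝ) * sz m n c d) / ((sz m n a d : ℝ) * sz m n b c) := by
    unfold eta'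
    have e1 : sz m n b (a + 2 * (m + n)) = sz m n a b := by
      rw [sz_symm hm hn a b]
      have := sz_period m n b a 0 1
      rw [← this]; congr 1 <;> ring
    have e2 : sz m n (c + 2 * (m + n)) d = sz m n c d := by
      have := sz_period m n c d 1 0
      rw [← this]; congr 1 <;> ring
    have e3 : sz m n d (a + 2 * (m + n)) = sz m n a d := by
      rw [sz_symm hm hn a d]
      have := sz_period m n d a 0 1
      rw [← this]; congr 1 <;> ring
    have e4 : sz m n b (c + 2 * (m + n)) = sz m n b c := by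
      have := sz_period m n b c 0 1
      rw [← this]; congr 1 <;> ring
    rw [e1, e2, e3, e4]
  rw [e] at k1 k2
  exact ⟨k1.trans g1, by linarith⟩

end H731A
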